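import Mathlib

/-! Lagrangians of 3-graphs: a maximizer with minimal support. -/

set_option autoImplicit false
set_option linter.unusedSectionVars false
open Finset

namespace Pool.Agent.Q113.Cov

noncomputable section

section
variable {V : Type} [Fintype V] (E : V → V → V → ℕ)

/-- the trilinear form of the edges -/
def T3 (f g h : V → ℝ) : ℝ := ∑ a, ∑ b, ∑ c, f a * g b * h c * (E a b c : ℝ)
/-- the weight of the link graph of `u` (ordered pairs) -/
def LL (w : V → ℝ) (u : V) : ℝ := ∑ b, ∑ c, w b * w c * (E u b c : ℝ)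
/-- the weight of the vertices forming an edge with `u`, `v` -/
def CC (w : V → ℝ) (u v : V) : ℝ := ∑ c, w c * (E u v c : ℝ)

/-- symmetric, values `0` and `1`, no edges with repeated vertices -/
structure SE : Prop where
  b : ∀ x y z, E x y z = 0 ∨ E x y z = 1
  h213 : ∀ x y z, E y x z = E x y z
  h132 : ∀ x y z, E x z y = E x y z
  z : ∀ x y, E x x y = 0

variable {E}

theorem SE.z2 (h : SE E) (x y : V) : E x y x = 0 := by rw [h.h132]; exact h.z x y
theorem SE.z3 (h : SE E) (x y : V) : E y x x = 0 := by rw [← h.h213, ← h.h132]; exact h.z x y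

theorem T3_swap12 (h : SE E) (f g k : V → ℝ) : T3 E f g k = T3 E g f k := by
  unfold T3
  rw [sum_comm]
  refine sum_congr rfl fun a _ => sum_congr rfl fun b _ => sum_congr rfl fun c _ => ?_
  rw [h.h213 a b c]
  ring

theorem T3_swap23 (h : SE E) (f g k : V → ℝ) : T3 E f g k = T3 E f k g := by
  unfold T3
  refine sum_congr rfl fun a _ => ?_
  rw [sum_comm]
  refine sum_congr rfl fun b _ => sum_congr rfl fun c _ => ?_
  rw [h.h132 a b c]
  ring

theorem T3_expand (h : SE E) (w d : V → ℝ) (t : ℝ) :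
    T3 E (fun x => w x + t * d x) (fun x => w x + t * d x) (fun x => w x + t * d x)
      = T3 E w w w + 3 * t * T3 E d w w + 3 * t ^ 2 * T3 E d d w + t ^ 3 * T3 E d d d := by
  have e1 : T3 E w d w = T3 E d w w := T3_swap12 h _ _ _
  have e2 : T3 E w w d = T3 E d w w := by rw [T3_swap23 h, e1]
  have e3 : T3 E d w d = T3 E d d w := T3_swap23 h _ _ _
  have e4 : T3 E w d d = T3 E d d w := by rw [T3_swap12 h, e3]
  have e : T3 E (fun x => w x + t * d x) (fun x => w x + t * d x) (fun x => w x + t * d x)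
      = T3 E w w w + t * (T3 E d w w + T3 E w d w + T3 E w w d)
        + t ^ 2 * (T3 E d d w + T3 E d w d + T3 E w d d) + t ^ 3 * T3 E d d d := by
    unfold T3
    simp only [mul_add, mul_sum, ← sum_add_distrib]
    refine sum_congr rfl fun a _ => sum_congr rfl fun b _ => sum_congr rfl fun c _ => ?_
    ring
  rw [e, e1, e2, e3, e4]
  ring

variable [DecidableEq V]

/-- the difference of two unit vectors -/
def dd (u v : V) (x : V) : ℝ := (if x = u then 1 else 0) - (if x = v then 1 else 0)

theorem sum_dd (u v : V) (F : V → ℝ) : ∑ x, dd u v x * F x = F u - F v := by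
  unfold dd
  simp only [sub_mul, ite_mul, one_mul, zero_mul, sum_sub_distrib, sum_ite_eq', mem_univ, if_true]

theorem T3_dww (w : V → ℝ) (u v : V) : T3 E (dd u v) w w = LL E w u - LL E w v := by
  have : T3 E (dd u v) w w = ∑ a, dd u v a * LL E w a := by
    unfold T3 LL
    simp only [mul_sum]
    refine sum_congr rfl fun a _ => sum_congr rfl fun b _ => sum_congr rfl fun c _ => ?_
    ring
  rw [this, sum_dd]

theorem T3_ddw (h : SE E) (w : V → ℝ) (u v : V) : T3 E (dd u v) (dd u v) w = -2 * CC E w u v := by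
  have e1 : T3 E (dd u v) (dd u v) w = ∑ a, dd u v a * ∑ b, dd u v b * CC E w a b := by
    unfold T3 CC
    simp only [mul_sum]
    refine sum_congr rfl fun a _ => sum_congr rfl fun b _ => sum_congr rfl fun c _ => ?_
    ring
  have e2 : ∀ a, ∑ b, dd u v b * CC E w a b = CC E w a u - CC E w a v := fun a => sum_dd u v _
  rw [e1]
  simp only [e2]
  rw [sum_dd]
  have z : ∀ x, CC E w x x = 0 := fun x => by
    unfold CC
    refine sum_eq_zero fun c _ => ?_
    rw [h.z]; simp
  have s : CC E w v u = CC E w u v := by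
    unfold CC
    refine sum_congr rfl fun c _ => ?_
    rw [h.h213]
  rw [z, z, s]
  ring

theorem T3_ddd (h : SE E) (u v : V) : T3 E (dd u v) (dd u v) (dd u v) = 0 := by
  have e1 : T3 E (dd u v) (dd u v) (dd u v)
      = ∑ a, dd u v a * ∑ b, dd u v b * ∑ c, dd u v c * (E a b c : ℝ) := by
    unfold T3
    simp only [mul_sum]
    refine sum_congr rfl fun a _ => sum_congr rfl fun b _ => sum_congr rfl fun c _ => ?_
    ring
  have e2 : ∀ a b, ∑ c, dd u v c * (E a b c : ℝ) = (E a b u : ℝ) - (E a b v : ℝ) :=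
    fun a b => sum_dd u v _
  have e3 : ∀ a, ∑ b, dd u v b * ((E a b u : ℝ) - (E a b v : ℝ))
      = ((E a u u : ℝ) - (E a u v : ℝ)) - ((E a v u : ℝ) - (E a v v : ℝ)) :=
    fun a => sum_dd u v (fun b => (E a b u : ℝ) - (E a b v : ℝ))
  rw [e1]
  simp only [e2, e3]
  rw [sum_dd u v (fun a => ((E a u u : ℝ) - (E a u v : ℝ)) - ((E a v u : ℝ) - (E a v v : ℝ)))]
  rw [h.z3, h.z, h.z2, h.z3, h.z3, h.z2, h.z, h.z3]
  simp

theorem T3_move (h : SE E) (w : V → ℝ) (u v : V) (t : ℝ) :
    T3 E (fun x => w x + t * dd u v x) (fun x => w x + t * dd u v x) (fun x => w x + t * dd u v x)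
      = T3 E w w w + 3 * t * (LL E w u - LL E w v) - 6 * t ^ 2 * CC E w u v := by
  rw [T3_expand h, T3_dww, T3_ddw h, T3_ddd h]
  ring

theorem T3_LL (w : V → ℝ) : T3 E w w w = ∑ u, w u * LL E w u := by
  unfold T3 LL
  simp only [mul_sum]
  refine sum_congr rfl fun a _ => sum_congr rfl fun b _ => sum_congr rfl fun c _ => ?_
  ring

theorem T3_cont : Continuous fun w : V → ℝ => T3 E w w w := by
  unfold T3
  fun_prop

/-- the support -/
def sp (w : V → ℝ) : Finset V := univ.filter fun v => w v ≠ 0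

theorem exists_min [Nonempty V] : ∃ w ∈ stdSimplex ℝ V, (∀ w' ∈ stdSimplex ℝ V, T3 E w' w' w' ≤ T3 E w w w) ∧
    ∀ w' ∈ stdSimplex ℝ V, T3 E w' w' w' = T3 E w w w → (sp w).card ≤ (sp w').card := by
  obtain ⟨w0, hw0, hmax⟩ := (isCompact_stdSimplex ℝ V).exists_isMaxOn
    ⟨_, single_mem_stdSimplex ℝ (Classical.arbitrary V)⟩ (T3_cont (E := E)).continuousOn
  set M : Set (V → ℝ) := {w | w ∈ stdSimplex ℝ V ∧ T3 E w w w = T3 E w0 w0 w0} with hM
  have hne : ((fun w => (sp w).card) '' M).Nonempty := ⟨_, w0, ⟨hw0, rfl⟩, rfl⟩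
  obtain ⟨w, hwM, hwc⟩ := Nat.sInf_mem hne
  refine ⟨w, hwM.1, fun w' hw' => ?_, fun w' hw' h => ?_⟩
  · rw [hwM.2]
    exact hmax hw'
  · have : sInf ((fun w => (sp w).card) '' M) ≤ (sp w').card :=
      Nat.sInf_le ⟨w', ⟨hw', h.trans hwM.2⟩, rfl⟩
    exact (le_of_eq hwc).trans this

theorem move_mem {w : V → ℝ} (hw : w ∈ stdSimplex ℝ V) {u v : V} (huv : u ≠ v) {t : ℝ} (h1 : -w u ≤ t)
    (h2 : t ≤ w v) : (fun x => w x + t * dd u v x) ∈ stdSimplex ℝ V := by
  refine ⟨fun x => ?_, ?_⟩
  · show 0 ≤ w x + t * dd u v x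
    unfold dd
    have h0 := hw.1 x
    by_cases hu : x = u
    · subst hu
      rw [if_pos rfl, if_neg huv]
      linarith
    · by_cases hv : x = v
      · subst hv
        rw [if_neg hu, if_pos rfl]
        linarith
      · rw [if_neg hu, if_neg hv]
        linarith
  · show ∑ x, (w x + t * dd u v x) = 1
    rw [sum_add_distrib, hw.2, ← mul_sum]
    have := sum_dd u v (fun _ => 1)
    simp only [mul_one, sub_self] at this
    rw [this]
    ring

theorem main_lagr [Nonempty V] (h : SE E) : ∃ w ∈ stdSimplex ℝ V,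
    (∀ w' ∈ stdSimplex ℝ V, T3 E w' w' w' ≤ T3 E w w w) ∧
    (∀ u, w u ≠ 0 → LL E w u = T3 E w w w) ∧
    ∀ u v, w u ≠ 0 → w v ≠ 0 → u ≠ v → ∃ x, w x ≠ 0 ∧ E u v x = 1 := by
  obtain ⟨w, hw, hmax, hmin⟩ := exists_min (E := E)
  have hpos : ∀ u, w u ≠ 0 → 0 < w u := fun u hu => lt_of_le_of_ne (hw.1 u) (Ne.symm hu)
  have key : ∀ u v, u ≠ v → ∀ t, -w u ≤ t → t ≤ w v →
      3 * t * (LL E w u - LL E w v) - 6 * t ^ 2 * CC E w u v ≤ 0 := by
    intro u v huv t h1 h2
    have h3 := hmax _ (move_mem hw huv h1 h2)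
    rw [T3_move h] at h3
    linarith
  have hCC : ∀ u v, 0 ≤ CC E w u v := fun u v =>
    sum_nonneg fun c _ => mul_nonneg (hw.1 c) (Nat.cast_nonneg _)
  have hle : ∀ u v, w u ≠ 0 → w v ≠ 0 → u ≠ v → LL E w u ≤ LL E w v := by
    intro u v hu hv huv
    by_contra hcon
    push Not at hcon
    set D := LL E w u - LL E w v with hD
    have hD0 : 0 < D := by rw [hD]; linarith
    set c := CC E w u v with hc
    have hc0 : 0 ≤ c := hCC u v
    -- t = min (w v) (D / (4 (c + 1)))
    set t := min (w v) (D / (4 * (c + 1))) with ht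
    have hq : 0 < D / (4 * (c + 1)) := by positivity
    have ht0 : 0 < t := lt_min (hpos v hv) hq
    have h1 := key u v huv t (by linarith [hpos u hu]) (min_le_left _ _)
    have h2 : t ≤ D / (4 * (c + 1)) := min_le_right _ _
    rw [le_div_iff₀ (by positivity)] at h2
    rw [← hD, ← hc] at h1
    nlinarith [mul_nonneg ht0.le hc0]
  have heq : ∀ u v, w u ≠ 0 → w v ≠ 0 → LL E w u = LL E w v := by
    intro u v hu hv
    by_cases huv : u = v
    · rw [huv]
    · exact le_antisymm (hle u v hu hv huv) (hle v u hv hu (Ne.symm huv))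
  refine ⟨w, hw, hmax, fun u hu => ?_, fun u v hu hv huv => ?_⟩
  · rw [T3_LL]
    have : ∑ v, w v * LL E w v = ∑ v, w v * LL E w u := by
      refine sum_congr rfl fun v _ => ?_
      by_cases hv : w v = 0
      · rw [hv]; ring
      · rw [heq v u hv hu]
    rw [this, ← sum_mul, hw.2, one_mul]
  · by_contra hcon
    push Not at hcon
    have hc : CC E w u v = 0 := by
      unfold CC
      refine sum_eq_zero fun c _ => ?_
      by_cases hcw : w c = 0
      · rw [hcw]; ring
      · rcases h.b u v c with h0 | h1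
        · rw [h0]; simp
        · exact absurd h1 (hcon c hcw)
    have hm := move_mem hw huv (t := w v) (by linarith [hpos u hu, hpos v hv]) le_rfl
    have hT := T3_move h w u v (w v)
    rw [hc, heq u v hu hv, sub_self, mul_zero, mul_zero, add_zero, sub_zero] at hT
    have hcard := hmin _ hm hT
    have hlt : sp (fun x => w x + w v * dd u v x) ⊂ sp w := by
      refine (Finset.ssubset_iff_of_subset ?_).mpr ⟨v, ?_, ?_⟩
      · intro x hx
        unfold sp at hx ⊢
        rw [mem_filter] at hx ⊢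
        refine ⟨mem_univ _, fun h0 => hx.2 ?_⟩
        have hxu : x ≠ u := fun e => hu (e ▸ h0)
        have hxv : x ≠ v := fun e => hv (e ▸ h0)
        show w x + w v * dd u v x = 0
        unfold dd
        rw [if_neg hxu, if_neg hxv, h0]
        ring
      · unfold sp
        rw [mem_filter]
        exact ⟨mem_univ _, hv⟩
      · unfold sp
        rw [mem_filter]
        rintro ⟨-, h0⟩
        apply h0
        show w v + w v * dd u v v = 0
        unfold dd
        rw [if_neg (Ne.symm huv), if_pos rfl]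
        ring
    have := card_lt_card hlt
    omega

/-- the weights are bounded by the density -/
theorem weight_bound (h : SE E) {w : V → ℝ} (hw : w ∈ stdSimplex ℝ V) (u : V) :
    LL E w u ≤ (1 - w u) ^ 2 := by
  have h1 : LL E w u ≤ ∑ b, ∑ c, (if b = u then 0 else w b) * (if c = u then 0 else w c) := by
    unfold LL
    refine sum_le_sum fun b _ => sum_le_sum fun c _ => ?_
    by_cases hb : b = u
    · subst hb
      rw [h.z, if_pos rfl]; simp
    · by_cases hc : c = u
      · subst hc
        rw [h.z2, if_pos rfl]; simp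
      · rw [if_neg hb, if_neg hc]
        have hE : (E u b c : ℝ) ≤ 1 := by
          rcases h.b u b c with h0 | h0 <;> rw [h0] <;> simp
        exact mul_le_of_le_one_right (mul_nonneg (hw.1 b) (hw.1 c)) hE
  have h2 : ∑ b, (if b = u then 0 else w b) = 1 - w u := by
    rw [← hw.2, ← sum_erase_add _ _ (mem_univ u), ← sum_erase_add univ w (mem_univ u), if_pos rfl]
    have : ∑ x ∈ univ.erase u, (if x = u then 0 else w x) = ∑ x ∈ univ.erase u, w x :=
      sum_congr rfl fun x hx => if_neg (ne_of_mem_erase hx)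
    rw [this]
    ring
  rw [← sum_mul_sum, h2] at h1
  nlinarith

end

end

end Pool.Agent.Q113.Cov
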