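import Pool.Agent.Q113.Cov.Ext
import Pool.Agent.Q113.Cov.Lag

/-! The inequality of order seven for weighted vertices. -/

set_option autoImplicit false
set_option linter.unusedSectionVars false
set_option maxRecDepth 100000
open Finset Filter
open Pool.Agent.H122R2.N6 (Sy NoK4 Bt k4b)
open Pool.Agent.W843.N7 (TE)
open Pool.Agent.Y435.T7 (e3 hC)

namespace Pool.Agent.Q113.Cov

noncomputable section

section
variable {V : Type} [Fintype V] (E : V → V → V → ℕ)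

/-- the sum of the squares of a type on three vertices, weighted -/
def Zb (w : V → ℝ) (a b c : V) : ℝ :=
  ∑ k ∈ range 20, (∑ x, ∑ y, w x * w y * ((e3 (hC E a b c x y) k : ℝ) - 4224)) ^ 2

/-- left side minus right side -/
def FF (w : V → ℝ) : ℝ := 187199897 * (∑ v, w v) ^ 7
  - (335504400 * ((∑ v, w v) ^ 4 * T3 E w w w) + 444360 * ((∑ v, w v) * T3 E w w w ^ 2)
    + 105 * ∑ a, ∑ b, ∑ c, w a * w b * w c * Zb E w a b c)

theorem FF_cont : Continuous (FF E) := by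
  unfold FF Zb T3
  fun_prop

theorem FF_hom (w : V → ℝ) (t : ℝ) : FF E (fun v => t * w v) = t ^ 7 * FF E w := by
  have h1 : ∑ v, t * w v = t * ∑ v, w v := by rw [mul_sum]
  have h2 : T3 E (fun v => t * w v) (fun v => t * w v) (fun v => t * w v) = t ^ 3 * T3 E w w w := by
    unfold T3
    simp only [mul_sum]
    refine sum_congr rfl fun a _ => sum_congr rfl fun b _ => sum_congr rfl fun c _ => ?_
    ring
  have h3 : ∀ a b c, Zb E (fun v => t * w v) a b c = t ^ 4 * Zb E w a b c := by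
    intro a b c
    unfold Zb
    rw [mul_sum]
    refine sum_congr rfl fun k _ => ?_
    have : ∑ x, ∑ y, t * w x * (t * w y) * ((e3 (hC E a b c x y) k : ℝ) - 4224)
        = t ^ 2 * ∑ x, ∑ y, w x * w y * ((e3 (hC E a b c x y) k : ℝ) - 4224) := by
      simp only [mul_sum]
      refine sum_congr rfl fun a _ => sum_congr rfl fun b _ => ?_
      ring
    rw [this]
    ring
  have h4 : ∑ a, ∑ b, ∑ c, t * w a * (t * w b) * (t * w c) * Zb E (fun v => t * w v) a b c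
      = t ^ 7 * ∑ a, ∑ b, ∑ c, w a * w b * w c * Zb E w a b c := by
    simp only [mul_sum, h3]
    refine sum_congr rfl fun a _ => sum_congr rfl fun b _ => sum_congr rfl fun c _ => ?_
    ring
  unfold FF
  rw [h1, h2, h4]
  ring

variable {E}

theorem sum_bv (n : V → ℕ) (f : V → ℝ) : ∑ a : (Σ v, Fin (n v)), f a.1 = ∑ v, (n v : ℝ) * f v := by
  rw [Fintype.sum_sigma]
  refine sum_congr rfl fun v _ => ?_
  show ∑ _y : Fin (n v), f v = _
  rw [sum_const, card_univ, Fintype.card_fin, nsmul_eq_mul]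

theorem sum_bv2 (n : V → ℕ) (f : V → V → ℝ) :
    ∑ a : (Σ v, Fin (n v)), ∑ b : (Σ v, Fin (n v)), f a.1 b.1 = ∑ a, ∑ b, (n a : ℝ) * n b * f a b := by
  have h : ∀ a : (Σ v, Fin (n v)), ∑ b : (Σ v, Fin (n v)), f a.1 b.1 = (fun v => ∑ b, (n b : ℝ) * f v b) a.1 :=
    fun a => sum_bv n (f a.1)
  rw [sum_congr rfl fun a _ => h a, sum_bv n (fun v => ∑ b, (n b : ℝ) * f v b)]
  simp only [mul_sum]
  refine sum_congr rfl fun a _ => sum_congr rfl fun b _ => ?_
  ring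

theorem sum_bv3 (n : V → ℕ) (f : V → V → V → ℝ) :
    ∑ a : (Σ v, Fin (n v)), ∑ b : (Σ v, Fin (n v)), ∑ c : (Σ v, Fin (n v)), f a.1 b.1 c.1
      = ∑ a, ∑ b, ∑ c, (n a : ℝ) * n b * n c * f a b c := by
  have h : ∀ a : (Σ v, Fin (n v)), ∑ b : (Σ v, Fin (n v)), ∑ c : (Σ v, Fin (n v)), f a.1 b.1 c.1
      = (fun v => ∑ b, ∑ c, (n b : ℝ) * n c * f v b c) a.1 := fun a => sum_bv2 n (f a.1)
  rw [sum_congr rfl fun a _ => h a, sum_bv n (fun v => ∑ b, ∑ c, (n b : ℝ) * n c * f v b c)]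
  simp only [mul_sum]
  refine sum_congr rfl fun a _ => sum_congr rfl fun b _ => sum_congr rfl fun c _ => ?_
  ring

theorem FF_nat (hE : Sy E) (hK : NoK4 E) (n : V → ℕ) : 0 ≤ FF E (fun v => (n v : ℝ)) := by
  set E' : (Σ v, Fin (n v)) → (Σ v, Fin (n v)) → (Σ v, Fin (n v)) → ℕ := fun a b c => E a.1 b.1 c.1 with hE'
  have hE1 : Sy E' := ⟨fun x y z => hE.b _ _ _, fun x y z => hE.h213 _ _ _, fun x y z => hE.h132 _ _ _⟩
  have hK1 : NoK4 E' := fun a b c d => hK _ _ _ _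
  have h := main_ext hE1 hK1
  have hr : (335504400 * ((Fintype.card (Σ v, Fin (n v)) : ℝ) ^ 4 * (TE E' : ℝ))
      + 444360 * ((Fintype.card (Σ v, Fin (n v)) : ℝ) * (TE E' : ℝ) ^ 2)
      + 105 * ∑ r, ∑ s, ∑ t, (Zf E' r s t : ℝ)) ≤ 187199897 * (Fintype.card (Σ v, Fin (n v)) : ℝ) ^ 7 := by
    exact_mod_cast h
  have hc : (Fintype.card (Σ v, Fin (n v)) : ℝ) = ∑ v, (n v : ℝ) := by
    rw [Fintype.card_sigma]
    push_cast
    simp only [Fintype.card_fin]
  have hT : (TE E' : ℝ) = T3 E (fun v => (n v : ℝ)) (fun v => (n v : ℝ)) (fun v => (n v : ℝ)) := by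
    have : (TE E' : ℝ) = ∑ a : (Σ v, Fin (n v)), ∑ b : (Σ v, Fin (n v)), ∑ c : (Σ v, Fin (n v)),
        (fun a b c => (E a b c : ℝ)) a.1 b.1 c.1 := by
      unfold TE
      push_cast
      rfl
    rw [this, sum_bv3 n (fun a b c => (E a b c : ℝ))]
    rfl
  have hZ : ∀ r s t, (Zf E' r s t : ℝ) = Zb E (fun v => (n v : ℝ)) r.1 s.1 t.1 := by
    intro r s t
    unfold Zf Zb
    push_cast
    refine sum_congr rfl fun k _ => ?_
    congr 1
    rw [Fintype.sum_prod_type]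
    exact sum_bv2 n (fun x y => ((e3 (hC E r.1 s.1 t.1 x y) k : ℝ) - 4224))
  have hS : ∑ r, ∑ s, ∑ t, (Zf E' r s t : ℝ)
      = ∑ a, ∑ b, ∑ c, (n a : ℝ) * n b * n c * Zb E (fun v => (n v : ℝ)) a b c := by
    rw [← sum_bv3 n (Zb E (fun v => (n v : ℝ)))]
    exact sum_congr rfl fun r _ => sum_congr rfl fun s _ => sum_congr rfl fun t _ => hZ r s t
  rw [hc, hT, hS] at hr
  unfold FF
  linarith

theorem FF_real (hE : Sy E) (hK : NoK4 E) {w : V → ℝ} (hw : ∀ v, 0 ≤ w v) : 0 ≤ FF E w := by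
  have ht : Tendsto (fun N : ℕ => fun v => ((⌊w v * (N : ℝ)⌋₊ : ℕ) : ℝ) / (N : ℝ)) atTop (nhds w) := by
    rw [tendsto_pi_nhds]
    intro v
    exact (tendsto_nat_floor_mul_div_atTop (hw v)).comp tendsto_natCast_atTop_atTop
  have h1 : Tendsto (fun N : ℕ => FF E (fun v => ((⌊w v * (N : ℝ)⌋₊ : ℕ) : ℝ) / (N : ℝ))) atTop (nhds (FF E w)) :=
    ((FF_cont E).tendsto w).comp ht
  refine ge_of_tendsto' h1 fun N => ?_
  have h2 : (fun v => ((⌊w v * (N : ℝ)⌋₊ : ℕ) : ℝ) / (N : ℝ))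
      = fun v => ((N : ℝ)⁻¹) * ((⌊w v * (N : ℝ)⌋₊ : ℕ) : ℝ) := by
    funext v
    rw [div_eq_inv_mul]
  rw [h2, FF_hom]
  exact mul_nonneg (by positivity) (FF_nat hE hK _)

/-- the inequality of order seven for weights with sum one -/
theorem main_real (hE : Sy E) (hK : NoK4 E) {w : V → ℝ} (hw : w ∈ stdSimplex ℝ V) :
    335504400 * T3 E w w w + 444360 * T3 E w w w ^ 2
      + 105 * ∑ a, ∑ b, ∑ c, w a * w b * w c * Zb E w a b c ≤ 187199897 := by
  have h := FF_real hE hK hw.1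
  unfold FF at h
  rw [hw.2] at h
  linarith

end

end

end Pool.Agent.Q113.Cov
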