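import Pool.Agent.Q113.Cov.Main
import Pool.Agent.H122R2.N6.Count

/-! Weighted counting of edges. -/

set_option autoImplicit false
open Finset
open scoped Classical
open Pool.Agent.H122R2.N6

namespace Pool.Agent.Q113.Cov

noncomputable section

theorem exists_edge {V : Type} {H : Finset (Finset V)} {a b c : V} (h : tri H a b c = 1) :
    ∃ e ∈ H, a ∈ e ∧ b ∈ e ∧ ∀ t ∈ e, t = a ∨ t = b ∨ t = c := by
  unfold tri at h
  by_cases hm : ({a, b, c} : Finset V) ∈ H
  · refine ⟨_, hm, by simp, by simp, fun t ht => ?_⟩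
    simpa using ht
  · rw [if_neg hm] at h
    exact absurd h (by norm_num)

theorem six_weight_le {V : Type} [Fintype V] {H : Finset (Finset V)} (hH : ∀ e ∈ H, e.card = 3)
    {w : V → ℝ} (hw : ∀ v, 0 ≤ w v) : 6 * ∑ e ∈ H, ∏ v ∈ e, w v ≤ T3 (tri H) w w w := by
  set T : Finset (V × V × V) := univ.filter fun t => ({t.1, t.2.1, t.2.2} : Finset V) ∈ H with hT
  have e : T3 (tri H) w w w = ∑ t ∈ T, w t.1 * w t.2.1 * w t.2.2 := by
    rw [hT, sum_filter, Fintype.sum_prod_type]
    unfold T3
    refine sum_congr rfl fun a _ => ?_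
    rw [Fintype.sum_prod_type]
    refine sum_congr rfl fun b _ => sum_congr rfl fun c _ => ?_
    unfold tri
    by_cases h : ({a, b, c} : Finset V) ∈ H
    · rw [if_pos h, if_pos h]; simp
    · rw [if_neg h, if_neg h]; simp
  have hfw := sum_fiberwise_of_maps_to (s := T) (t := H)
    (g := fun t : V × V × V => ({t.1, t.2.1, t.2.2} : Finset V))
    (fun t ht => (mem_filter.mp ht).2) (fun t => w t.1 * w t.2.1 * w t.2.2)
  rw [e, ← hfw, mul_sum]
  refine sum_le_sum fun s hs => ?_
  obtain ⟨x, y, z, hxy, hxz, hyz, rfl⟩ := Finset.card_eq_three.mp (hH s hs)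
  have hprod : ∏ v ∈ ({x, y, z} : Finset V), w v = w x * w y * w z := by
    rw [prod_insert (by simp [hxy, hxz]), prod_insert (by simp [hyz]), prod_singleton]
    ring
  rw [hprod]
  set U : Finset (V × V × V) := {(x, y, z), (x, z, y), (y, x, z), (y, z, x), (z, x, y), (z, y, x)} with hU
  have hsub : U ⊆ T.filter (fun t : V × V × V => ({t.1, t.2.1, t.2.2} : Finset V) = {x, y, z}) := by
    have key : ∀ u v t : V, ({u, v, t} : Finset V) = {x, y, z} →
        (u, v, t) ∈ T.filter (fun t : V × V × V => ({t.1, t.2.1, t.2.2} : Finset V) = {x, y, z}) := by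
      intro u v t h
      have hm : ({u, v, t} : Finset V) ∈ H := by rw [h]; exact hs
      rw [mem_filter, hT, mem_filter]
      exact ⟨⟨mem_univ _, hm⟩, h⟩
    intro t ht
    rw [hU] at ht
    simp only [mem_insert, mem_singleton] at ht
    rcases ht with rfl | rfl | rfl | rfl | rfl | rfl
    · exact key _ _ _ rfl
    · exact key _ _ _ (by ext t; simp; tauto)
    · exact key _ _ _ (by ext t; simp; tauto)
    · exact key _ _ _ (by ext t; simp; tauto)
    · exact key _ _ _ (by ext t; simp; tauto)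
    · exact key _ _ _ (by ext t; simp; tauto)
  refine le_trans (le_of_eq ?_) (sum_le_sum_of_subset_of_nonneg hsub fun t _ _ =>
    mul_nonneg (mul_nonneg (hw _) (hw _)) (hw _))
  rw [hU, sum_insert, sum_insert, sum_insert, sum_insert, sum_insert, sum_singleton]
  · ring
  all_goals simp [hxy, hxz, hyz, hxy.symm, hxz.symm, hyz.symm]

end

end Pool.Agent.Q113.Cov
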