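import Pool.Agent.Q113.Cov.Cnt

/-! Counting pairs and codegrees. -/

set_option autoImplicit false
open Finset
open scoped Classical
open Pool.Agent.H122R2.N6

namespace Pool.Agent.Q113.Cov

noncomputable section

theorem sum_tri_le {V : Type} [Fintype V] {H : Finset (Finset V)} (h3 : ∀ e ∈ H, e.card = 3) (a b : V) :
    ∑ c, (tri H a b c : ℝ) ≤ ((H.filter fun e => a ∈ e ∧ b ∈ e).card : ℝ) := by
  have h1 : ∑ c, (tri H a b c : ℝ) = ((univ.filter fun c => ({a, b, c} : Finset V) ∈ H).card : ℝ) := by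
    rw [card_filter]
    push_cast
    refine sum_congr rfl fun c _ => ?_
    unfold tri
    split_ifs <;> simp
  rw [h1]
  norm_cast
  refine card_le_card_of_injOn (fun c => ({a, b, c} : Finset V)) ?_ ?_
  · intro c hc
    have hc' := (mem_filter.mp hc).2
    refine mem_filter.mpr ⟨hc', by simp, by simp⟩
  · intro c hc c' hc' h
    have hc1 := (mem_filter.mp hc).2
    have hd := distinct_of_mem h3 hc1
    have hm : c ∈ ({a, b, c'} : Finset V) := by
      have h' : ({a, b, c} : Finset V) = {a, b, c'} := h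
      rw [← h']
      simp
    simp only [mem_insert, mem_singleton] at hm
    rcases hm with rfl | rfl | rfl
    · exact absurd rfl hd.2.1
    · exact absurd rfl hd.2.2
    · rfl

/-- the same for any set containing these edges -/
theorem sum_tri_le_of {V : Type} [Fintype V] {H : Finset (Finset V)} (h3 : ∀ e ∈ H, e.card = 3) {a b : V}
    {S : Finset (Finset V)} (hS : ∀ e ∈ H, a ∈ e → b ∈ e → e ∈ S) :
    ∑ c, (tri H a b c : ℝ) ≤ (S.card : ℝ) := by
  refine (sum_tri_le h3 a b).trans ?_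
  norm_cast
  refine card_le_card fun e he => ?_
  rw [mem_filter] at he
  exact hS e he.1 he.2.1 he.2.2

theorem two_card_le {V : Type} [Fintype V] (P : Finset (Finset V)) (hP : ∀ s ∈ P, s.card = 2) :
    2 * P.card ≤ (univ.filter fun t : V × V => t.1 ≠ t.2 ∧ ∃ s ∈ P, t.1 ∈ s ∧ t.2 ∈ s).card := by
  have hmap : ∀ t ∈ (univ.filter fun t : V × V => t.1 ≠ t.2 ∧ ∃ s ∈ P, t.1 ∈ s ∧ t.2 ∈ s),
      ({t.1, t.2} : Finset V) ∈ P := by
    intro t ht
    obtain ⟨hne, s, hs, h1, h2⟩ := (mem_filter.mp ht).2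
    have hsub : ({t.1, t.2} : Finset V) ⊆ s := by
      intro x hx
      rw [mem_insert, mem_singleton] at hx
      rcases hx with rfl | rfl
      exacts [h1, h2]
    rw [eq_of_subset_of_card_le hsub (by rw [hP s hs, card_pair hne])]
    exact hs
  rw [card_eq_sum_card_fiberwise hmap, mul_comm, ← smul_eq_mul]
  refine card_nsmul_le_sum _ _ _ fun s hs => ?_
  obtain ⟨x, y, hxy, rfl⟩ := Finset.card_eq_two.mp (hP s hs)
  have hsub : ({(x, y), (y, x)} : Finset (V × V)) ⊆
      ((univ.filter fun t : V × V => t.1 ≠ t.2 ∧ ∃ s ∈ P, t.1 ∈ s ∧ t.2 ∈ s).filter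
        fun t : V × V => ({t.1, t.2} : Finset V) = {x, y}) := by
    intro t ht
    rw [mem_insert, mem_singleton] at ht
    rw [mem_filter, mem_filter]
    rcases ht with rfl | rfl
    · exact ⟨⟨mem_univ _, hxy, _, hs, by simp, by simp⟩, rfl⟩
    · exact ⟨⟨mem_univ _, hxy.symm, _, hs, by simp, by simp⟩, pair_comm _ _⟩
  have h2 := card_le_card hsub
  rwa [card_pair (by intro h; exact hxy (Prod.mk.inj h).1)] at h2

/-- the form with counting measure -/
theorem small_codeg_count {V : Type} [Fintype V] {H : Finset (Finset V)} (h3 : ∀ e ∈ H, e.card = 3)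
    (F : ℝ) (n : ℕ) (hn0 : 0 < n)
    (h : T3 (tri H) (fun _ => (1 : ℝ) / n) (fun _ => (1 : ℝ) / n) (fun _ => (1 : ℝ) / n) ≤ F) :
    6 * (H.card : ℝ) ≤ F * (n : ℝ) ^ 3 := by
  have hnr : (0 : ℝ) < n := by exact_mod_cast hn0
  have h6 := six_weight_le (w := fun _ : V => (1 : ℝ) / n) h3 (fun v => by positivity)
  have hscale : ∑ e ∈ H, ∏ _v ∈ e, (1 : ℝ) / n = H.card / (n : ℝ) ^ 3 := by
    have : ∀ e ∈ H, ∏ _v ∈ e, (1 : ℝ) / n = 1 / (n : ℝ) ^ 3 := by
      intro e he
      rw [prod_const, h3 e he, div_pow, one_pow]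
    rw [sum_congr rfl this, sum_const, nsmul_eq_mul]
    ring
  rw [hscale] at h6
  have h7 := h6.trans h
  rw [← mul_div_assoc, div_le_iff₀ (by positivity)] at h7
  exact h7

/-- the average of a relation on pairs from the number of pairs -/
theorem avg_pairs {V : Type} [Fintype V] (n : ℕ) (hn0 : 0 < n) (P : Finset (Finset V))
    (hP : ∀ s ∈ P, s.card = 2) :
    2 * (P.card : ℝ) / (n : ℝ) ^ 2 ≤ ∑ a : V, ∑ b : V, (1 : ℝ) / n * (1 / n) *
      (if a ≠ b ∧ ∃ s ∈ P, a ∈ s ∧ b ∈ s then 1 else 0) := by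
  have hnr : (0 : ℝ) < n := by exact_mod_cast hn0
  have h1 := two_card_le P hP
  have hsum : ∑ a : V, ∑ b : V, (1 : ℝ) / n * (1 / n) * (if a ≠ b ∧ ∃ s ∈ P, a ∈ s ∧ b ∈ s then 1 else 0)
      = 1 / n * (1 / n) * ((univ.filter fun t : V × V => t.1 ≠ t.2 ∧ ∃ s ∈ P, t.1 ∈ s ∧ t.2 ∈ s).card : ℝ) := by
    rw [card_filter]
    push_cast
    rw [Fintype.sum_prod_type]
    simp only [mul_sum]
  rw [hsum]
  have h2 : 2 * (P.card : ℝ) ≤ ((univ.filter fun t : V × V =>
      t.1 ≠ t.2 ∧ ∃ s ∈ P, t.1 ∈ s ∧ t.2 ∈ s).card : ℝ) := by exact_mod_cast h1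
  rw [div_le_iff₀ (by positivity)]
  refine h2.trans (le_of_eq ?_)
  field_simp

end

end Pool.Agent.Q113.Cov
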