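import Pool.Agent.Y435.T7.Final

/-! The certificate of order seven with the squares kept for the types on three vertices. -/

set_option autoImplicit false
set_option linter.unusedSectionVars false
set_option maxRecDepth 100000
open Finset
open Pool.Agent.H122R2.N6 (Sy NoK4 Bt k4b)
open Pool.Agent.W843.N7 (TE conv7)
open Pool.Agent.Y435.T7

namespace Pool.Agent.Q113.Cov

noncomputable section

theorem psd_eq {ι : Type} [Fintype ι] (K : ℕ) (B : ℤ) (l : ι → ℕ → ℤ) (w : ι → ℤ) :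
    ∑ x, ∑ y, (∑ k ∈ range K, l x k * l y k + w x + w y)
      = 2 * (Fintype.card ι : ℤ) * ∑ x, (w x + B * ∑ k ∈ range K, l x k)
        - K * B ^ 2 * (Fintype.card ι : ℤ) ^ 2 + ∑ k ∈ range K, (∑ x, (l x k - B)) ^ 2 := by
  have h1 : ∑ x, ∑ y, (∑ k ∈ range K, l x k * l y k + w x + w y)
      = ∑ k ∈ range K, (∑ x, l x k) ^ 2 + 2 * (Fintype.card ι : ℤ) * ∑ x, w x := by
    simp only [sum_add_distrib, sum_const, card_univ, nsmul_eq_mul]
    have : ∑ x, ∑ y, ∑ k ∈ range K, l x k * l y k = ∑ k ∈ range K, (∑ x, l x k) ^ 2 := by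
      calc ∑ x, ∑ y, ∑ k ∈ range K, l x k * l y k
          = ∑ x, ∑ k ∈ range K, ∑ y, l x k * l y k := sum_congr rfl fun x _ => sum_comm
        _ = ∑ k ∈ range K, ∑ x, ∑ y, l x k * l y k := sum_comm
        _ = _ := by
            refine sum_congr rfl fun k _ => ?_
            rw [sq, sum_mul_sum]
    rw [this, ← mul_sum]
    ring
  have h2 : ∀ k, (∑ x, (l x k - B)) ^ 2 = (∑ x, l x k) ^ 2 - 2 * (Fintype.card ι : ℤ) * B * ∑ x, l x k
      + B ^ 2 * (Fintype.card ι : ℤ) ^ 2 := by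
    intro k
    rw [sum_sub_distrib, sum_const, card_univ, nsmul_eq_mul]
    ring
  have h3 : ∑ k ∈ range K, (∑ x, (l x k - B)) ^ 2 = ∑ k ∈ range K, (∑ x, l x k) ^ 2
      - 2 * (Fintype.card ι : ℤ) * B * (∑ k ∈ range K, ∑ x, l x k)
      + K * (B ^ 2 * (Fintype.card ι : ℤ) ^ 2) := by
    rw [sum_congr rfl fun k _ => h2 k, sum_add_distrib, sum_sub_distrib, sum_const, card_range,
      nsmul_eq_mul, ← mul_sum]
  have h4 : ∑ x, (w x + B * ∑ k ∈ range K, l x k) = ∑ x, w x + B * ∑ k ∈ range K, ∑ x, l x k := by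
    rw [sum_add_distrib, ← mul_sum, sum_comm]
  rw [h1, h3, h4]
  ring

section
variable {V : Type} [Fintype V] {E : V → V → V → ℕ}

/-- the sum of the squares of a type on three vertices -/
def Zf (E : V → V → V → ℕ) (r s t : V) : ℤ :=
  ∑ k ∈ range 20, (∑ u : V × V, ((e3 (hC E r s t u.1 u.2) k : ℤ) - 4224)) ^ 2

theorem Zf_nonneg (E : V → V → V → ℕ) (r s t : V) : 0 ≤ Zf E r s t :=
  sum_nonneg fun _ _ => sq_nonneg _

theorem psd3_eq (hE : Sy E) (hK : NoK4 E) (r s t : V) :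
    ∑ u : V × V, ∑ v : V × V, (F3 E r s t u.1 u.2 v.1 v.2 : ℤ)
      = (2 * 387666048 - 20 * (4224 : ℤ) ^ 2) * (Fintype.card V : ℤ) ^ 4 + Zf E r s t := by
  have p := psd_eq 20 (4224 : ℤ) (fun (u : V × V) k => (e3 (hC E r s t u.1 u.2) k : ℤ))
    (fun u => (w3 (hC E r s t u.1 u.2) : ℤ))
  have e2 : ∀ u v : V × V, (F3 E r s t u.1 u.2 v.1 v.2 : ℤ) =
      ∑ k ∈ range 20, (e3 (hC E r s t u.1 u.2) k : ℤ) * (e3 (hC E r s t v.1 v.2) k : ℤ)
        + (w3 (hC E r s t u.1 u.2) : ℤ) + (w3 (hC E r s t v.1 v.2) : ℤ) := by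
    intro u v
    unfold F3
    rw [d3_eq]
    push_cast
    rfl
  have e3' : ∑ u : V × V, ∑ v : V × V, (F3 E r s t u.1 u.2 v.1 v.2 : ℤ) = ∑ u : V × V, ∑ v : V × V,
      (∑ k ∈ range 20, (e3 (hC E r s t u.1 u.2) k : ℤ) * (e3 (hC E r s t v.1 v.2) k : ℤ)
        + (w3 (hC E r s t u.1 u.2) : ℤ) + (w3 (hC E r s t v.1 v.2) : ℤ)) :=
    sum_congr rfl fun u _ => sum_congr rfl fun v _ => e2 u v
  rw [e3', p]
  have e4 : ∑ u : V × V, ((w3 (hC E r s t u.1 u.2) : ℤ)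
      + 4224 * ∑ k ∈ range 20, (e3 (hC E r s t u.1 u.2) k : ℤ)) = ∑ _u : V × V, (387666048 : ℤ) :=
    sum_congr rfl fun u _ => by
      have h := w3_E hE hK r s t u.1 u.2
      have h' : ((w3 (hC E r s t u.1 u.2) + (∑ k ∈ range 20, e3 (hC E r s t u.1 u.2) k) * 4224 : ℕ) : ℤ)
        = 387666048 := by rw [h]; rfl
      push_cast at h'
      linarith
  rw [e4, sum_const, card_univ, Fintype.card_prod, nsmul_eq_mul]
  unfold Zf
  push_cast
  ring

theorem S3_eq (hE : Sy E) (hK : NoK4 E) :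
    SU3 E = (2 * 387666048 - 20 * (4224 : ℤ) ^ 2) * (Fintype.card V : ℤ) ^ 7
      + ∑ r, ∑ s, ∑ t, Zf E r s t := by
  have h3 : SU3 E = ∑ r, ∑ s, ∑ t, ∑ x, ∑ y, ∑ p, ∑ q, (F3 E r s t x y p q : ℤ) :=
    conv7 (fun a b c d e f g => (F3 E a b c d e f g : ℤ))
  have h4 : ∀ r s t : V, ∑ x, ∑ y, ∑ p, ∑ q, (F3 E r s t x y p q : ℤ)
      = ∑ u : V × V, ∑ v : V × V, (F3 E r s t u.1 u.2 v.1 v.2 : ℤ) := by
    intro r s t
    simp only [Fintype.sum_prod_type]
  rw [h3]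
  have e1 : ∑ r : V, ∑ s : V, ∑ t : V, ∑ x, ∑ y, ∑ p, ∑ q, (F3 E r s t x y p q : ℤ)
      = ∑ r : V, ∑ s : V, ∑ t : V, ((2 * 387666048 - 20 * (4224 : ℤ) ^ 2) * (Fintype.card V : ℤ) ^ 4
        + Zf E r s t) :=
    sum_congr rfl fun r _ => sum_congr rfl fun s _ => sum_congr rfl fun t _ => by
      rw [h4, psd3_eq hE hK]
  rw [e1]
  simp only [sum_add_distrib, sum_const, card_univ, nsmul_eq_mul]
  ring

/-- the inequality of order seven -/
theorem main_ext (hE : Sy E) (hK : NoK4 E) :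
    335504400 * ((Fintype.card V : ℤ) ^ 4 * TE E) + 444360 * ((Fintype.card V : ℤ) * (TE E) ^ 2)
      + 105 * ∑ r, ∑ s, ∑ t, Zf E r s t ≤ 187199897 * (Fintype.card V : ℤ) ^ 7 := by
  have hC := CH_all
  have h1 := S5_lower hC hE hK
  have h2 := S3_eq hE hK
  rw [GG_sum] at h1
  have h3 := LL_sum E
  have h4 : ∑ x : Fin 7 → V, (Pool.Agent.Y435.T7.LL E (x 0) (x 1) (x 2) (x 3) (x 4) (x 5) (x 6) : ℤ)
      ≤ 72091913225 * (Fintype.card V : ℤ) ^ 7 := by
    calc _ ≤ ∑ x : Fin 7 → V, (72091913225 : ℤ) :=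
          sum_le_sum fun x _ => by
            have h := LL_le hC hE hK (x 0) (x 1) (x 2) (x 3) (x 4) (x 5) (x 6)
            have hc : cC = 72091913225 := rfl
            rw [hc] at h
            exact_mod_cast h
      _ = 72091913225 * (Fintype.card V : ℤ) ^ 7 := by
          rw [sum_const, card_univ, Fintype.card_fun, Fintype.card_fin, nsmul_eq_mul]
          push_cast
          ring
  rw [h3] at h4
  linarith

end

end

end Pool.Agent.Q113.Cov
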