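import Pool.Agent.H122R2.N6.Bound2
import Pool.Agent.Q113.Cov.Lag

/-! Sums of squares of the pairs of vertices, kept; and weighted sums over blow-ups. -/

set_option autoImplicit false
set_option linter.unusedSectionVars false
set_option maxRecDepth 100000
open Finset Filter
open Pool.Agent.H122R2.N6

namespace Pool.Agent.Q113.Cov

noncomputable section

section
variable {V : Type} [Fintype V]

theorem psd_id {ι : Type} [Fintype ι] (K : ℕ) (u : ℕ → ι → ℤ) :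
    ∑ d, ∑ e, ∑ k ∈ range K, ((1 : ℕ) : ℤ) * u k d * u k e = ∑ k ∈ range K, (∑ d, u k d) ^ 2 := by
  calc ∑ d, ∑ e, ∑ k ∈ range K, ((1 : ℕ) : ℤ) * u k d * u k e
      = ∑ d, ∑ k ∈ range K, ∑ e, ((1 : ℕ) : ℤ) * u k d * u k e := by
        refine sum_congr rfl fun d _ => ?_
        rw [sum_comm]
    _ = ∑ k ∈ range K, ∑ d, ∑ e, ((1 : ℕ) : ℤ) * u k d * u k e := sum_comm
    _ = _ := by
        refine sum_congr rfl fun k _ => ?_
        rw [sq, Finset.sum_mul_sum]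
        refine sum_congr rfl fun d _ => sum_congr rfl fun e _ => ?_
        push_cast
        ring

/-- the sum of squares of a pair of vertices -/
def Z2 (E : V → V → V → ℕ) (K : ℕ) (l : ℕ → ℕ → ℕ) (B : ℤ) (a b : V) : ℤ :=
  ∑ k ∈ range K, (∑ q : V × V, ((l (cd4 (E a b q.1) (E a b q.2) (E a q.1 q.2) (E b q.1 q.2)) k : ℤ) - B)) ^ 2

theorem lower2_eq {E : V → V → V → ℕ} (hE : Sy E) (K : ℕ) (q2 : ℕ → ℕ → ℕ) (l : ℕ → ℕ → ℕ) (B O2 : ℤ)
    (hq2 : ∀ i j, i < 16 → j < 16 → (q2 i j : ℤ) =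
      ∑ k ∈ range K, ((1 : ℕ) : ℤ) * ((l i k : ℤ) - B) * ((l j k : ℤ) - B) + O2) :
    ∑ x : Fin 6 → V, (F2 E q2 (x 0) (x 1) (x 2) (x 3) (x 4) (x 5) : ℤ)
      = O2 * (Fintype.card V : ℤ) ^ 6 + ∑ a, ∑ b, Z2 E K l B a b := by
  rw [conv6 (fun a b c d e f => (F2 E q2 a b c d e f : ℤ))]
  have e1 : O2 * (Fintype.card V : ℤ) ^ 6 + ∑ a, ∑ b, Z2 E K l B a b
      = ∑ a : V, ∑ b : V, (∑ c : V, ∑ d : V, ∑ e : V, ∑ f : V, O2 + Z2 E K l B a b) := by
    simp only [sum_const, card_univ, nsmul_eq_mul, sum_add_distrib]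
    ring
  rw [e1]
  refine sum_congr rfl fun a _ => sum_congr rfl fun b _ => ?_
  have e2 : ∀ c d e f : V, (F2 E q2 a b c d e f : ℤ) = _ := fun c d e f =>
    hq2 _ _ (cd4_lt (hE.b a b c) (hE.b a b d) (hE.b a c d) (hE.b b c d))
      (cd4_lt (hE.b a b e) (hE.b a b f) (hE.b a e f) (hE.b b e f))
  simp only [e2, sum_add_distrib]
  have p := psd_id (ι := V × V) K
    (fun k q => (l (cd4 (E a b q.1) (E a b q.2) (E a q.1 q.2) (E b q.1 q.2)) k : ℤ) - B)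
  unfold Z2
  rw [← p]
  simp only [Fintype.sum_prod_type]
  ring

/-- weighted -/
def Zw (E : V → V → V → ℕ) (K : ℕ) (l : ℕ → ℕ → ℕ) (B : ℝ) (w : V → ℝ) (a b : V) : ℝ :=
  ∑ k ∈ range K, (∑ x, ∑ y, w x * w y *
    ((l (cd4 (E a b x) (E a b y) (E a x y) (E b x y)) k : ℝ) - B)) ^ 2

theorem Zw_nonneg (E : V → V → V → ℕ) (K : ℕ) (l : ℕ → ℕ → ℕ) (B : ℝ) (w : V → ℝ) (a b : V) :
    0 ≤ Zw E K l B w a b := sum_nonneg fun _ _ => sq_nonneg _

/-- right side minus left side -/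
def F2r (E : V → V → V → ℕ) (K : ℕ) (l : ℕ → ℕ → ℕ) (B p q r : ℝ) (w : V → ℝ) : ℝ :=
  r * (∑ v, w v) ^ 7 - (p * ((∑ v, w v) ^ 4 * T3 E w w w) + q * ((∑ v, w v) * T3 E w w w ^ 2)
    + 1890 * ((∑ v, w v) * ∑ a, ∑ b, w a * w b * Zw E K l B w a b))

theorem F2r_cont (E : V → V → V → ℕ) (K : ℕ) (l : ℕ → ℕ → ℕ) (B p q r : ℝ) :
    Continuous (F2r E K l B p q r) := by
  unfold F2r Zw T3
  fun_prop

theorem F2r_hom (E : V → V → V → ℕ) (K : ℕ) (l : ℕ → ℕ → ℕ) (B p q r : ℝ) (w : V → ℝ) (t : ℝ) :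
    F2r E K l B p q r (fun v => t * w v) = t ^ 7 * F2r E K l B p q r w := by
  have h1 : ∑ v, t * w v = t * ∑ v, w v := by rw [mul_sum]
  have h2 : T3 E (fun v => t * w v) (fun v => t * w v) (fun v => t * w v) = t ^ 3 * T3 E w w w := by
    unfold T3
    simp only [mul_sum]
    refine sum_congr rfl fun a _ => sum_congr rfl fun b _ => sum_congr rfl fun c _ => ?_
    ring
  have h3 : ∀ a b, Zw E K l B (fun v => t * w v) a b = t ^ 4 * Zw E K l B w a b := by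
    intro a b
    unfold Zw
    rw [mul_sum]
    refine sum_congr rfl fun k _ => ?_
    have : ∑ x, ∑ y, t * w x * (t * w y) *
        ((l (cd4 (E a b x) (E a b y) (E a x y) (E b x y)) k : ℝ) - B)
        = t ^ 2 * ∑ x, ∑ y, w x * w y *
          ((l (cd4 (E a b x) (E a b y) (E a x y) (E b x y)) k : ℝ) - B) := by
      simp only [mul_sum]
      refine sum_congr rfl fun a _ => sum_congr rfl fun b _ => ?_
      ring
    rw [this]
    ring
  have h4 : ∑ a, ∑ b, t * w a * (t * w b) * Zw E K l B (fun v => t * w v) a b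
      = t ^ 6 * ∑ a, ∑ b, w a * w b * Zw E K l B w a b := by
    simp only [mul_sum, h3]
    refine sum_congr rfl fun a _ => sum_congr rfl fun b _ => ?_
    ring
  unfold F2r
  rw [h1, h2, h4]
  ring

theorem sum_bw (n : V → ℕ) (f : V → ℝ) : ∑ a : (Σ v, Fin (n v)), f a.1 = ∑ v, (n v : ℝ) * f v := by
  rw [Fintype.sum_sigma]
  refine sum_congr rfl fun v _ => ?_
  show ∑ _y : Fin (n v), f v = _
  rw [sum_const, card_univ, Fintype.card_fin, nsmul_eq_mul]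

theorem sum_bw2 (n : V → ℕ) (f : V → V → ℝ) :
    ∑ a : (Σ v, Fin (n v)), ∑ b : (Σ v, Fin (n v)), f a.1 b.1 = ∑ a, ∑ b, (n a : ℝ) * n b * f a b := by
  have h : ∀ a : (Σ v, Fin (n v)), ∑ b : (Σ v, Fin (n v)), f a.1 b.1 = (fun v => ∑ b, (n b : ℝ) * f v b) a.1 :=
    fun a => sum_bw n (f a.1)
  rw [sum_congr rfl fun a _ => h a, sum_bw n (fun v => ∑ b, (n b : ℝ) * f v b)]
  simp only [mul_sum]
  refine sum_congr rfl fun a _ => sum_congr rfl fun b _ => ?_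
  ring

theorem sum_bw3 (n : V → ℕ) (f : V → V → V → ℝ) :
    ∑ a : (Σ v, Fin (n v)), ∑ b : (Σ v, Fin (n v)), ∑ c : (Σ v, Fin (n v)), f a.1 b.1 c.1
      = ∑ a, ∑ b, ∑ c, (n a : ℝ) * n b * n c * f a b c := by
  have h : ∀ a : (Σ v, Fin (n v)), ∑ b : (Σ v, Fin (n v)), ∑ c : (Σ v, Fin (n v)), f a.1 b.1 c.1
      = (fun v => ∑ b, ∑ c, (n b : ℝ) * n c * f v b c) a.1 := fun a => sum_bw2 n (f a.1)
  rw [sum_congr rfl fun a _ => h a, sum_bw n (fun v => ∑ b, ∑ c, (n b : ℝ) * n c * f v b c)]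
  simp only [mul_sum]
  refine sum_congr rfl fun a _ => sum_congr rfl fun b _ => sum_congr rfl fun c _ => ?_
  ring

/-- the blow-up of `E` -/
def bl (E : V → V → V → ℕ) (n : V → ℕ) (a b c : Σ v, Fin (n v)) : ℕ := E a.1 b.1 c.1

/-- from the inequality for all blow-ups to weights -/
theorem F2r_real (E : V → V → V → ℕ) (K : ℕ) (l : ℕ → ℕ → ℕ) (B p q r : ℤ)
    (h : ∀ n : V → ℕ, p * ((Fintype.card (Σ v, Fin (n v)) : ℤ) ^ 4 * (∑ a, ∑ b, ∑ c, (bl E n a b c : ℤ)))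
      + q * ((Fintype.card (Σ v, Fin (n v)) : ℤ) * (∑ a, ∑ b, ∑ c, (bl E n a b c : ℤ)) ^ 2)
      + 1890 * ((Fintype.card (Σ v, Fin (n v)) : ℤ) * ∑ a, ∑ b, Z2 (bl E n) K l B a b)
      ≤ r * (Fintype.card (Σ v, Fin (n v)) : ℤ) ^ 7) {w : V → ℝ} (hw : w ∈ stdSimplex ℝ V) :
    p * T3 E w w w + q * T3 E w w w ^ 2 + 1890 * ∑ a, ∑ b, w a * w b * Zw E K l B w a b ≤ r := by
  have hnat : ∀ n : V → ℕ, 0 ≤ F2r E K l B p q r (fun v => (n v : ℝ)) := by
    intro n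
    have h1 := h n
    have hr : (p * ((Fintype.card (Σ v, Fin (n v)) : ℝ) ^ 4 * (∑ a, ∑ b, ∑ c, (bl E n a b c : ℝ)))
      + q * ((Fintype.card (Σ v, Fin (n v)) : ℝ) * (∑ a, ∑ b, ∑ c, (bl E n a b c : ℝ)) ^ 2)
      + 1890 * ((Fintype.card (Σ v, Fin (n v)) : ℝ) * ∑ a, ∑ b, (Z2 (bl E n) K l B a b : ℝ)))
      ≤ r * (Fintype.card (Σ v, Fin (n v)) : ℝ) ^ 7 := by exact_mod_cast h1
    have hc : (Fintype.card (Σ v, Fin (n v)) : ℝ) = ∑ v, (n v : ℝ) := by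
      rw [Fintype.card_sigma]
      push_cast
      simp only [Fintype.card_fin]
    have hT : ∑ a, ∑ b, ∑ c, (bl E n a b c : ℝ) = T3 E (fun v => (n v : ℝ)) (fun v => (n v : ℝ)) (fun v => (n v : ℝ)) :=
      sum_bw3 n (fun a b c => (E a b c : ℝ))
    have hZ : ∀ a b, (Z2 (bl E n) K l B a b : ℝ) = Zw E K l B (fun v => (n v : ℝ)) a.1 b.1 := by
      intro a b
      unfold Z2 Zw
      push_cast
      refine sum_congr rfl fun k _ => ?_
      congr 1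
      rw [Fintype.sum_prod_type]
      exact sum_bw2 n (fun x y => ((l (cd4 (E a.1 b.1 x) (E a.1 b.1 y) (E a.1 x y) (E b.1 x y)) k : ℝ) - B))
    have hS : ∑ a, ∑ b, (Z2 (bl E n) K l B a b : ℝ)
        = ∑ a, ∑ b, (n a : ℝ) * n b * Zw E K l B (fun v => (n v : ℝ)) a b := by
      rw [← sum_bw2 n (Zw E K l B (fun v => (n v : ℝ)))]
      exact sum_congr rfl fun a _ => sum_congr rfl fun b _ => hZ a b
    rw [hc, hT, hS] at hr
    unfold F2r
    linarith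
  have ht : Tendsto (fun N : ℕ => fun v => ((⌊w v * (N : ℝ)⌋₊ : ℕ) : ℝ) / (N : ℝ)) atTop (nhds w) := by
    rw [tendsto_pi_nhds]
    intro v
    exact (tendsto_nat_floor_mul_div_atTop (hw.1 v)).comp tendsto_natCast_atTop_atTop
  have h1 : Tendsto (fun N : ℕ => F2r E K l B p q r (fun v => ((⌊w v * (N : ℝ)⌋₊ : ℕ) : ℝ) / (N : ℝ))) atTop
      (nhds (F2r E K l B p q r w)) := ((F2r_cont E K l B p q r).tendsto w).comp ht
  have h0 : 0 ≤ F2r E K l B p q r w := by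
    refine ge_of_tendsto' h1 fun N => ?_
    have h2 : (fun v => ((⌊w v * (N : ℝ)⌋₊ : ℕ) : ℝ) / (N : ℝ))
        = fun v => ((N : ℝ)⁻¹) * ((⌊w v * (N : ℝ)⌋₊ : ℕ) : ℝ) := by
      funext v
      rw [div_eq_inv_mul]
    rw [h2, F2r_hom]
    exact mul_nonneg (by positivity) (hnat _)
  unfold F2r at h0
  rw [hw.2] at h0
  linarith

/-- the squares at coinciding vertices -/
theorem Zw_diag {E : V → V → V → ℕ} (hE : SE E) (K : ℕ) (l : ℕ → ℕ → ℕ) (B : ℝ) {w : V → ℝ}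
    (hw : w ∈ stdSimplex ℝ V) (u : V) :
    Zw E K l B w u u = ∑ k ∈ range K, ((1 - LL E w u) * ((l 0 k : ℝ) - B) + LL E w u * ((l 12 k : ℝ) - B)) ^ 2 := by
  unfold Zw
  refine sum_congr rfl fun k _ => ?_
  congr 1
  have h2 : ∀ x y, w x * w y * ((l (cd4 (E u u x) (E u u y) (E u x y) (E u x y)) k : ℝ) - B)
      = w x * w y * ((l 0 k : ℝ) - B) + w x * w y * (E u x y : ℝ) * (((l 12 k : ℝ) - B) - ((l 0 k : ℝ) - B)) := by
    intro x y
    rw [hE.z, hE.z]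
    rcases hE.b u x y with h | h
    · rw [h]
      have : cd4 0 0 0 0 = 0 := rfl
      rw [this]; simp
    · rw [h]
      have : cd4 0 0 1 1 = 12 := rfl
      rw [this]; simp
      ring
  have s1 : ∑ x, ∑ y, w x * w y * ((l 0 k : ℝ) - B) = (l 0 k : ℝ) - B := by
    have : ∀ x, ∑ y, w x * w y * ((l 0 k : ℝ) - B) = w x * ((l 0 k : ℝ) - B) := fun x => by
      rw [← sum_mul, ← mul_sum, hw.2, mul_one]
    rw [sum_congr rfl fun x _ => this x, ← sum_mul, hw.2, one_mul]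
  have s2 : ∑ x, ∑ y, w x * w y * (E u x y : ℝ) * (((l 12 k : ℝ) - B) - ((l 0 k : ℝ) - B))
      = LL E w u * (((l 12 k : ℝ) - B) - ((l 0 k : ℝ) - B)) := by
    unfold LL
    simp only [sum_mul]
  rw [sum_congr rfl fun x _ => sum_congr rfl fun y _ => h2 x y]
  simp only [sum_add_distrib]
  rw [s1, s2]
  ring

/-- a maximizer of the Lagrangian on a covering set with at most `k` vertices -/
theorem finish [DecidableEq V] [Nonempty V] {E : V → V → V → ℕ} (hE : SE E) (K : ℕ) (l : ℕ → ℕ → ℕ)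
    (B p q r t z : ℝ) (hp : 0 ≤ p) (hq : 0 ≤ q) (k : ℕ)
    (hmain : ∀ w ∈ stdSimplex ℝ V,
      p * T3 E w w w + q * T3 E w w w ^ 2 + 1890 * ∑ a, ∑ b, w a * w b * Zw E K l B w a b ≤ r)
    (hc : ∀ S : Finset V, (∀ u ∈ S, ∀ v ∈ S, u ≠ v → ∃ x ∈ S, E u v x = 1) → S.card ≤ k)
    (ht : 0 ≤ t) (hz : 0 ≤ z)
    (hzz : ∀ d : ℝ, t ≤ d → d ≤ 1 → z ≤ ∑ j ∈ range K, ((1 - d) * ((l 0 j : ℝ) - B) + d * ((l 12 j : ℝ) - B)) ^ 2)
    (hnum : r * k < (p * t + q * t ^ 2) * k + 1890 * z)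
    {w : V → ℝ} (hw : w ∈ stdSimplex ℝ V) : T3 E w w w ≤ t := by
  obtain ⟨m, hm, hmax, hreg, hcov⟩ := main_lagr hE
  refine (hmax w hw).trans ?_
  set d := T3 E m m m with hd
  by_contra hcon
  push Not at hcon
  set S := sp m with hS
  have hScard : S.card ≤ k := by
    refine hc S fun u hu v hv huv => ?_
    rw [hS, sp, mem_filter] at hu hv
    obtain ⟨x, hx, hx1⟩ := hcov u v hu.2 hv.2 huv
    exact ⟨x, by rw [hS, sp, mem_filter]; exact ⟨mem_univ _, hx⟩, hx1⟩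
  have hd1 : d ≤ 1 := by
    by_contra hc1
    push Not at hc1
    have : ∃ u, m u ≠ 0 := by
      by_contra hno
      push Not at hno
      have := hm.2
      simp [hno] at this
    obtain ⟨u, hu⟩ := this
    have h1 := weight_bound hE hm u
    rw [hreg u hu] at h1
    have h2 : m u ≤ 1 := by
      rw [← hm.2]
      exact single_le_sum (fun x _ => hm.1 x) (mem_univ u)
    nlinarith [hm.1 u]
  have h1 := hmain m hm
  rw [← hd] at h1
  have hSsum : ∑ u ∈ S, m u = 1 := by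
    rw [← hm.2]
    apply sum_subset (subset_univ S)
    intro u _ hu
    by_contra hne
    exact hu (by rw [hS, sp, mem_filter]; exact ⟨mem_univ _, hne⟩)
  have h2 : z * ∑ u ∈ S, m u ^ 2 ≤ ∑ a, ∑ b, m a * m b * Zw E K l B m a b := by
    have h3 : z * ∑ u ∈ S, m u ^ 2 ≤ ∑ u ∈ S, m u * m u * Zw E K l B m u u := by
      rw [mul_sum]
      refine sum_le_sum fun u hu => ?_
      rw [hS, sp, mem_filter] at hu
      rw [Zw_diag hE K l B hm u, hreg u hu.2]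
      have h4 := hzz d hcon.le hd1
      nlinarith [mul_nonneg (hm.1 u) (hm.1 u), mul_le_mul_of_nonneg_left h4 (mul_nonneg (hm.1 u) (hm.1 u))]
    refine h3.trans ?_
    refine (sum_le_sum_of_subset_of_nonneg (subset_univ S) fun u _ _ =>
      mul_nonneg (mul_nonneg (hm.1 u) (hm.1 u)) (Zw_nonneg _ _ _ _ _ _ _)).trans ?_
    refine sum_le_sum fun u _ => ?_
    exact single_le_sum (f := fun b => m u * m b * Zw E K l B m u b)
      (fun b _ => mul_nonneg (mul_nonneg (hm.1 u) (hm.1 b)) (Zw_nonneg _ _ _ _ _ _ _)) (mem_univ u)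
  have h5 : (1 : ℝ) ≤ k * ∑ u ∈ S, m u ^ 2 := by
    have h6 := sq_sum_le_card_mul_sum_sq (s := S) (f := m)
    rw [hSsum] at h6
    have h7 : (S.card : ℝ) * ∑ u ∈ S, m u ^ 2 ≤ k * ∑ u ∈ S, m u ^ 2 :=
      mul_le_mul_of_nonneg_right (by exact_mod_cast hScard) (sum_nonneg fun _ _ => sq_nonneg _)
    linarith
  have hk0 : (0 : ℝ) ≤ k := Nat.cast_nonneg k
  have h8 : p * t + q * t ^ 2 ≤ p * d + q * d ^ 2 := by
    have : t ^ 2 ≤ d ^ 2 := pow_le_pow_left₀ ht hcon.le 2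
    nlinarith [mul_le_mul_of_nonneg_left hcon.le hp, mul_le_mul_of_nonneg_left this hq]
  have h9 : p * t + q * t ^ 2 + 1890 * (z * ∑ u ∈ S, m u ^ 2) ≤ r := by linarith
  have h10 := mul_le_mul_of_nonneg_right h9 hk0
  have h11 : z ≤ z * (k * ∑ u ∈ S, m u ^ 2) := le_mul_of_one_le_right hz h5
  nlinarith

end

end

end Pool.Agent.Q113.Cov
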