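import Pool.Agent.W843.K6.Final
import Pool.Agent.Q113.Cov.G6Ext

/-! The certificate for `K_6^3` with the squares of the pairs kept. -/

set_option autoImplicit false
set_option linter.unusedSectionVars false
set_option maxRecDepth 100000
open Finset
open Pool.Agent.H122R2.N6
open Pool.Agent.W843.K6 (NoK6)
open Pool.Agent.W843.N7 (TE e6 p6 e6_sum p6_sum)

namespace Pool.Agent.Q113.Cov.C6

section
variable {V : Type} [Fintype V] {E : V → V → V → ℕ}
open Pool.Agent.W909.K6T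

theorem G6_low_ext (hE : Sy E) : 60 * 1073741824 * (Fintype.card V : ℤ) ^ 6
    + 45 * ∑ a, ∑ b, Z2 E 4 l2 32768 a b
    ≤ ∑ a, ∑ b, ∑ c, ∑ d, ∑ e, ∑ f, (G6 E a b c d e f : ℤ) := by
  have A4 := lower4 E hE 10 q4 (fun _ _ => 1) (fun c i k => l4 (rho c) (pc c i) k) 32768 1073741824
    (fun _ => 0) (fun c i j hc hi hj => by
      rw [hq4 c i j hc hi hj, add_zero])
  have hz : Sv E (fun _ => 0) = 0 := by unfold Sv; simp
  rw [hz] at A4
  have A2 := lower2_eq hE 4 q2 l2 32768 1073741824 hq2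
  have h : ∑ x : Fin 6 → V, ((L4 E q4 (x 0) (x 1) (x 2) (x 3) (x 4) (x 5) : ℤ)
      + (L2 E q2 (x 0) (x 1) (x 2) (x 3) (x 4) (x 5) : ℤ))
      = ∑ a, ∑ b, ∑ c, ∑ d, ∑ e, ∑ f, (G6 E a b c d e f : ℤ) := by
    rw [← conv6 (fun a b c d e f => (G6 E a b c d e f : ℤ))]
    refine sum_congr rfl fun x _ => ?_
    unfold G6
    push_cast
    rfl
  rw [← h, sum_add_distrib, sumL4 E q4, sumL2 E q2]
  linarith

end

section
variable {V : Type} [Fintype V] {E : V → V → V → ℕ}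
open Pool.Agent.W843.K6

theorem main_ext (hE : Sy E) (hK : NoK6 E) :
    5376000000 * ((Fintype.card V : ℤ) ^ 4 * TE E) + 0 * ((Fintype.card V : ℤ) * (TE E) ^ 2)
      + 1890 * ((Fintype.card V : ℤ) * ∑ a, ∑ b, Z2 E 4 Pool.Agent.W909.K6T.l2 32768 a b)
      ≤ 4605435120 * (Fintype.card V : ℤ) ^ 7 := by
  have hO := OF_E hE hK
  have h1 := F5_lower E hO (fun a b c d e x => (cAl : ℤ) * (e6 E a b c d e x : ℤ) + ((cBe : ℤ) * (p6 E a b c d e x : ℤ) + (Pool.Agent.W909.K6T.G6 E a b c d e x : ℤ)))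
    (fun a b c d e x => by
      have h := wid_E hE hK a b c d e x
      rw [wsum_eq] at h
      exact_mod_cast h)
  have h2 : ∑ a : V, ∑ b : V, ∑ c : V, ∑ d : V, ∑ e : V, ∑ x : V,
      ((cAl : ℤ) * (e6 E a b c d e x : ℤ) + ((cBe : ℤ) * (p6 E a b c d e x : ℤ) + (Pool.Agent.W909.K6T.G6 E a b c d e x : ℤ)))
      = (cAl : ℤ) * (20 * ((Fintype.card V : ℤ) ^ 3 * TE E)) + ((cBe : ℤ) * (10 * (TE E) ^ 2)
      + ∑ a : V, ∑ b : V, ∑ c : V, ∑ d : V, ∑ e : V, ∑ x : V, (Pool.Agent.W909.K6T.G6 E a b c d e x : ℤ)) := by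
    simp only [sum_add_distrib, ← mul_sum]
    rw [e6_sum, p6_sum]
  rw [h2] at h1
  have h3 := L5_sum E
  have h4 : ∑ x : Fin 7 → V, (L5 E (x 0) (x 1) (x 2) (x 3) (x 4) (x 5) (x 6) : ℤ)
      ≤ (cC : ℤ) * (Fintype.card V : ℤ) ^ 7 := by
    calc _ ≤ ∑ x : Fin 7 → V, (cC : ℤ) :=
          sum_le_sum fun x _ => by exact_mod_cast leaf_all hE hK (x 0) (x 1) (x 2) (x 3) (x 4) (x 5) (x 6)
      _ = (cC : ℤ) * (Fintype.card V : ℤ) ^ 7 := by
          rw [sum_const, card_univ, Fintype.card_fun, Fintype.card_fin, nsmul_eq_mul]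
          push_cast
          ring
  rw [h3] at h4
  have h5 := G6_low_ext (V := V) hE
  have hn : (0 : ℤ) ≤ (Fintype.card V : ℤ) := Int.natCast_nonneg _
  have h6 := mul_le_mul_of_nonneg_left h5 hn
  have e1 : (cAl : ℤ) = 6400000 := rfl
  have e2 : (cBe : ℤ) = 0 := rfl
  have e4 : (cC : ℤ) = 2575143361776 := rfl
  have e5 : (cB : ℤ) = 32768 := rfl
  rw [e1, e2, e5] at h1
  rw [e4] at h4
  linarith

/-- Turán's bound for `K_6^3`-free structures with covering sets of at most 85 vertices -/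
theorem dens6 [DecidableEq V] [Nonempty V] (hE : Sy E) (hz : ∀ x y, E x x y = 0) (hK : NoK6 E)
    (hc : ∀ S : Finset V, (∀ u ∈ S, ∀ v ∈ S, u ≠ v → ∃ x ∈ S, E u v x = 1) → S.card ≤ 85)
    {w : V → ℝ} (hw : w ∈ stdSimplex ℝ V) : T3 E w w w ≤ 21 / 25 := by
  have hSE : SE E := ⟨hE.b, hE.h213, hE.h132, hz⟩
  refine finish hSE 4 Pool.Agent.W909.K6T.l2 32768 5376000000 0 4605435120 (21 / 25) 4034207
    (by norm_num) (by norm_num) 85 (fun w hw => ?_) hc (by norm_num) (by norm_num) (fun d h1 h2 => ?_)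
    (by norm_num) hw
  · have h := F2r_real E 4 Pool.Agent.W909.K6T.l2 32768 5376000000 0 4605435120 (fun n => ?_) hw
    · push_cast at h
      exact h
    · have hE1 : Sy (bl E n) := ⟨fun x y z => hE.b _ _ _, fun x y z => hE.h213 _ _ _, fun x y z => hE.h132 _ _ _⟩
      exact main_ext hE1 (fun a b c d e f => hK _ _ _ _ _ _)
  · have a0 : Pool.Agent.W909.K6T.l2 0 0 = 32768 := by decide +kernel
    have a1 : Pool.Agent.W909.K6T.l2 0 1 = 34057 := by decide +kernel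
    have a2 : Pool.Agent.W909.K6T.l2 0 2 = 31889 := by decide +kernel
    have a3 : Pool.Agent.W909.K6T.l2 0 3 = 32799 := by decide +kernel
    have b0 : Pool.Agent.W909.K6T.l2 12 0 = 32768 := by decide +kernel
    have b1 : Pool.Agent.W909.K6T.l2 12 1 = 34840 := by decide +kernel
    have b2 : Pool.Agent.W909.K6T.l2 12 2 = 33524 := by decide +kernel
    have b3 : Pool.Agent.W909.K6T.l2 12 3 = 32753 := by decide +kernel
    rw [sum_range_succ, sum_range_succ, sum_range_succ, sum_range_succ, sum_range_zero,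
      a0, a1, a2, a3, b0, b1, b2, b3]
    norm_num
    nlinarith

end

end Pool.Agent.Q113.Cov.C6
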