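import Pool.Agent.Q113.Cov.Tab

/-! The density of 3-graphs whose covering sets are small. -/

set_option autoImplicit false
set_option linter.unusedSectionVars false
set_option maxRecDepth 100000
open Finset
open Pool.Agent.H122R2.N6 (Sy NoK4 Bt k4b)
open Pool.Agent.Y435.T7 (e3 hC hx)

namespace Pool.Agent.Q113.Cov

noncomputable section

section
variable {V : Type} [Fintype V] {E : V → V → V → ℕ}

/-- the weighted sum of the values at `u` -/
def GG (E : V → V → V → ℕ) (w : V → ℝ) (u : V) : ℝ :=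
  ∑ a, ∑ x, ∑ y, w a * w x * w y * (gT (E u a x) (E u a y) (E u x y) (E a x y) : ℝ)

theorem lt2 (hE : Sy E) (x y z : V) : E x y z < 2 := by
  rcases hE.b x y z with h | h <;> omega

theorem ne4 (hK : NoK4 E) (a b c d : V) : E a b c + E a b d + E a c d + E b c d ≠ 4 := by
  intro h
  have h1 := hK a b c d
  unfold k4b at h1
  rw [← Bool.not_eq_true] at h1
  apply h1
  rw [Nat.beq_eq]
  show E a b c + (E a b d + (E a c d + E b c d)) = 4
  omega

theorem G_lower (hE : Sy E) (hK : NoK4 E) {w : V → ℝ} (hw : w ∈ stdSimplex ℝ V) (u : V) :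
    202587 + 621012 * LL E w u + 252595 * T3 E w w w ≤ 3 * GG E w u := by
  have e1 : GG E w u = ∑ a, ∑ x, ∑ y, w a * w x * w y * (gT (E u a x) (E u x y) (E u a y) (E a x y) : ℝ) := by
    unfold GG
    rw [sum_comm]
    refine sum_congr rfl fun a _ => sum_congr rfl fun x _ => sum_congr rfl fun y _ => ?_
    rw [hE.h132 u a x, hE.h213 a x y]
    ring
  have e2 : GG E w u = ∑ a, ∑ x, ∑ y, w a * w x * w y * (gT (E u x y) (E u a y) (E u a x) (E a x y) : ℝ) := by
    unfold GG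
    have : ∀ F : V → V → V → ℝ, ∑ a, ∑ x, ∑ y, F a x y = ∑ a, ∑ x, ∑ y, F y x a := by
      intro F
      rw [sum_comm]
      have h1 : ∀ x, ∑ a, ∑ y, F a x y = ∑ y, ∑ a, F a x y := fun x => sum_comm
      rw [sum_congr rfl fun x _ => h1 x, sum_comm]
    rw [this]
    refine sum_congr rfl fun a _ => sum_congr rfl fun x _ => sum_congr rfl fun y _ => ?_
    rw [hE.h132 u x y, hE.h132 u a y, hE.h132 u a x]
    have h3 : E y x a = E a x y := by
      rw [hE.h213 x y a, hE.h132 x a y, hE.h213 a x y]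
    rw [h3]
    ring
  have e3' : 3 * GG E w u = ∑ a, ∑ x, ∑ y, w a * w x * w y *
      ((gT (E u a x) (E u a y) (E u x y) (E a x y) + gT (E u a x) (E u x y) (E u a y) (E a x y)
        + gT (E u x y) (E u a y) (E u a x) (E a x y) : ℤ) : ℝ) := by
    have : 3 * GG E w u = ∑ a, ∑ x, ∑ y, w a * w x * w y * (gT (E u a x) (E u a y) (E u x y) (E a x y) : ℝ)
        + ∑ a, ∑ x, ∑ y, w a * w x * w y * (gT (E u a x) (E u x y) (E u a y) (E a x y) : ℝ)
        + ∑ a, ∑ x, ∑ y, w a * w x * w y * (gT (E u x y) (E u a y) (E u a x) (E a x y) : ℝ) := by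
      rw [← e1, ← e2]
      unfold GG
      ring
    rw [this]
    simp only [← sum_add_distrib]
    refine sum_congr rfl fun a _ => sum_congr rfl fun x _ => sum_congr rfl fun y _ => ?_
    push_cast
    ring
  have hs := hw.2
  have l1 : ∑ a, ∑ x, ∑ y, w a * w x * w y * (E u a x : ℝ) = LL E w u := by
    unfold LL
    refine sum_congr rfl fun a _ => sum_congr rfl fun x _ => ?_
    have : ∀ y, w a * w x * w y * (E u a x : ℝ) = w y * (w a * w x * (E u a x : ℝ)) := fun y => by ring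
    rw [sum_congr rfl fun y _ => this y, ← sum_mul, hs, one_mul]
  have l2 : ∑ a, ∑ x, ∑ y, w a * w x * w y * (E u a y : ℝ) = LL E w u := by
    rw [← l1]
    refine sum_congr rfl fun a _ => ?_
    rw [sum_comm]
    refine sum_congr rfl fun x _ => sum_congr rfl fun y _ => ?_
    ring
  have l3 : ∑ a, ∑ x, ∑ y, w a * w x * w y * (E u x y : ℝ) = LL E w u := by
    have : ∀ a, ∑ x, ∑ y, w a * w x * w y * (E u x y : ℝ) = w a * LL E w u := by
      intro a
      unfold LL
      simp only [mul_sum]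
      refine sum_congr rfl fun x _ => sum_congr rfl fun y _ => ?_
      ring
    rw [sum_congr rfl fun a _ => this a, ← sum_mul, hs, one_mul]
  have l4 : ∑ a, ∑ x, ∑ y, w a * w x * w y = (1 : ℝ) := by
    have : ∀ a, ∑ x, ∑ y, w a * w x * w y = w a := by
      intro a
      have h1 : ∀ x, ∑ y, w a * w x * w y = w a * w x := fun x => by rw [← mul_sum, hs, mul_one]
      rw [sum_congr rfl fun x _ => h1 x, ← mul_sum, hs, mul_one]
    rw [sum_congr rfl fun a _ => this a, hs]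
  have e4 : 202587 + 621012 * LL E w u + 252595 * T3 E w w w = ∑ a, ∑ x, ∑ y, w a * w x * w y *
      ((202587 + 207004 * ((E u a x : ℤ) + E u a y + E u x y) + 252595 * (E a x y : ℤ) : ℤ) : ℝ) := by
    have : ∑ a, ∑ x, ∑ y, w a * w x * w y *
      ((202587 + 207004 * ((E u a x : ℤ) + E u a y + E u x y) + 252595 * (E a x y : ℤ) : ℤ) : ℝ)
      = 202587 * (∑ a, ∑ x, ∑ y, w a * w x * w y) + 207004 * (∑ a, ∑ x, ∑ y, w a * w x * w y * (E u a x : ℝ))
        + 207004 * (∑ a, ∑ x, ∑ y, w a * w x * w y * (E u a y : ℝ))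
        + 207004 * (∑ a, ∑ x, ∑ y, w a * w x * w y * (E u x y : ℝ)) + 252595 * T3 E w w w := by
      unfold T3
      simp only [mul_sum, ← sum_add_distrib]
      refine sum_congr rfl fun a _ => sum_congr rfl fun x _ => sum_congr rfl fun y _ => ?_
      push_cast
      ring
    rw [this, l1, l2, l3, l4]
    ring
  rw [e3', e4]
  refine sum_le_sum fun a _ => sum_le_sum fun x _ => sum_le_sum fun y _ => ?_
  refine mul_le_mul_of_nonneg_left ?_ (mul_nonneg (mul_nonneg (hw.1 a) (hw.1 x)) (hw.1 y))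
  have hb := gT_bound (E u a x) (lt2 hE _ _ _) (E u a y) (lt2 hE _ _ _) (E u x y) (lt2 hE _ _ _)
    (E a x y) (lt2 hE _ _ _) (ne4 hK u a x y)
  exact_mod_cast hb

/-- Cauchy–Schwarz for the squares of a type -/
theorem Zb_cs {q : ℕ → ℤ} (hq : ∑ k ∈ range 20, q k ^ 2 = 91624) (w : V → ℝ) (a b c : V) :
    (∑ x, ∑ y, w x * w y * (qv q (hC E a b c x y) : ℝ)) ^ 2 ≤ 91624 * Zb E w a b c := by
  have h1 : ∑ x, ∑ y, w x * w y * (qv q (hC E a b c x y) : ℝ)
      = ∑ k ∈ range 20, (q k : ℝ) * ∑ x, ∑ y, w x * w y * ((e3 (hC E a b c x y) k : ℝ) - 4224) := by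
    unfold qv
    push_cast
    simp only [mul_sum]
    calc ∑ x, ∑ y, ∑ k ∈ range 20, w x * w y * ((q k : ℝ) * ((e3 (hC E a b c x y) k : ℝ) - 4224))
        = ∑ x, ∑ k ∈ range 20, ∑ y, w x * w y * ((q k : ℝ) * ((e3 (hC E a b c x y) k : ℝ) - 4224)) :=
          sum_congr rfl fun x _ => sum_comm
      _ = ∑ k ∈ range 20, ∑ x, ∑ y, w x * w y * ((q k : ℝ) * ((e3 (hC E a b c x y) k : ℝ) - 4224)) := sum_comm
      _ = _ := sum_congr rfl fun k _ => sum_congr rfl fun x _ => sum_congr rfl fun y _ => by ring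
  have h2 : (∑ k ∈ range 20, (q k : ℝ) ^ 2) = 91624 := by exact_mod_cast hq
  rw [h1]
  unfold Zb
  rw [← h2]
  exact Finset.sum_mul_sq_le_sq_mul_sq _ _ _

theorem jensen {w : V → ℝ} (hw : w ∈ stdSimplex ℝ V) (g : V → ℝ) :
    (∑ c, w c * g c) ^ 2 ≤ ∑ c, w c * g c ^ 2 := by
  set m := ∑ c, w c * g c with hm
  have h : 0 ≤ ∑ c, w c * (g c - m) ^ 2 := sum_nonneg fun c _ => mul_nonneg (hw.1 c) (sq_nonneg _)
  have h2 : ∑ c, w c * (g c - m) ^ 2 = ∑ c, w c * g c ^ 2 - m ^ 2 := by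
    have : ∀ c, w c * (g c - m) ^ 2 = w c * g c ^ 2 - 2 * m * (w c * g c) + m ^ 2 * w c := fun c => by ring
    rw [sum_congr rfl fun c _ => this c, sum_add_distrib, sum_sub_distrib, ← mul_sum, ← mul_sum, hw.2, ← hm]
    ring
  linarith

theorem pos_gen {q : ℕ → ℤ} (hq : ∑ k ∈ range 20, q k ^ 2 = 91624) {w : V → ℝ} (hw : w ∈ stdSimplex ℝ V)
    (u : V) (A B C : V → V) (h : ∀ c x y, qv q (hC E (A c) (B c) (C c) x y)
      = gT (E u c x) (E u c y) (E u x y) (E c x y)) :
    GG E w u ^ 2 ≤ 91624 * ∑ c, w c * Zb E w (A c) (B c) (C c) := by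
  have h1 : GG E w u = ∑ c, w c * ∑ x, ∑ y, w x * w y * (qv q (hC E (A c) (B c) (C c) x y) : ℝ) := by
    unfold GG
    refine sum_congr rfl fun c _ => ?_
    simp only [mul_sum]
    refine sum_congr rfl fun x _ => sum_congr rfl fun y _ => ?_
    rw [h]
    ring
  rw [h1, mul_sum]
  refine (jensen hw _).trans (sum_le_sum fun c _ => ?_)
  have := mul_le_mul_of_nonneg_left (Zb_cs (E := E) hq w (A c) (B c) (C c)) (hw.1 c)
  linarith

theorem pos1 (hE : Sy E) (hK : NoK4 E) (hz : ∀ x y, E x x y = 0) {w : V → ℝ} (hw : w ∈ stdSimplex ℝ V) (u : V) :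
    GG E w u ^ 2 ≤ 91624 * ∑ c, w c * Zb E w u u c := by
  refine pos_gen qn1 hw u (fun _ => u) (fun _ => u) (fun c => c) fun c x y => ?_
  have h := tabs1 (E u c x) (lt2 hE _ _ _) (E u c y) (lt2 hE _ _ _) (E u x y) (lt2 hE _ _ _)
    (E c x y) (lt2 hE _ _ _) (ne4 hK u c x y)
  rw [← h]
  unfold hC
  rw [hz u c, hz u x, hz u y]

theorem pos2 (hE : Sy E) (hK : NoK4 E) (hz : ∀ x y, E x x y = 0) {w : V → ℝ} (hw : w ∈ stdSimplex ℝ V) (u : V) :
    GG E w u ^ 2 ≤ 91624 * ∑ c, w c * Zb E w u c u := by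
  refine pos_gen qn2 hw u (fun _ => u) (fun c => c) (fun _ => u) fun c x y => ?_
  have h := tabs2 (E u c x) (lt2 hE _ _ _) (E u c y) (lt2 hE _ _ _) (E u x y) (lt2 hE _ _ _)
    (E c x y) (lt2 hE _ _ _) (ne4 hK u c x y)
  rw [← h]
  unfold hC
  rw [hz u x, hz u y, hE.h132 u u c, hz u c, hE.h213 u c x, hE.h213 u c y]

theorem pos3 (hE : Sy E) (hK : NoK4 E) (hz : ∀ x y, E x x y = 0) {w : V → ℝ} (hw : w ∈ stdSimplex ℝ V) (u : V) :
    GG E w u ^ 2 ≤ 91624 * ∑ c, w c * Zb E w c u u := by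
  refine pos_gen qn3 hw u (fun c => c) (fun _ => u) (fun _ => u) fun c x y => ?_
  have h := tabs3 (E u c x) (lt2 hE _ _ _) (E u c y) (lt2 hE _ _ _) (E u x y) (lt2 hE _ _ _)
    (E c x y) (lt2 hE _ _ _) (ne4 hK u c x y)
  rw [← h]
  unfold hC
  have h0 : E c u u = 0 := by rw [hE.h213 u c u, hE.h132 u u c, hz]
  rw [hz u x, hz u y, h0, hE.h213 u c x, hE.h213 u c y]

theorem Zb_diag (hE : Sy E) (hz : ∀ x y, E x x y = 0) {w : V → ℝ} (hw : w ∈ stdSimplex ℝ V) (u : V) :
    Zb E w u u u = 1763532 * (1 - LL E w u) ^ 2 - 405694 * ((1 - LL E w u) * LL E w u)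
      + 2634405 * LL E w u ^ 2 := by
  set L := LL E w u with hL
  have h1 : ∀ k ∈ range 20, ∑ x, ∑ y, w x * w y * ((e3 (hC E u u u x y) k : ℝ) - 4224)
      = (1 - L) * (v0 k : ℝ) + L * (v1 k : ℝ) := by
    intro k hk
    have hk' := mem_range.mp hk
    have h2 : ∀ x y, w x * w y * ((e3 (hC E u u u x y) k : ℝ) - 4224)
        = w x * w y * (v0 k : ℝ) + w x * w y * (E u x y : ℝ) * ((v1 k : ℝ) - v0 k) := by
      intro x y
      have hh : hC E u u u x y = hx 0 0 0 0 0 0 0 (E u x y) (E u x y) (E u x y) := by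
        unfold hC
        rw [hz u x, hz u y, hz u u]
      rw [hh]
      rcases hE.b u x y with h | h
      · rw [h]
        have := (tab0 k hk').1
        have h' : (e3 (hx 0 0 0 0 0 0 0 0 0 0) k : ℝ) - 4224 = (v0 k : ℝ) := by exact_mod_cast this
        rw [h']
        simp
      · rw [h]
        have := (tab0 k hk').2
        have h' : (e3 (hx 0 0 0 0 0 0 0 1 1 1) k : ℝ) - 4224 = (v1 k : ℝ) := by exact_mod_cast this
        rw [h']
        simp
        ring
    have s1 : ∑ x, ∑ y, w x * w y * (v0 k : ℝ) = v0 k := by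
      have : ∀ x, ∑ y, w x * w y * (v0 k : ℝ) = w x * v0 k := fun x => by
        rw [← sum_mul, ← mul_sum, hw.2, mul_one]
      rw [sum_congr rfl fun x _ => this x, ← sum_mul, hw.2, one_mul]
    have s2 : ∑ x, ∑ y, w x * w y * (E u x y : ℝ) * ((v1 k : ℝ) - v0 k) = L * ((v1 k : ℝ) - v0 k) := by
      rw [hL]
      unfold LL
      simp only [sum_mul]
    rw [sum_congr rfl fun x _ => sum_congr rfl fun y _ => h2 x y]
    simp only [sum_add_distrib]
    rw [s1, s2]
    ring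
  unfold Zb
  rw [sum_congr rfl fun k hk => by rw [h1 k hk]]
  have a0 : ∑ k ∈ range 20, v0 k ^ 2 = 1763532 := by decide +kernel
  have a1 : ∑ k ∈ range 20, v0 k * v1 k = -202847 := by decide +kernel
  have a2 : ∑ k ∈ range 20, v1 k ^ 2 = 2634405 := by decide +kernel
  have b0 : ∑ k ∈ range 20, (v0 k : ℝ) ^ 2 = 1763532 := by exact_mod_cast a0
  have b1 : ∑ k ∈ range 20, (v0 k : ℝ) * v1 k = -202847 := by exact_mod_cast a1
  have b2 : ∑ k ∈ range 20, (v1 k : ℝ) ^ 2 = 2634405 := by exact_mod_cast a2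
  have : ∀ k, ((1 - L) * (v0 k : ℝ) + L * (v1 k : ℝ)) ^ 2 = (1 - L) ^ 2 * (v0 k : ℝ) ^ 2
      + 2 * (1 - L) * L * ((v0 k : ℝ) * v1 k) + L ^ 2 * (v1 k : ℝ) ^ 2 := fun k => by ring
  simp only [this, sum_add_distrib, ← mul_sum]
  rw [b0, b1, b2]
  ring

theorem Zb_nonneg (w : V → ℝ) (a b c : V) : 0 ≤ Zb E w a b c := sum_nonneg fun _ _ => sq_nonneg _

variable [DecidableEq V]

theorem coincide (w : V → ℝ) (hw : ∀ v, 0 ≤ w v) (Z : V → V → V → ℝ) (hZ : ∀ a b c, 0 ≤ Z a b c) :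
    ∑ u, w u ^ 2 * (∑ c, w c * Z u u c + ∑ c, w c * Z u c u + ∑ c, w c * Z c u u)
      - 2 * ∑ u, w u ^ 3 * Z u u u ≤ ∑ a, ∑ b, ∑ c, w a * w b * w c * Z a b c := by
  have h1 : ∑ a, ∑ b, ∑ c, (if a = b then w a * w b * w c * Z a b c else 0)
      = ∑ u, w u ^ 2 * ∑ c, w c * Z u u c := by
    refine sum_congr rfl fun a _ => ?_
    rw [mul_sum, sum_comm]
    refine sum_congr rfl fun c _ => ?_
    rw [sum_ite_eq, if_pos (mem_univ _)]
    ring
  have h2 : ∑ a, ∑ b, ∑ c, (if a = c then w a * w b * w c * Z a b c else 0)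
      = ∑ u, w u ^ 2 * ∑ c, w c * Z u c u := by
    refine sum_congr rfl fun a _ => ?_
    rw [mul_sum]
    refine sum_congr rfl fun b _ => ?_
    rw [sum_ite_eq, if_pos (mem_univ _)]
    ring
  have h3 : ∑ a, ∑ b, ∑ c, (if b = c then w a * w b * w c * Z a b c else 0)
      = ∑ u, w u ^ 2 * ∑ c, w c * Z c u u := by
    have e : ∑ a, ∑ b, ∑ c, (if b = c then w a * w b * w c * Z a b c else 0)
        = ∑ a, ∑ b, w a * w b * w b * Z a b b :=
      sum_congr rfl fun a _ => sum_congr rfl fun b _ => by rw [sum_ite_eq, if_pos (mem_univ _)]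
    rw [e, sum_comm]
    refine sum_congr rfl fun b _ => ?_
    rw [mul_sum]
    refine sum_congr rfl fun a _ => ?_
    ring
  have h4 : ∑ a, ∑ b, ∑ c, (if a = b ∧ b = c then w a * w b * w c * Z a b c else 0)
      = ∑ u, w u ^ 3 * Z u u u := by
    refine sum_congr rfl fun a _ => ?_
    rw [sum_eq_single a, sum_eq_single a]
    · rw [if_pos ⟨rfl, rfl⟩]; ring
    · intro c _ hc
      rw [if_neg fun h => hc h.2.symm]
    · intro h; exact absurd (mem_univ _) h
    · intro b _ hb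
      refine sum_eq_zero fun c _ => ?_
      rw [if_neg fun h => hb h.1.symm]
    · intro h; exact absurd (mem_univ _) h
  have e : ∑ u, w u ^ 2 * (∑ c, w c * Z u u c + ∑ c, w c * Z u c u + ∑ c, w c * Z c u u)
      - 2 * ∑ u, w u ^ 3 * Z u u u
      = ∑ a, ∑ b, ∑ c, ((if a = b then w a * w b * w c * Z a b c else 0)
        + (if a = c then w a * w b * w c * Z a b c else 0) + (if b = c then w a * w b * w c * Z a b c else 0)
        - 2 * (if a = b ∧ b = c then w a * w b * w c * Z a b c else 0)) := by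
    simp only [mul_add, sum_add_distrib, sum_sub_distrib, ← mul_sum]
    rw [h1, h2, h3, h4]
  rw [e]
  refine sum_le_sum fun a _ => sum_le_sum fun b _ => sum_le_sum fun c _ => ?_
  have hp : 0 ≤ w a * w b * w c * Z a b c := mul_nonneg (mul_nonneg (mul_nonneg (hw a) (hw b)) (hw c)) (hZ a b c)
  by_cases hab : a = b
  · by_cases hbc : b = c
    · have hac : a = c := hab.trans hbc
      rw [if_pos hab, if_pos hac, if_pos hbc, if_pos ⟨hab, hbc⟩]
      linarith
    · have hac : a ≠ c := fun h => hbc (hab.symm.trans h)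
      rw [if_pos hab, if_neg hac, if_neg hbc, if_neg fun h => hbc h.2]
      linarith
  · by_cases hbc : b = c
    · have hac : a ≠ c := fun h => hab (h.trans hbc.symm)
      rw [if_neg hab, if_neg hac, if_pos hbc, if_neg fun h => hab h.1]
      linarith
    · by_cases hac : a = c
      · rw [if_neg hab, if_pos hac, if_neg hbc, if_neg fun h => hab h.1]
        linarith
      · rw [if_neg hab, if_neg hac, if_neg hbc, if_neg fun h => hab h.1]
        linarith

end

end

end Pool.Agent.Q113.Cov
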