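import Pool.Agent.Q113.Cov.Ext5
import Pool.Agent.Q113.Cov.Ext6
import Pool.Agent.H37R3.K5.Free
import Pool.Agent.W843.K6.Free

/-! Weighted counting for `K_5^3` and `K_6^3`. -/

set_option autoImplicit false
open Finset
open scoped Classical
open Pool.Agent.H122R2.N6

namespace Pool.Agent.Q113.Cov.W56

noncomputable section

theorem exists_edge {V : Type} {H : Finset (Finset V)} {a b c : V} (h : tri H a b c = 1) :
    ∃ e ∈ H, a ∈ e ∧ b ∈ e ∧ ∀ t ∈ e, t = a ∨ t = b ∨ t = c := by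
  unfold tri at h
  by_cases hm : ({a, b, c} : Finset V) ∈ H
  · refine ⟨_, hm, by simp, by simp, fun t ht => ?_⟩
    simpa using ht
  · rw [if_neg hm] at h
    exact absurd h (by norm_num)

theorem six_weight_le {V : Type} [Fintype V] {H : Finset (Finset V)} (hH : ∀ e ∈ H, e.card = 3)
    {w : V → ℝ} (hw : ∀ v, 0 ≤ w v) : 6 * ∑ e ∈ H, ∏ v ∈ e, w v ≤ T3 (tri H) w w w := by
  set T : Finset (V × V × V) := univ.filter fun t => ({t.1, t.2.1, t.2.2} : Finset V) ∈ H with hT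
  have e : T3 (tri H) w w w = ∑ t ∈ T, w t.1 * w t.2.1 * w t.2.2 := by
    rw [hT, sum_filter, Fintype.sum_prod_type]
    unfold T3
    refine sum_congr rfl fun a _ => ?_
    rw [Fintype.sum_prod_type]
    refine sum_congr rfl fun b _ => sum_congr rfl fun c _ => ?_
    unfold tri
    by_cases h : ({a, b, c} : Finset V) ∈ H
    · rw [if_pos h, if_pos h]; simp
    · rw [if_neg h, if_neg h]; simp
  have hfw := sum_fiberwise_of_maps_to (s := T) (t := H)
    (g := fun t : V × V × V => ({t.1, t.2.1, t.2.2} : Finset V))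
    (fun t ht => (mem_filter.mp ht).2) (fun t => w t.1 * w t.2.1 * w t.2.2)
  rw [e, ← hfw, mul_sum]
  refine sum_le_sum fun s hs => ?_
  obtain ⟨x, y, z, hxy, hxz, hyz, rfl⟩ := Finset.card_eq_three.mp (hH s hs)
  have hprod : ∏ v ∈ ({x, y, z} : Finset V), w v = w x * w y * w z := by
    rw [prod_insert (by simp [hxy, hxz]), prod_insert (by simp [hyz]), prod_singleton]
    ring
  rw [hprod]
  set U : Finset (V × V × V) := {(x, y, z), (x, z, y), (y, x, z), (y, z, x), (z, x, y), (z, y, x)} with hU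
  have hsub : U ⊆ T.filter (fun t : V × V × V => ({t.1, t.2.1, t.2.2} : Finset V) = {x, y, z}) := by
    have key : ∀ u v t : V, ({u, v, t} : Finset V) = {x, y, z} →
        (u, v, t) ∈ T.filter (fun t : V × V × V => ({t.1, t.2.1, t.2.2} : Finset V) = {x, y, z}) := by
      intro u v t h
      have hm : ({u, v, t} : Finset V) ∈ H := by rw [h]; exact hs
      rw [mem_filter, hT, mem_filter]
      exact ⟨⟨mem_univ _, hm⟩, h⟩
    intro t ht
    rw [hU] at ht
    simp only [mem_insert, mem_singleton] at ht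
    rcases ht with rfl | rfl | rfl | rfl | rfl | rfl
    · exact key _ _ _ rfl
    · exact key _ _ _ (by ext t; simp; tauto)
    · exact key _ _ _ (by ext t; simp; tauto)
    · exact key _ _ _ (by ext t; simp; tauto)
    · exact key _ _ _ (by ext t; simp; tauto)
    · exact key _ _ _ (by ext t; simp; tauto)
  refine le_trans (le_of_eq ?_) (sum_le_sum_of_subset_of_nonneg hsub fun t _ _ =>
    mul_nonneg (mul_nonneg (hw _) (hw _)) (hw _))
  rw [hU, sum_insert, sum_insert, sum_insert, sum_insert, sum_insert, sum_singleton]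
  · ring
  all_goals simp [hxy, hxz, hyz, hxy.symm, hxz.symm, hyz.symm]

/-- Any two vertices of `S` lie in an edge of `H` all of whose vertices belong to `S`. -/
def Cv {V : Type} (H : Finset (Finset V)) (S : Finset V) : Prop :=
  ∀ x ∈ S, ∀ y ∈ S, x ≠ y → ∃ e ∈ H, x ∈ e ∧ y ∈ e ∧ e ⊆ S

/-- from weights with sum one to all weights -/
theorem scale {V : Type} [Fintype V] {H : Finset (Finset V)} (h3 : ∀ e ∈ H, e.card = 3) {t : ℝ}
    (hd : ∀ w ∈ stdSimplex ℝ V, T3 (tri H) w w w ≤ t) {w : V → ℝ} (hw : ∀ v, 0 ≤ w v) :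
    6 * ∑ e ∈ H, ∏ v ∈ e, w v ≤ t * (∑ v, w v) ^ 3 := by
  have hs0 : 0 ≤ ∑ v, w v := sum_nonneg fun v _ => hw v
  rcases hs0.eq_or_lt with hs | hs
  · have hz : ∀ v, w v = 0 := fun v =>
      (sum_eq_zero_iff_of_nonneg fun v _ => hw v).mp hs.symm v (mem_univ v)
    have h0 : ∑ e ∈ H, ∏ v ∈ e, w v = 0 := by
      refine sum_eq_zero fun e he => ?_
      obtain ⟨x, hx⟩ := card_pos.mp (by rw [h3 e he]; norm_num : 0 < e.card)
      exact prod_eq_zero hx (hz x)
    rw [h0, ← hs]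
    norm_num
  · set s := ∑ v, w v with hsd
    have hw' : (fun v => w v / s) ∈ stdSimplex ℝ V := by
      refine ⟨fun v => div_nonneg (hw v) hs.le, ?_⟩
      show ∑ v, w v / s = 1
      rw [← sum_div, ← hsd, div_self hs.ne']
    have h6 := six_weight_le (w := fun v => w v / s) h3 (fun v => div_nonneg (hw v) hs.le)
    have hscale : ∑ e ∈ H, ∏ v ∈ e, w v / s = (∑ e ∈ H, ∏ v ∈ e, w v) / s ^ 3 := by
      rw [sum_div]
      refine sum_congr rfl fun e he => ?_
      rw [prod_div_distrib, prod_const, h3 e he]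
    rw [hscale] at h6
    have hs3 : 0 < s ^ 3 := by positivity
    have hmul : (∑ e ∈ H, ∏ v ∈ e, w v) = (∑ e ∈ H, ∏ v ∈ e, w v) / s ^ 3 * s ^ 3 := by
      field_simp
    rw [hmul]
    have := mul_le_mul_of_nonneg_right (h6.trans (hd _ hw')) hs3.le
    linarith

theorem cov_of {V : Type} {H : Finset (Finset V)} {k : ℕ} (hc : ∀ S, Cv H S → S.card ≤ k)
    (S : Finset V) (hS : ∀ u ∈ S, ∀ v ∈ S, u ≠ v → ∃ x ∈ S, tri H u v x = 1) : S.card ≤ k :=
  hc S fun x hx y hy hxy => by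
    obtain ⟨z, hz, h1⟩ := hS x hx y hy hxy
    obtain ⟨e, he, hxe, hye, h4⟩ := exists_edge h1
    refine ⟨e, he, hxe, hye, fun t ht => ?_⟩
    rcases h4 t ht with rfl | rfl | rfl
    exacts [hx, hy, hz]

theorem bound5 {V : Type} [Fintype V] {H : Finset (Finset V)} (h3 : ∀ e ∈ H, e.card = 3)
    (hK : Pool.Agent.H37R3.K5.K53Free H) (hc : ∀ S, Cv H S → S.card ≤ 52)
    {w : V → ℝ} (hw : ∀ v, 0 ≤ w v) : 6 * ∑ e ∈ H, ∏ v ∈ e, w v ≤ 3 / 4 * (∑ v, w v) ^ 3 := by
  refine scale h3 (fun w hw => ?_) hw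
  have : Nonempty V := by
    by_contra hcon
    rw [not_nonempty_iff] at hcon
    have := hw.2
    simp at this
  exact Pool.Agent.Q113.Cov.C5.dens5 (tri_sy H) (fun x y => tri_zero h3 (Or.inl rfl))
    (Pool.Agent.H37R3.K5.tri_noK5 h3 hK) (fun S hS => cov_of hc S hS) hw

theorem bound6 {V : Type} [Fintype V] {H : Finset (Finset V)} (h3 : ∀ e ∈ H, e.card = 3)
    (hK : Pool.Agent.W843.K6.K63Free H) (hc : ∀ S, Cv H S → S.card ≤ 85)
    {w : V → ℝ} (hw : ∀ v, 0 ≤ w v) : 6 * ∑ e ∈ H, ∏ v ∈ e, w v ≤ 21 / 25 * (∑ v, w v) ^ 3 := by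
  refine scale h3 (fun w hw => ?_) hw
  have : Nonempty V := by
    by_contra hcon
    rw [not_nonempty_iff] at hcon
    have := hw.2
    simp at this
  exact Pool.Agent.Q113.Cov.C6.dens6 (tri_sy H) (fun x y => tri_zero h3 (Or.inl rfl))
    (Pool.Agent.W843.K6.tri_noK6 h3 hK) (fun S hS => cov_of hc S hS) hw

end

end Pool.Agent.Q113.Cov.W56
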