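import Pool.Agent.Q113.Cov.Main

/-! The density of `K_4^3`-free 3-graphs with a large strongly independent set. -/

set_option autoImplicit false
set_option linter.unusedSectionVars false
set_option maxRecDepth 100000
open Finset
open Pool.Agent.H122R2.N6 (Sy NoK4 Bt k4b)
open Pool.Agent.Y435.T7 (e3 hC hx)

namespace Pool.Agent.Q113.Cov

noncomputable section

section
variable {V : Type} [Fintype V] [DecidableEq V] {E : V → V → V → ℕ}

/-- weights with sum one, at least `β` of it on `U` -/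
def KU (U : Finset V) (β : ℝ) : Set (V → ℝ) := {w | w ∈ stdSimplex ℝ V ∧ β ≤ ∑ u ∈ U, w u}

theorem KU_compact (U : Finset V) (β : ℝ) : IsCompact (KU U β) := by
  have h : KU U β = stdSimplex ℝ V ∩ {w | β ≤ ∑ u ∈ U, w u} := rfl
  rw [h]
  exact (isCompact_stdSimplex ℝ V).inter_right (isClosed_le continuous_const (by fun_prop))

theorem exists_minK {K : Set (V → ℝ)} (hc : IsCompact K) (hne : K.Nonempty) :
    ∃ w ∈ K, (∀ w' ∈ K, T3 E w' w' w' ≤ T3 E w w w) ∧
    ∀ w' ∈ K, T3 E w' w' w' = T3 E w w w → (sp w).card ≤ (sp w').card := by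
  obtain ⟨w0, hw0, hmax⟩ := hc.exists_isMaxOn hne (T3_cont (E := E)).continuousOn
  set M : Set (V → ℝ) := {w | w ∈ K ∧ T3 E w w w = T3 E w0 w0 w0} with hM
  have hne : ((fun w => (sp w).card) '' M).Nonempty := ⟨_, w0, ⟨hw0, rfl⟩, rfl⟩
  obtain ⟨w, hwM, hwc⟩ := Nat.sInf_mem hne
  refine ⟨w, hwM.1, fun w' hw' => ?_, fun w' hw' h => ?_⟩
  · rw [hwM.2]
    exact hmax hw'
  · have : sInf ((fun w => (sp w).card) '' M) ≤ (sp w').card :=
      Nat.sInf_le ⟨w', ⟨hw', h.trans hwM.2⟩, rfl⟩
    exact (le_of_eq hwc).trans this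

theorem le_of_max (h : SE E) {K : Set (V → ℝ)} {w : V → ℝ} (hw0 : ∀ v, 0 ≤ w v)
    (hmax : ∀ w' ∈ K, T3 E w' w' w' ≤ T3 E w w w) {u v : V} {s : ℝ} (hs : 0 < s)
    (hmem : ∀ t, 0 ≤ t → t ≤ s → (fun x => w x + t * dd u v x) ∈ K) : LL E w u ≤ LL E w v := by
  by_contra hcon
  push Not at hcon
  set D := LL E w u - LL E w v with hD
  have hD0 : 0 < D := by rw [hD]; linarith
  set c := CC E w u v with hc
  have hc0 : 0 ≤ c := sum_nonneg fun c _ => mul_nonneg (hw0 c) (Nat.cast_nonneg _)
  set t := min s (D / (4 * (c + 1))) with ht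
  have hq : 0 < D / (4 * (c + 1)) := by positivity
  have ht0 : 0 < t := lt_min hs hq
  have h1 := hmax _ (hmem t ht0.le (min_le_left _ _))
  rw [T3_move h] at h1
  have h2 : t ≤ D / (4 * (c + 1)) := min_le_right _ _
  rw [le_div_iff₀ (by positivity)] at h2
  rw [← hD, ← hc] at h1
  nlinarith [mul_nonneg ht0.le hc0]

theorem sum_move (U : Finset V) (w : V → ℝ) (u v : V) (t : ℝ) :
    ∑ x ∈ U, (w x + t * dd u v x)
      = ∑ x ∈ U, w x + t * ((if u ∈ U then 1 else 0) - (if v ∈ U then 1 else 0)) := by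
  unfold dd
  rw [sum_add_distrib, ← mul_sum, sum_sub_distrib, sum_ite_eq', sum_ite_eq']

theorem coincide1 (w : V → ℝ) (hw : ∀ v, 0 ≤ w v) (Z : V → V → V → ℝ) (hZ : ∀ a b c, 0 ≤ Z a b c) (u : V) :
    w u ^ 2 * (∑ c, w c * Z u u c + ∑ c, w c * Z u c u + ∑ c, w c * Z c u u)
      - 2 * (w u ^ 3 * Z u u u) ≤ ∑ a, ∑ b, ∑ c, w a * w b * w c * Z a b c := by
  set Z' : V → V → V → ℝ := fun a b c =>
    if (a = u ∧ b = u) ∨ (a = u ∧ c = u) ∨ (b = u ∧ c = u) then Z a b c else 0 with hZ'
  have hZ0 : ∀ a b c, 0 ≤ Z' a b c := by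
    intro a b c
    simp only [hZ']
    split_ifs
    exacts [hZ a b c, le_rfl]
  have hZle : ∀ a b c, Z' a b c ≤ Z a b c := by
    intro a b c
    simp only [hZ']
    split_ifs
    exacts [le_rfl, hZ a b c]
  have h := coincide w hw Z' hZ0
  have e1 : ∀ c, Z' u u c = Z u u c := fun c => by simp [hZ']
  have e2 : ∀ c, Z' u c u = Z u c u := fun c => by simp [hZ']
  have e3 : ∀ c, Z' c u u = Z c u u := fun c => by simp [hZ']
  have f1 : ∀ v, v ≠ u → ∀ c, Z' v v c = 0 := fun v hv c => by simp [hZ', hv]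
  have f2 : ∀ v, v ≠ u → ∀ c, Z' v c v = 0 := fun v hv c => by simp [hZ', hv]
  have f3 : ∀ v, v ≠ u → ∀ c, Z' c v v = 0 := fun v hv c => by simp [hZ', hv]
  have g1 : ∑ v, w v ^ 2 * (∑ c, w c * Z' v v c + ∑ c, w c * Z' v c v + ∑ c, w c * Z' c v v)
      = w u ^ 2 * (∑ c, w c * Z u u c + ∑ c, w c * Z u c u + ∑ c, w c * Z c u u) := by
    rw [sum_eq_single u]
    · simp only [e1, e2, e3]
    · intro v _ hv
      simp only [f1 v hv, f2 v hv, f3 v hv]
      simp
    · intro h; exact absurd (mem_univ _) h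
  have g2 : ∑ v, w v ^ 3 * Z' v v v = w u ^ 3 * Z u u u := by
    rw [sum_eq_single u]
    · rw [e1]
    · intro v _ hv
      rw [f1 v hv]; ring
    · intro h; exact absurd (mem_univ _) h
  rw [g1, g2] at h
  refine h.trans (sum_le_sum fun a _ => sum_le_sum fun b _ => sum_le_sum fun c _ => ?_)
  exact mul_le_mul_of_nonneg_left (hZle a b c) (mul_nonneg (mul_nonneg (hw a) (hw b)) (hw c))

/-- the published part of the certificate, for weights of any sum -/
theorem T3_le (hE : Sy E) (hK : NoK4 E) {w : V → ℝ} (hw : ∀ v, 0 ≤ w v) (hs : 0 < ∑ v, w v) :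
    T3 E w w w ≤ 0.557554 * (∑ v, w v) ^ 3 := by
  set s := ∑ v, w v with hsd
  have hw' : (fun v => w v / s) ∈ stdSimplex ℝ V := by
    refine ⟨fun v => div_nonneg (hw v) hs.le, ?_⟩
    show ∑ v, w v / s = 1
    rw [← sum_div, ← hsd, div_self hs.ne']
  have h1 := main_real hE hK hw'
  have hA : 0 ≤ ∑ a, ∑ b, ∑ c, w a / s * (w b / s) * (w c / s) * Zb E (fun v => w v / s) a b c :=
    sum_nonneg fun a _ => sum_nonneg fun b _ => sum_nonneg fun c _ =>
      mul_nonneg (mul_nonneg (mul_nonneg (div_nonneg (hw a) hs.le) (div_nonneg (hw b) hs.le))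
        (div_nonneg (hw c) hs.le)) (sum_nonneg fun _ _ => sq_nonneg _)
  have h2 : T3 E (fun v => w v / s) (fun v => w v / s) (fun v => w v / s) = T3 E w w w / s ^ 3 := by
    unfold T3
    simp only [sum_div]
    refine sum_congr rfl fun a _ => sum_congr rfl fun b _ => sum_congr rfl fun c _ => ?_
    field_simp
  rw [h2] at h1
  set d := T3 E w w w / s ^ 3 with hd
  have h3 : d ≤ 0.557554 := by
    by_contra hcon
    push Not at hcon
    nlinarith
  have h4 : T3 E w w w = d * s ^ 3 := by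
    rw [hd]
    field_simp
  rw [h4]
  exact mul_le_mul_of_nonneg_right h3 (by positivity)

/-- part of the weight of one vertex is removed -/
theorem T3_sub (h : SE E) (w : V → ℝ) (u : V) (t : ℝ) :
    T3 E (fun x => w x + t * (if x = u then 1 else 0)) (fun x => w x + t * (if x = u then 1 else 0))
      (fun x => w x + t * (if x = u then 1 else 0)) = T3 E w w w + 3 * t * LL E w u := by
  have h1 : T3 E (fun x => if x = u then (1 : ℝ) else 0) w w = LL E w u := by
    unfold T3 LL
    have : ∀ a, ∑ b, ∑ c, (if a = u then (1 : ℝ) else 0) * w b * w c * (E a b c : ℝ)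
        = if a = u then ∑ b, ∑ c, w b * w c * (E a b c : ℝ) else 0 := by
      intro a
      split_ifs with ha
      · refine sum_congr rfl fun b _ => sum_congr rfl fun c _ => ?_
        ring
      · refine sum_eq_zero fun b _ => sum_eq_zero fun c _ => ?_
        ring
    rw [sum_congr rfl fun a _ => this a, sum_ite_eq', if_pos (mem_univ _)]
  have h2 : T3 E (fun x => if x = u then (1 : ℝ) else 0) (fun x => if x = u then (1 : ℝ) else 0) w = 0 := by
    unfold T3
    refine sum_eq_zero fun a _ => sum_eq_zero fun b _ => sum_eq_zero fun c _ => ?_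
    by_cases ha : a = u
    · by_cases hb : b = u
      · rw [ha, hb, h.z]; simp
      · simp [hb]
    · simp [ha]
  have h3 : T3 E (fun x => if x = u then (1 : ℝ) else 0) (fun x => if x = u then (1 : ℝ) else 0)
      (fun x => if x = u then (1 : ℝ) else 0) = 0 := by
    unfold T3
    refine sum_eq_zero fun a _ => sum_eq_zero fun b _ => sum_eq_zero fun c _ => ?_
    by_cases ha : a = u
    · by_cases hb : b = u
      · rw [ha, hb, h.z]; simp
      · simp [hb]
    · simp [ha]
  rw [T3_expand h, h1, h2, h3]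
  ring

theorem fin_contra {d A : ℝ} (h : 335504400 * d + 444360 * d ^ 2 + 105 * A ≤ 187199897) (hA : 6540 ≤ A)
    (hd : 5 / 9 - 1 / 25000 < d) : False := by nlinarith

theorem indep_dens (hE : Sy E) (hK : NoK4 E) (hz : ∀ x y, E x x y = 0) (U : Finset V)
    (hU : ∀ u ∈ U, ∀ v ∈ U, ∀ x, E u v x = 0) {w : V → ℝ} (hw : w ∈ stdSimplex ℝ V)
    (hwU : 1 / 15 ≤ ∑ u ∈ U, w u) : T3 E w w w ≤ 5 / 9 - 1 / 25000 := by
  have hSE : SE E := ⟨hE.b, hE.h213, hE.h132, hz⟩
  obtain ⟨m, hmK, hmax, hmin⟩ := exists_minK (E := E) (KU_compact U (1 / 15)) ⟨w, hw, hwU⟩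
  obtain ⟨hm, hmU⟩ := hmK
  refine (hmax w ⟨hw, hwU⟩).trans ?_
  set d := T3 E m m m with hd
  have hpos : ∀ u, m u ≠ 0 → 0 < m u := fun u hu => lt_of_le_of_ne (hm.1 u) (Ne.symm hu)
  -- one vertex of `U` in the support
  have hone : ∀ u ∈ U, ∀ v ∈ U, m u ≠ 0 → m v ≠ 0 → u = v := by
    intro u huU v hvU hu hv
    by_contra huv
    have hmem : ∀ (a b : V), a ∈ U → b ∈ U → a ≠ b → ∀ t, -m a ≤ t → t ≤ m b →
        (fun x => m x + t * dd a b x) ∈ KU U (1 / 15) := by
      intro a b ha hb hab t h1 h2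
      refine ⟨move_mem hm hab h1 h2, ?_⟩
      rw [sum_move, if_pos ha, if_pos hb, sub_self, mul_zero, add_zero]
      exact hmU
    have hle : ∀ a b, a ∈ U → b ∈ U → a ≠ b → m b ≠ 0 → LL E m a ≤ LL E m b := by
      intro a b ha hb hab hmb
      exact le_of_max hSE hm.1 hmax (hpos b hmb) fun t h1 h2 =>
        hmem a b ha hb hab t (by linarith [hm.1 a]) h2
    have heq : LL E m u = LL E m v :=
      le_antisymm (hle u v huU hvU huv hv) (hle v u hvU huU (Ne.symm huv) hu)
    have hc : CC E m u v = 0 := by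
      unfold CC
      refine sum_eq_zero fun c _ => ?_
      rw [hU u huU v hvU c]; simp
    have hT := T3_move hSE m u v (m v)
    rw [hc, heq, sub_self, mul_zero, mul_zero, add_zero, sub_zero] at hT
    have hcard := hmin _ (hmem u v huU hvU huv (m v) (by linarith [hpos u hu, hpos v hv]) le_rfl) hT
    have hlt : sp (fun x => m x + m v * dd u v x) ⊂ sp m := by
      refine (Finset.ssubset_iff_of_subset ?_).mpr ⟨v, ?_, ?_⟩
      · intro x hx
        unfold sp at hx ⊢
        rw [mem_filter] at hx ⊢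
        refine ⟨mem_univ _, fun h0 => hx.2 ?_⟩
        have hxu : x ≠ u := fun e => hu (e ▸ h0)
        have hxv : x ≠ v := fun e => hv (e ▸ h0)
        show m x + m v * dd u v x = 0
        unfold dd
        rw [if_neg hxu, if_neg hxv, h0]
        ring
      · unfold sp
        rw [mem_filter]
        exact ⟨mem_univ _, hv⟩
      · unfold sp
        rw [mem_filter]
        rintro ⟨-, h0⟩
        apply h0
        show m v + m v * dd u v v = 0
        unfold dd
        rw [if_neg (Ne.symm huv), if_pos rfl]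
        ring
    have := card_lt_card hlt
    omega
  obtain ⟨u, huU, hu⟩ : ∃ u ∈ U, m u ≠ 0 := by
    by_contra hcon
    push Not at hcon
    rw [sum_eq_zero hcon] at hmU
    norm_num at hmU
  have hsumU : ∑ x ∈ U, m x = m u := by
    rw [sum_eq_single_of_mem u huU]
    intro v hv hvu
    by_contra hne
    exact hvu (hone v hv u huU hne hu)
  set y := m u with hy
  rw [hsumU] at hmU
  set L := LL E m u with hL
  by_contra hcon
  push Not at hcon
  have hmain := main_real hE hK hm
  have hco := coincide1 m hm.1 (Zb E m) (fun a b c => Zb_nonneg m a b c) u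
  set A := ∑ a, ∑ b, ∑ c, m a * m b * m c * Zb E m a b c with hA
  have hA0 : 0 ≤ A := sum_nonneg fun a _ => sum_nonneg fun b _ => sum_nonneg fun c _ =>
    mul_nonneg (mul_nonneg (mul_nonneg (hm.1 a) (hm.1 b)) (hm.1 c)) (Zb_nonneg m a b c)
  rw [← hd] at hmain
  have hd2 : d ≤ 0.558 := by nlinarith
  have hG := G_lower hE hK hm u
  rw [← hL, ← hd] at hG
  have p1 := pos1 hE hK hz hm u
  have p2 := pos2 hE hK hz hm u
  have p3 := pos3 hE hK hz hm u
  have hD := Zb_diag hE hz hm u
  rw [← hL] at hD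
  rw [← hy, hD] at hco
  have hy1 : y ≤ 1 := by
    rw [← hm.2]
    exact single_le_sum (fun x _ => hm.1 x) (mem_univ u)
  rcases hmU.eq_or_lt with hyb | hyb
  · -- the weight of `U` is exactly `1/15`
    have hhalf := T3_le (E := E) hE hK (w := fun x => m x + (-(1 / 30)) * (if x = u then 1 else 0)) (by
      intro x
      have hx := hm.1 x
      by_cases hxu : x = u
      · rw [if_pos hxu, hxu, ← hy, ← hyb]; norm_num
      · rw [if_neg hxu]; linarith) (by
      rw [sum_add_distrib, hm.2, ← mul_sum, sum_ite_eq', if_pos (mem_univ _)]; norm_num)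
    rw [T3_sub hSE, sum_add_distrib, hm.2, ← mul_sum, sum_ite_eq', if_pos (mem_univ _), ← hd, ← hL] at hhalf
    have hL1 : 0.51879 ≤ L := by
      norm_num at hhalf hcon ⊢
      linarith
    have hG1 : 342907 + 621012 * L ≤ 3 * GG E m u := by
      norm_num at hcon
      linarith
    have hG2 : (342907 + 621012 * L) ^ 2 ≤ 9 * GG E m u ^ 2 := by
      have h0 : 0 ≤ 342907 + 621012 * L := by linarith
      nlinarith
    have hq : 274872 * (1471500 + 2 / 15 * (1763532 * (1 - L) ^ 2 - 405694 * ((1 - L) * L) + 2634405 * L ^ 2))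
        ≤ (342907 + 621012 * L) ^ 2 := by
      nlinarith [mul_nonneg (sub_nonneg.mpr hL1) (sub_nonneg.mpr hL1)]
    rw [← hyb] at hco
    have hA1 : 6540 ≤ A := by
      norm_num at hco
      linarith
    exact fin_contra hmain hA1 hcon
  · -- more than `1/15`
    have hreg : ∀ v, m v ≠ 0 → LL E m v = L := by
      intro v hv
      by_cases hvU : v ∈ U
      · rw [hone v hvU u huU hv hu]
      · have hne : u ≠ v := fun h => hvU (h ▸ huU)
        refine le_antisymm ?_ ?_
        · refine le_of_max hSE hm.1 hmax (s := y - 1 / 15) (by linarith) fun t h1 h2 =>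
            ⟨move_mem hm (Ne.symm hne) (by linarith [hm.1 v]) (by rw [← hy]; linarith), ?_⟩
          rw [sum_move, if_neg hvU, if_pos huU, hsumU]
          linarith
        · refine le_of_max hSE hm.1 hmax (s := m v) (hpos v hv) fun t h1 h2 =>
            ⟨move_mem hm hne (by linarith [hm.1 u]) h2, ?_⟩
          rw [sum_move, if_neg hvU, if_pos huU, hsumU]
          linarith
    have hLd : d = L := by
      rw [hd, T3_LL]
      have : ∑ v, m v * LL E m v = ∑ v, m v * L := by
        refine sum_congr rfl fun v _ => ?_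
        by_cases hv : m v = 0
        · rw [hv]; ring
        · rw [hreg v hv]
      rw [this, ← sum_mul, hm.2, one_mul]
    rw [← hLd] at hG hco
    have hy2 : y ≤ 0.26 := by
      have h1 := weight_bound hSE hm u
      rw [← hL, ← hLd, ← hy] at h1
      by_contra hcon2
      push Not at hcon2
      have h3 : (1 - y) ^ 2 ≤ 0.74 ^ 2 := by
        apply pow_le_pow_left₀ (by linarith)
        norm_num at hcon2 ⊢
        linarith
      norm_num at h3 hcon
      linarith
    have hG1 : 687889 ≤ 3 * GG E m u := by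
      norm_num at hcon
      linarith
    have hG2 : 687889 ^ 2 ≤ 9 * GG E m u ^ 2 := by nlinarith
    have hD1 : 1763532 * (1 - d) ^ 2 - 405694 * ((1 - d) * d) + 2634405 * d ^ 2 ≤ 1064731 := by
      nlinarith
    have hP : 1721000 ≤ ∑ c, m c * Zb E m u u c + ∑ c, m c * Zb E m u c u + ∑ c, m c * Zb E m c u u := by
      norm_num at hG2
      linarith
    have hy0 : 0 < y := by linarith
    have q1 : y ^ 2 * 1721000 ≤ y ^ 2 * (∑ c, m c * Zb E m u u c + ∑ c, m c * Zb E m u c u
        + ∑ c, m c * Zb E m c u u) := mul_le_mul_of_nonneg_left hP (sq_nonneg _)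
    have q2 : y ^ 3 * (1763532 * (1 - d) ^ 2 - 405694 * ((1 - d) * d) + 2634405 * d ^ 2) ≤ y ^ 3 * 1064731 :=
      mul_le_mul_of_nonneg_left hD1 (by positivity)
    have q3 : 7000 ≤ y ^ 2 * 1721000 - 2 * (y ^ 3 * 1064731) := by
      have e : y ^ 2 * 1721000 - 2 * (y ^ 3 * 1064731) - (1721000 * (1 / 15) ^ 2 - 2 * 1064731 * (1 / 15) ^ 3)
          = (y - 1 / 15) * (1721000 * (y + 1 / 15) - 2 * 1064731 * (y ^ 2 + y / 15 + 1 / 225)) := by ring
      have h1 : 0 ≤ 1721000 * (y + 1 / 15) - 2 * 1064731 * (y ^ 2 + y / 15 + 1 / 225) := by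
        norm_num at hy2
        nlinarith
      have h2 := mul_nonneg (sub_nonneg.mpr hyb.le) h1
      norm_num at e h2 ⊢
      linarith
    have hA1 : 7000 ≤ A := by linarith
    exact fin_contra hmain (by linarith) hcon

end

end

end Pool.Agent.Q113.Cov
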