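import Pool.Agent.Q113.Cov.Fin

/-! The density of `K_4^3`-free 3-graphs whose covering sets are small. -/

set_option autoImplicit false
set_option linter.unusedSectionVars false
set_option maxRecDepth 100000
open Finset
open Pool.Agent.H122R2.N6 (Sy NoK4 Bt k4b)
open Pool.Agent.Y435.T7 (e3 hC hx)

namespace Pool.Agent.Q113.Cov

noncomputable section

section
variable {V : Type} [Fintype V] {E : V → V → V → ℕ}

theorem tangent {y y0 : ℝ} (hy1 : y ≤ 0.26) (h1 : y0 ≤ 1 / 268) :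
    (2 * 157746476592 * y0 - 3 * 195109826288 * y0 ^ 2) * y - (157746476592 * y0 ^ 2 - 2 * 195109826288 * y0 ^ 3)
      ≤ 157746476592 * y ^ 2 - 195109826288 * y ^ 3 := by
  have h : 157746476592 * y ^ 2 - 195109826288 * y ^ 3
      - ((2 * 157746476592 * y0 - 3 * 195109826288 * y0 ^ 2) * y - (157746476592 * y0 ^ 2 - 2 * 195109826288 * y0 ^ 3))
      = (y - y0) ^ 2 * (157746476592 - 195109826288 * (y + 2 * y0)) := by ring
  have h2 : 0 ≤ 157746476592 - 195109826288 * (y + 2 * y0) := by norm_num at hy1 h1 ⊢; linarith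
  have h3 := mul_nonneg (sq_nonneg (y - y0)) h2
  linarith

variable [DecidableEq V]

theorem dens [Nonempty V] (hE : Sy E) (hK : NoK4 E) (hz : ∀ x y, E x x y = 0) (k : ℕ) (hk : 268 ≤ k)
    (hc : ∀ S : Finset V, (∀ u ∈ S, ∀ v ∈ S, u ≠ v → ∃ x ∈ S, E u v x = 1) → S.card ≤ k)
    {w : V → ℝ} (hw : w ∈ stdSimplex ℝ V) :
    T3 E w w w ≤ 0.55756 - 0.53 / k ∧ (k = 268 → T3 E w w w ≤ 5 / 9) := by
  have hSE : SE E := ⟨hE.b, hE.h213, hE.h132, hz⟩
  obtain ⟨m, hm, hmax, hreg, hcov⟩ := main_lagr hSE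
  set d := T3 E m m m with hd
  have hkr : (268 : ℝ) ≤ k := by exact_mod_cast hk
  have hk0 : (0 : ℝ) < k := by linarith
  set y0 : ℝ := 1 / k with hy0
  have hy00 : 0 ≤ y0 := by positivity
  have hy01 : y0 ≤ 1 / 268 := one_div_le_one_div_of_le (by norm_num) hkr
  have hky : (k : ℝ) * y0 = 1 := by rw [hy0]; field_simp
  have h53 : (0.53 : ℝ) / k = 0.53 * y0 := by rw [hy0]; ring
  suffices hgoal : d ≤ 0.55756 - 0.53 * y0 ∧ (k = 268 → d ≤ 5 / 9) by
    rw [h53]
    exact ⟨(hmax w hw).trans hgoal.1, fun h => (hmax w hw).trans (hgoal.2 h)⟩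
  rcases le_or_gt d (5 / 9) with hd1 | hd1
  · refine ⟨hd1.trans ?_, fun _ => hd1⟩
    norm_num at hy01 ⊢
    linarith
  -- the support
  set S := sp m with hS
  have hScard : S.card ≤ k := by
    refine hc S fun u hu v hv huv => ?_
    rw [hS, sp, mem_filter] at hu hv
    obtain ⟨x, hx, hx1⟩ := hcov u v hu.2 hv.2 huv
    exact ⟨x, by rw [hS, sp, mem_filter]; exact ⟨mem_univ _, hx⟩, hx1⟩
  have hmain := main_real hE hK hm
  have hco := coincide m hm.1 (Zb E m) (fun a b c => Zb_nonneg m a b c)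
  set A := ∑ a, ∑ b, ∑ c, m a * m b * m c * Zb E m a b c with hA
  have hA0 : 0 ≤ A := sum_nonneg fun a _ => sum_nonneg fun b _ => sum_nonneg fun c _ =>
    mul_nonneg (mul_nonneg (mul_nonneg (hm.1 a) (hm.1 b)) (hm.1 c)) (Zb_nonneg m a b c)
  rw [← hd] at hmain
  have hd2 : d ≤ 0.558 := by nlinarith
  -- the terms
  have hterm : ∀ u ∈ S, 157746476592 * m u ^ 2 - 195109826288 * m u ^ 3
      ≤ 91624 * (m u ^ 2 * (∑ c, m c * Zb E m u u c + ∑ c, m c * Zb E m u c u + ∑ c, m c * Zb E m c u u)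
        - 2 * (m u ^ 3 * Zb E m u u u)) := by
    intro u hu
    rw [hS, sp, mem_filter] at hu
    have hL := hreg u hu.2
    have hG := G_lower hE hK hm u
    rw [hL] at hG
    have hG1 : 687924 ≤ 3 * GG E m u := by linarith
    have hG2 : 157746476592 ≤ 3 * GG E m u ^ 2 := by nlinarith
    have p1 := pos1 hE hK hz hm u
    have p2 := pos2 hE hK hz hm u
    have p3 := pos3 hE hK hz hm u
    have hD := Zb_diag hE hz hm u
    rw [hL] at hD
    have hD1 : Zb E m u u u ≤ 1064731 := by rw [hD]; nlinarith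
    have hm0 := hm.1 u
    have q1 : 157746476592 * m u ^ 2 ≤ m u ^ 2 * (91624 * (∑ c, m c * Zb E m u u c + ∑ c, m c * Zb E m u c u
        + ∑ c, m c * Zb E m c u u)) := by
      rw [mul_comm]
      refine mul_le_mul_of_nonneg_left ?_ (sq_nonneg _)
      linarith
    have q2 : m u ^ 3 * Zb E m u u u ≤ m u ^ 3 * 1064731 :=
      mul_le_mul_of_nonneg_left hD1 (by positivity)
    linarith
  have hsum1 : ∑ u, m u ^ 2 * (∑ c, m c * Zb E m u u c + ∑ c, m c * Zb E m u c u + ∑ c, m c * Zb E m c u u)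
      - 2 * ∑ u, m u ^ 3 * Zb E m u u u
      = ∑ u ∈ S, (m u ^ 2 * (∑ c, m c * Zb E m u u c + ∑ c, m c * Zb E m u c u + ∑ c, m c * Zb E m c u u)
        - 2 * (m u ^ 3 * Zb E m u u u)) := by
    rw [mul_sum, ← sum_sub_distrib]
    symm
    apply sum_subset (subset_univ S)
    intro u _ hu
    have : m u = 0 := by
      by_contra hne
      exact hu (by rw [hS, sp, mem_filter]; exact ⟨mem_univ _, hne⟩)
    rw [this]
    ring
  have hSsum : ∑ u ∈ S, m u = 1 := by
    rw [← hm.2]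
    apply sum_subset (subset_univ S)
    intro u _ hu
    by_contra hne
    exact hu (by rw [hS, sp, mem_filter]; exact ⟨mem_univ _, hne⟩)
  have htan : ∀ u ∈ S, (2 * 157746476592 * y0 - 3 * 195109826288 * y0 ^ 2) * m u
      - (157746476592 * y0 ^ 2 - 2 * 195109826288 * y0 ^ 3) ≤ 157746476592 * m u ^ 2 - 195109826288 * m u ^ 3 := by
    intro u hu
    refine tangent ?_ hy01
    rw [hS, sp, mem_filter] at hu
    have h1 := weight_bound hSE hm u
    rw [hreg u hu.2] at h1
    have h2 : m u ≤ 1 := by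
      rw [← hm.2]
      exact single_le_sum (fun x _ => hm.1 x) (mem_univ u)
    by_contra hcon
    push Not at hcon
    have h3 : (1 - m u) ^ 2 ≤ 0.74 ^ 2 := by
      apply pow_le_pow_left₀ (by linarith)
      norm_num at hcon ⊢
      linarith
    norm_num at h3
    linarith
  have hb0 : 0 ≤ 157746476592 * y0 ^ 2 - 2 * 195109826288 * y0 ^ 3 := by
    have : 157746476592 * y0 ^ 2 - 2 * 195109826288 * y0 ^ 3 = y0 ^ 2 * (157746476592 - 2 * 195109826288 * y0) := by ring
    rw [this]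
    refine mul_nonneg (sq_nonneg _) ?_
    norm_num at hy01 ⊢
    linarith
  have hfin : 157746476592 * y0 - 195109826288 * y0 ^ 2 ≤ 91624 * A := by
    have h1 : ∑ u ∈ S, ((2 * 157746476592 * y0 - 3 * 195109826288 * y0 ^ 2) * m u
        - (157746476592 * y0 ^ 2 - 2 * 195109826288 * y0 ^ 3)) ≤ 91624 * A := by
      refine (sum_le_sum fun u hu => (htan u hu).trans (hterm u hu)).trans ?_
      rw [← mul_sum, ← hsum1]
      exact mul_le_mul_of_nonneg_left hco (by norm_num)
    rw [sum_sub_distrib, ← mul_sum, hSsum, sum_const, nsmul_eq_mul] at h1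
    have h2 : (S.card : ℝ) * (157746476592 * y0 ^ 2 - 2 * 195109826288 * y0 ^ 3)
        ≤ k * (157746476592 * y0 ^ 2 - 2 * 195109826288 * y0 ^ 3) :=
      mul_le_mul_of_nonneg_right (by exact_mod_cast hScard) hb0
    have h3 : (k : ℝ) * (157746476592 * y0 ^ 2 - 2 * 195109826288 * y0 ^ 3)
        = 157746476592 * y0 - 2 * 195109826288 * y0 ^ 2 := by
      have : (k : ℝ) * (157746476592 * y0 ^ 2 - 2 * 195109826288 * y0 ^ 3)
        = (k * y0) * (157746476592 * y0 - 2 * 195109826288 * y0 ^ 2) := by ring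
      rw [this, hky, one_mul]
    linarith
  refine ⟨?_, fun hk268 => ?_⟩
  · by_contra hcon
    push Not at hcon
    have hx0 : 0 ≤ 0.55756 - 0.53 * y0 := by norm_num at hy01 ⊢; linarith
    have hsq : (0.55756 - 0.53 * y0) ^ 2 ≤ d ^ 2 := pow_le_pow_left₀ hx0 hcon.le 2
    nlinarith [mul_nonneg hy00 (sub_nonneg.mpr hy01)]
  · exfalso
    have hy : y0 = 1 / 268 := by rw [hy0, hk268]; norm_num
    rw [hy] at hfin
    nlinarith

end

end

end Pool.Agent.Q113.Cov
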