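import Pool.Agent.Q113.Cov.Blow

/-! Tables of the certificate at coinciding vertices. -/

set_option autoImplicit false
set_option linter.unusedSectionVars false
set_option maxRecDepth 100000
open Finset
open Pool.Agent.H122R2.N6 (Sy NoK4 Bt k4b)
open Pool.Agent.Y435.T7 (e3 hC hx)

namespace Pool.Agent.Q113.Cov

noncomputable section

def q1 (k : ℕ) : ℤ := ([6, 136, 89, 126, -65, -60, 0, -60, -69, 0, -69, 82, 0, 82, 85, 0, 85, -15, 0, -15] : List ℤ).getD k 0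
def q2 (k : ℕ) : ℤ := ([6, 136, 89, 126, -65, 0, -60, 60, 0, -69, 69, 0, 82, -82, 0, 85, -85, 0, -15, 15] : List ℤ).getD k 0
def q3 (k : ℕ) : ℤ := ([6, 136, 89, 126, -65, 60, 60, 0, 69, 69, 0, -82, -82, 0, -85, -85, 0, 15, 15, 0] : List ℤ).getD k 0
def qv (q : ℕ → ℤ) (c : ℕ) : ℤ := ∑ k ∈ range 20, q k * ((e3 c k : ℤ) - 4224)
/-- the values -/
def gT (A B C D : ℕ) : ℤ := ([113240, 388081, 51885, 130961, 178853, 265752, 176863, 308060, 178853, 265752, 176863, 308060, 263547, 253070, 274533] : List ℤ).getD (8 * A + 4 * B + 2 * C + D) 0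
def v0 (k : ℕ) : ℤ := ([-145, 516, -821, 893, -69] : List ℤ).getD k 0
def v1 (k : ℕ) : ℤ := ([-1338, 316, 849, 152, -20] : List ℤ).getD k 0

theorem tabs1 : ∀ A : ℕ, A < 2 → ∀ B : ℕ, B < 2 → ∀ C : ℕ, C < 2 → ∀ D : ℕ, D < 2 → A + B + C + D ≠ 4 →
    qv q1 (hx 0 0 A A 0 B B C C D) = gT A B C D := by decide +kernel

theorem tabs2 : ∀ A : ℕ, A < 2 → ∀ B : ℕ, B < 2 → ∀ C : ℕ, C < 2 → ∀ D : ℕ, D < 2 → A + B + C + D ≠ 4 →
    qv q2 (hx 0 A 0 A B 0 B C D C) = gT A B C D := by decide +kernel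

theorem tabs3 : ∀ A : ℕ, A < 2 → ∀ B : ℕ, B < 2 → ∀ C : ℕ, C < 2 → ∀ D : ℕ, D < 2 → A + B + C + D ≠ 4 →
    qv q3 (hx 0 A A 0 B B 0 D C C) = gT A B C D := by decide +kernel

theorem tab0 : ∀ k : ℕ, k < 20 → ((e3 (hx 0 0 0 0 0 0 0 0 0 0) k : ℤ) - 4224 = v0 k) ∧
    ((e3 (hx 0 0 0 0 0 0 0 1 1 1) k : ℤ) - 4224 = v1 k) := by decide +kernel

theorem qn1 : ∑ k ∈ range 20, q1 k ^ 2 = 91624 := by decide +kernel
theorem qn2 : ∑ k ∈ range 20, q2 k ^ 2 = 91624 := by decide +kernel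
theorem qn3 : ∑ k ∈ range 20, q3 k ^ 2 = 91624 := by decide +kernel

theorem gT_bound : ∀ A : ℕ, A < 2 → ∀ B : ℕ, B < 2 → ∀ C : ℕ, C < 2 → ∀ D : ℕ, D < 2 → A + B + C + D ≠ 4 →
    202587 + 207004 * ((A : ℤ) + B + C) + 252595 * D ≤ gT A B C D + gT A C B D + gT C B A D := by decide +kernel

end

end Pool.Agent.Q113.Cov
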