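import Pool.Agent.Q113.Cov.Tab

/-! Table for pairs of small codegree. -/

set_option autoImplicit false
set_option linter.unusedSectionVars false
set_option maxRecDepth 100000
open Finset
open Pool.Agent.H122R2.N6 (Sy NoK4 Bt k4b)
open Pool.Agent.Y435.T7 (e3 hC hx)

namespace Pool.Agent.Q113.Cov

noncomputable section

def qU (k : ℕ) : ℤ := ([2, 41, 7, 12, -16, -28, 0, -28, 0, 0, 0, 19, 0, 19, 10, 0, 10, -1, 0, -1] : List ℤ).getD k 0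

theorem qnU : ∑ k ∈ range 20, qU k ^ 2 = 4626 := by decide +kernel

def okU (g1 g2 g3 a1 a2 a3 b1 b2 b3 D : ℕ) : Bool :=
  decide (g1 + g2 + a1 + b1 = 4) || decide (g1 + g3 + a2 + b2 = 4) || decide (g2 + g3 + a3 + b3 = 4) ||
  decide (a1 + a2 + a3 + D = 4) || decide (b1 + b2 + b3 + D = 4) ||
  decide (10047 + 21051 * ((a1 : ℤ) + a2 + a3 + b1 + b2 + b3) + 64714 * D - 251531 * (g1 + g2 + g3)
      ≤ qv qU (hx g1 g2 a1 b1 g3 a2 b2 a3 b3 D) + qv qU (hx g2 g1 a1 b1 g3 a3 b3 a2 b2 D)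
        + qv qU (hx g3 g2 a3 b3 g1 a2 b2 a1 b1 D))

def A2 (f : ℕ → Bool) : Bool := f 0 && f 1

theorem A2_true {f : ℕ → Bool} (h : A2 f = true) {n : ℕ} (hn : n < 2) : f n = true := by
  unfold A2 at h
  rw [Bool.and_eq_true] at h
  interval_cases n
  · exact h.1
  · exact h.2

theorem okU_all : A2 (fun g1 => A2 fun g2 => A2 fun g3 => A2 fun a1 => A2 fun a2 => A2 fun a3 =>
    A2 fun b1 => A2 fun b2 => A2 fun b3 => A2 fun D => okU g1 g2 g3 a1 a2 a3 b1 b2 b3 D) = true := by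
  decide +kernel

theorem tabU {g1 g2 g3 a1 a2 a3 b1 b2 b3 D : ℕ} (hg1 : g1 < 2) (hg2 : g2 < 2) (hg3 : g3 < 2)
    (ha1 : a1 < 2) (ha2 : a2 < 2) (ha3 : a3 < 2) (hb1 : b1 < 2) (hb2 : b2 < 2) (hb3 : b3 < 2) (hD : D < 2)
    (h1 : g1 + g2 + a1 + b1 ≠ 4) (h2 : g1 + g3 + a2 + b2 ≠ 4) (h3 : g2 + g3 + a3 + b3 ≠ 4)
    (h4 : a1 + a2 + a3 + D ≠ 4) (h5 : b1 + b2 + b3 + D ≠ 4) :
    10047 + 21051 * ((a1 : ℤ) + a2 + a3 + b1 + b2 + b3) + 64714 * D - 251531 * (g1 + g2 + g3)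
      ≤ qv qU (hx g1 g2 a1 b1 g3 a2 b2 a3 b3 D) + qv qU (hx g2 g1 a1 b1 g3 a3 b3 a2 b2 D)
        + qv qU (hx g3 g2 a3 b3 g1 a2 b2 a1 b1 D) := by
  have h := A2_true (A2_true (A2_true (A2_true (A2_true (A2_true (A2_true (A2_true (A2_true (A2_true
    okU_all hg1) hg2) hg3) ha1) ha2) ha3) hb1) hb2) hb3) hD
  unfold okU at h
  simp only [Bool.or_eq_true, decide_eq_true_eq] at h
  tauto

end

end Pool.Agent.Q113.Cov
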