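import Pool.Agent.Q113.Cov.UTab
import Pool.Agent.Q113.Cov.Ind

/-! The density of `K_4^3`-free 3-graphs with many pairs of small codegree. -/

set_option autoImplicit false
set_option linter.unusedSectionVars false
set_option maxRecDepth 100000
open Finset
open Pool.Agent.H122R2.N6 (Sy NoK4 Bt k4b)
open Pool.Agent.Y435.T7 (e3 hC hx)

namespace Pool.Agent.Q113.Cov

noncomputable section

section
variable {V : Type} [Fintype V]

theorem i3 {w : V → ℝ} (hw : ∑ v, w v = 1) (g : V → V → ℝ) :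
    ∑ c, ∑ x, ∑ y, w c * w x * w y * g c x = ∑ c, ∑ x, w c * w x * g c x := by
  refine sum_congr rfl fun c _ => sum_congr rfl fun x _ => ?_
  have : ∀ y, w c * w x * w y * g c x = w y * (w c * w x * g c x) := fun y => by ring
  rw [sum_congr rfl fun y _ => this y, ← sum_mul, hw, one_mul]

theorem s12 (F : V → V → V → ℝ) : ∑ c, ∑ x, ∑ y, F c x y = ∑ c, ∑ x, ∑ y, F x c y := by
  rw [sum_comm]

theorem s23 (F : V → V → V → ℝ) : ∑ c, ∑ x, ∑ y, F c x y = ∑ c, ∑ x, ∑ y, F c y x :=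
  sum_congr rfl fun c _ => sum_comm

theorem s13 (F : V → V → V → ℝ) : ∑ c, ∑ x, ∑ y, F c x y = ∑ c, ∑ x, ∑ y, F y x c := by
  rw [s12 F, s23 (fun c x y => F x c y), s12 (fun c x y => F y c x)]

theorem i2 {w : V → ℝ} (hw : ∑ v, w v = 1) (g : V → V → ℝ) :
    ∑ c, ∑ x, ∑ y, w c * w x * w y * g c y = ∑ c, ∑ x, w c * w x * g c x := by
  rw [← i3 hw g, s23]
  refine sum_congr rfl fun c _ => sum_congr rfl fun x _ => sum_congr rfl fun y _ => ?_
  ring

theorem i1 {w : V → ℝ} (hw : ∑ v, w v = 1) (g : V → V → ℝ) :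
    ∑ c, ∑ x, ∑ y, w c * w x * w y * g x y = ∑ c, ∑ x, w c * w x * g c x := by
  rw [← i2 hw g, s12]
  refine sum_congr rfl fun c _ => sum_congr rfl fun x _ => sum_congr rfl fun y _ => ?_
  ring

theorem j1 {w : V → ℝ} (hw : ∑ v, w v = 1) (g : V → ℝ) :
    ∑ c, ∑ x, ∑ y, w c * w x * w y * g c = ∑ c, w c * g c := by
  rw [i3 hw (fun c _ => g c)]
  refine sum_congr rfl fun c _ => ?_
  have : ∀ x, w c * w x * g c = w x * (w c * g c) := fun x => by ring
  rw [sum_congr rfl fun x _ => this x, ← sum_mul, hw, one_mul]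

theorem j2 {w : V → ℝ} (hw : ∑ v, w v = 1) (g : V → ℝ) :
    ∑ c, ∑ x, ∑ y, w c * w x * w y * g x = ∑ c, w c * g c := by
  rw [← j1 hw g, s12]
  refine sum_congr rfl fun c _ => sum_congr rfl fun x _ => sum_congr rfl fun y _ => ?_
  ring

theorem j3 {w : V → ℝ} (hw : ∑ v, w v = 1) (g : V → ℝ) :
    ∑ c, ∑ x, ∑ y, w c * w x * w y * g y = ∑ c, w c * g c := by
  rw [← j2 hw g, s23]
  refine sum_congr rfl fun c _ => sum_congr rfl fun x _ => sum_congr rfl fun y _ => ?_
  ring

variable {E : V → V → V → ℕ}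

/-- the average of the linear functional over the third vertex of the type and the two further vertices -/
def GU (E : V → V → V → ℕ) (w : V → ℝ) (a b : V) : ℝ :=
  ∑ c, ∑ x, ∑ y, w c * w x * w y * (qv qU (hC E a b c x y) : ℝ)

theorem unc_lower (hE : Sy E) (hK : NoK4 E) {w : V → ℝ} (hw : w ∈ stdSimplex ℝ V) (a b : V) :
    10047 + 63153 * (LL E w a + LL E w b) + 64714 * T3 E w w w - 754593 * CC E w a b
      ≤ 3 * GU E w a b := by
  have hs := hw.2
  have e1 : GU E w a b = ∑ c, ∑ x, ∑ y, w c * w x * w y * (qv qU (hC E a b x c y) : ℝ) := by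
    unfold GU
    rw [s12]
    refine sum_congr rfl fun c _ => sum_congr rfl fun x _ => sum_congr rfl fun y _ => ?_
    ring
  have e2 : GU E w a b = ∑ c, ∑ x, ∑ y, w c * w x * w y * (qv qU (hC E a b y x c) : ℝ) := by
    unfold GU
    rw [s13]
    refine sum_congr rfl fun c _ => sum_congr rfl fun x _ => sum_congr rfl fun y _ => ?_
    ring
  have e3' : 3 * GU E w a b = ∑ c, ∑ x, ∑ y, w c * w x * w y *
      ((qv qU (hC E a b c x y) + qv qU (hC E a b x c y) + qv qU (hC E a b y x c) : ℤ) : ℝ) := by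
    have : 3 * GU E w a b = ∑ c, ∑ x, ∑ y, w c * w x * w y * (qv qU (hC E a b c x y) : ℝ)
        + ∑ c, ∑ x, ∑ y, w c * w x * w y * (qv qU (hC E a b x c y) : ℝ)
        + ∑ c, ∑ x, ∑ y, w c * w x * w y * (qv qU (hC E a b y x c) : ℝ) := by
      rw [← e1, ← e2]
      unfold GU
      ring
    rw [this]
    simp only [← sum_add_distrib]
    refine sum_congr rfl fun c _ => sum_congr rfl fun x _ => sum_congr rfl fun y _ => ?_
    push_cast
    ring
  have e4 : 10047 + 63153 * (LL E w a + LL E w b) + 64714 * T3 E w w w - 754593 * CC E w a b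
      = ∑ c, ∑ x, ∑ y, w c * w x * w y *
      ((10047 + 21051 * ((E a c x : ℤ) + E a c y + E a x y + E b c x + E b c y + E b x y)
        + 64714 * (E c x y : ℤ) - 251531 * (E a b c + E a b x + E a b y) : ℤ) : ℝ) := by
    have l0 : ∑ c, ∑ x, ∑ y, w c * w x * w y * (1 : ℝ) = 1 := by
      rw [j1 hs (fun _ => 1)]
      simp only [mul_one]
      exact hs
    have la3 := i3 hs (fun c x => (E a c x : ℝ))
    have la2 := i2 hs (fun c x => (E a c x : ℝ))
    have la1 := i1 hs (fun c x => (E a c x : ℝ))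
    have lb3 := i3 hs (fun c x => (E b c x : ℝ))
    have lb2 := i2 hs (fun c x => (E b c x : ℝ))
    have lb1 := i1 hs (fun c x => (E b c x : ℝ))
    have c1 := j1 hs (fun c => (E a b c : ℝ))
    have c2 := j2 hs (fun c => (E a b c : ℝ))
    have c3 := j3 hs (fun c => (E a b c : ℝ))
    have : ∑ c, ∑ x, ∑ y, w c * w x * w y *
      ((10047 + 21051 * ((E a c x : ℤ) + E a c y + E a x y + E b c x + E b c y + E b x y)
        + 64714 * (E c x y : ℤ) - 251531 * (E a b c + E a b x + E a b y) : ℤ) : ℝ)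
      = 10047 * (∑ c, ∑ x, ∑ y, w c * w x * w y * (1 : ℝ))
        + 21051 * (∑ c, ∑ x, ∑ y, w c * w x * w y * (E a c x : ℝ))
        + 21051 * (∑ c, ∑ x, ∑ y, w c * w x * w y * (E a c y : ℝ))
        + 21051 * (∑ c, ∑ x, ∑ y, w c * w x * w y * (E a x y : ℝ))
        + 21051 * (∑ c, ∑ x, ∑ y, w c * w x * w y * (E b c x : ℝ))
        + 21051 * (∑ c, ∑ x, ∑ y, w c * w x * w y * (E b c y : ℝ))
        + 21051 * (∑ c, ∑ x, ∑ y, w c * w x * w y * (E b x y : ℝ))
        + 64714 * T3 E w w w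
        - 251531 * (∑ c, ∑ x, ∑ y, w c * w x * w y * (E a b c : ℝ))
        - 251531 * (∑ c, ∑ x, ∑ y, w c * w x * w y * (E a b x : ℝ))
        - 251531 * (∑ c, ∑ x, ∑ y, w c * w x * w y * (E a b y : ℝ)) := by
      unfold T3
      simp only [mul_sum, ← sum_add_distrib, ← sum_sub_distrib]
      refine sum_congr rfl fun c _ => sum_congr rfl fun x _ => sum_congr rfl fun y _ => ?_
      push_cast
      ring
    rw [this, l0, la3, la2, la1, lb3, lb2, lb1, c1, c2, c3]
    unfold LL CC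
    ring
  rw [e3', e4]
  refine sum_le_sum fun c _ => sum_le_sum fun x _ => sum_le_sum fun y _ => ?_
  refine mul_le_mul_of_nonneg_left ?_ (mul_nonneg (mul_nonneg (hw.1 c) (hw.1 x)) (hw.1 y))
  have hb := tabU (lt2 hE a b c) (lt2 hE a b x) (lt2 hE a b y) (lt2 hE a c x) (lt2 hE a c y) (lt2 hE a x y)
    (lt2 hE b c x) (lt2 hE b c y) (lt2 hE b x y) (lt2 hE c x y)
    (ne4 hK a b c x) (ne4 hK a b c y) (ne4 hK a b x y) (ne4 hK a c x y) (ne4 hK b c x y)
  have h1 : hC E a b c x y = hx (E a b c) (E a b x) (E a c x) (E b c x) (E a b y) (E a c y) (E b c y)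
      (E a x y) (E b x y) (E c x y) := rfl
  have h2 : hC E a b x c y = hx (E a b x) (E a b c) (E a c x) (E b c x) (E a b y) (E a x y) (E b x y)
      (E a c y) (E b c y) (E c x y) := by
    unfold hC
    rw [hE.h132 a c x, hE.h132 b c x, hE.h213 c x y]
  have h3 : hC E a b y x c = hx (E a b y) (E a b x) (E a x y) (E b x y) (E a b c) (E a c y) (E b c y)
      (E a c x) (E b c x) (E c x y) := by
    unfold hC
    have : E y x c = E c x y := by
      rw [hE.h213 x y c, hE.h132 x c y, hE.h213 c x y]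
    rw [hE.h132 a x y, hE.h132 b x y, hE.h132 a c y, hE.h132 b c y, hE.h132 a c x, hE.h132 b c x, this]
  rw [h1, h2, h3]
  exact_mod_cast hb

theorem unc_sq {w : V → ℝ} (hw : w ∈ stdSimplex ℝ V) (a b : V) :
    GU E w a b ^ 2 ≤ 4626 * ∑ c, w c * Zb E w a b c := by
  have h1 : GU E w a b = ∑ c, w c * ∑ x, ∑ y, w x * w y * (qv qU (hC E a b c x y) : ℝ) := by
    unfold GU
    refine sum_congr rfl fun c _ => ?_
    simp only [mul_sum]
    refine sum_congr rfl fun x _ => sum_congr rfl fun y _ => ?_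
    ring
  have cs : ∀ c, (∑ x, ∑ y, w x * w y * (qv qU (hC E a b c x y) : ℝ)) ^ 2 ≤ 4626 * Zb E w a b c := by
    intro c
    have h1 : ∑ x, ∑ y, w x * w y * (qv qU (hC E a b c x y) : ℝ)
        = ∑ k ∈ range 20, (qU k : ℝ) * ∑ x, ∑ y, w x * w y * ((e3 (hC E a b c x y) k : ℝ) - 4224) := by
      unfold qv
      push_cast
      simp only [mul_sum]
      calc ∑ x, ∑ y, ∑ k ∈ range 20, w x * w y * ((qU k : ℝ) * ((e3 (hC E a b c x y) k : ℝ) - 4224))
          = ∑ x, ∑ k ∈ range 20, ∑ y, w x * w y * ((qU k : ℝ) * ((e3 (hC E a b c x y) k : ℝ) - 4224)) :=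
            sum_congr rfl fun x _ => sum_comm
        _ = ∑ k ∈ range 20, ∑ x, ∑ y, w x * w y * ((qU k : ℝ) * ((e3 (hC E a b c x y) k : ℝ) - 4224)) := sum_comm
        _ = _ := sum_congr rfl fun k _ => sum_congr rfl fun x _ => sum_congr rfl fun y _ => by ring
    have h2 : (∑ k ∈ range 20, (qU k : ℝ) ^ 2) = 4626 := by exact_mod_cast qnU
    rw [h1]
    unfold Zb
    rw [← h2]
    exact Finset.sum_mul_sq_le_sq_mul_sq _ _ _
  rw [h1, mul_sum]
  refine (jensen hw _).trans (sum_le_sum fun c _ => ?_)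
  have := mul_le_mul_of_nonneg_left (cs c) (hw.1 c)
  linarith

theorem CC_symm (hE : Sy E) (w : V → ℝ) (a b : V) : CC E w b a = CC E w a b := by
  unfold CC
  refine sum_congr rfl fun c _ => ?_
  rw [hE.h213]

variable [DecidableEq V]

/-- a part of the weights is deleted -/
theorem deletion (hE : Sy E) (hK : NoK4 E) {w : V → ℝ} (hw : w ∈ stdSimplex ℝ V) {f : V → ℝ}
    (hf0 : ∀ a, 0 ≤ f a) (hf1 : ∀ a, f a ≤ 1) (hσ : ∑ a, w a * f a < 1) :
    T3 E w w w - 3 * ∑ a, w a * f a * LL E w a ≤ 0.557554 * (1 - ∑ a, w a * f a) ^ 3 := by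
  set w' : V → ℝ := fun a => w a * (1 - f a) with hw'
  have hs' : ∑ a, w' a = 1 - ∑ a, w a * f a := by
    have : ∀ a, w' a = w a - w a * f a := fun a => by rw [hw']; ring
    rw [sum_congr rfl fun a _ => this a, sum_sub_distrib, hw.2]
  have h1 := T3_le hE hK (w := w') (fun a => mul_nonneg (hw.1 a) (by linarith [hf1 a])) (by rw [hs']; linarith)
  rw [hs'] at h1
  refine le_trans ?_ h1
  have hsum : ∑ a, w a * f a * LL E w a = ∑ a, ∑ b, ∑ c, w a * w b * w c * (E a b c : ℝ) * f a := by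
    unfold LL
    simp only [mul_sum]
    refine sum_congr rfl fun a _ => sum_congr rfl fun b _ => sum_congr rfl fun c _ => ?_
    ring
  have hsum2 : ∑ a, w a * f a * LL E w a = ∑ a, ∑ b, ∑ c, w a * w b * w c * (E a b c : ℝ) * f b := by
    rw [hsum, s12]
    refine sum_congr rfl fun a _ => sum_congr rfl fun b _ => sum_congr rfl fun c _ => ?_
    rw [hE.h213 a b c]
    ring
  have hsum3 : ∑ a, w a * f a * LL E w a = ∑ a, ∑ b, ∑ c, w a * w b * w c * (E a b c : ℝ) * f c := by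
    rw [hsum2, s23]
    refine sum_congr rfl fun a _ => sum_congr rfl fun b _ => sum_congr rfl fun c _ => ?_
    rw [hE.h132 a b c]
    ring
  have h3 : 3 * ∑ a, w a * f a * LL E w a
      = ∑ a, ∑ b, ∑ c, w a * w b * w c * (E a b c : ℝ) * (f a + f b + f c) := by
    have : 3 * ∑ a, w a * f a * LL E w a = ∑ a, ∑ b, ∑ c, w a * w b * w c * (E a b c : ℝ) * f a
        + ∑ a, ∑ b, ∑ c, w a * w b * w c * (E a b c : ℝ) * f b
        + ∑ a, ∑ b, ∑ c, w a * w b * w c * (E a b c : ℝ) * f c := by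
      rw [← hsum, ← hsum2, ← hsum3]
      ring
    rw [this]
    simp only [← sum_add_distrib]
    refine sum_congr rfl fun a _ => sum_congr rfl fun b _ => sum_congr rfl fun c _ => ?_
    ring
  rw [h3]
  unfold T3
  simp only [← sum_sub_distrib]
  refine sum_le_sum fun a _ => sum_le_sum fun b _ => sum_le_sum fun c _ => ?_
  have hE0 : (0 : ℝ) ≤ (E a b c : ℝ) := Nat.cast_nonneg _
  have hp : 0 ≤ w a * w b * w c * (E a b c : ℝ) :=
    mul_nonneg (mul_nonneg (mul_nonneg (hw.1 a) (hw.1 b)) (hw.1 c)) hE0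
  have hw3 : 1 - (f a + f b + f c) ≤ (1 - f a) * (1 - f b) * (1 - f c) := by
    have h1 := mul_nonneg (hf0 a) (hf0 b)
    have h2 := mul_nonneg (mul_nonneg (hf0 a) (hf0 b)) (sub_nonneg.mpr (hf1 c))
    have h3 := mul_nonneg (hf0 c) (hf0 a)
    have h4 := mul_nonneg (hf0 c) (hf0 b)
    nlinarith
  have := mul_le_mul_of_nonneg_left hw3 hp
  simp only [hw']
  linarith

theorem fin2 {d A : ℝ} (h : 335504400 * d + 444360 * d ^ 2 + 105 * A ≤ 187199897) (hA : 6399 ≤ A)
    (hd : 5 / 9 < d) : False := by nlinarith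

theorem unc_num {c X d δ A : ℝ} (hc0 : 0 < c) (hδ0 : 0 ≤ δ) (hδ1 : 7 * δ < 1)
    (hc : 1 ≤ 45 * (1 - 7 * δ) ^ 2 * c) (hX1 : 0.51525 * c ≤ X) (hcon : 5 / 9 < d)
    (h : 2 * (36500 * (1 - 7 * δ)) * ((10047 * c + 126306 * X + 64714 * d * c - 754593 * δ * c) / 3)
      - (36500 * (1 - 7 * δ)) ^ 2 * c ≤ 4626 * A) : 6399 ≤ A := by
  have hm : 36500 * (1 - 7 * δ) * c ≤ (10047 * c + 126306 * X + 64714 * d * c - 754593 * δ * c) / 3 := by
    have h1 : 64714 * (5 / 9) * c ≤ 64714 * d * c := by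
      have := mul_le_mul_of_nonneg_right hcon.le hc0.le
      linarith
    have h2 : 0 ≤ δ * c := mul_nonneg hδ0 hc0.le
    norm_num at hX1 ⊢
    linarith
  have h9 := mul_le_mul_of_nonneg_left hm (show 0 ≤ 2 * (36500 * (1 - 7 * δ)) by linarith)
  have h10 : (36500 * (1 - 7 * δ)) ^ 2 * c ≤ 4626 * A := by linarith
  have h11 : 36500 ^ 2 / 45 ≤ (36500 * (1 - 7 * δ)) ^ 2 * c := by
    have e : (36500 * (1 - 7 * δ)) ^ 2 * c = 36500 ^ 2 / 45 * (45 * (1 - 7 * δ) ^ 2 * c) := by ring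
    rw [e]
    have := mul_le_mul_of_nonneg_left hc (show (0 : ℝ) ≤ 36500 ^ 2 / 45 by norm_num)
    linarith
  norm_num at h11 ⊢
  linarith

/-- many pairs of codegree at most `δ` -/
theorem small_codeg (hE : Sy E) (hK : NoK4 E) {w : V → ℝ} (hw : w ∈ stdSimplex ℝ V) {δ : ℝ} (hδ0 : 0 ≤ δ)
    (hδ1 : 7 * δ < 1) (p : V → V → ℝ) (hp0 : ∀ a b, 0 ≤ p a b) (hp1 : ∀ a b, p a b ≤ 1)
    (hps : ∀ a b, p b a = p a b) (hpc : ∀ a b, p a b * CC E w a b ≤ p a b * δ)
    (hc : 1 ≤ 45 * (1 - 7 * δ) ^ 2 * ∑ a, ∑ b, w a * w b * p a b) : T3 E w w w ≤ 5 / 9 := by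
  set c := ∑ a, ∑ b, w a * w b * p a b with hcdef
  by_contra hcon
  push Not at hcon
  set d := T3 E w w w with hd
  have hmain := main_real hE hK hw
  rw [← hd] at hmain
  set A := ∑ a, ∑ b, ∑ c, w a * w b * w c * Zb E w a b c with hA
  have h7 : 0 < 1 - 7 * δ := by linarith
  have h71 : (1 - 7 * δ) ^ 2 ≤ 1 := by nlinarith
  have hc0 : 0 < c := by
    by_contra h0
    push Not at h0
    have : 45 * (1 - 7 * δ) ^ 2 * c ≤ 0 := mul_nonpos_of_nonneg_of_nonpos (by positivity) h0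
    linarith
  have hc45 : 1 ≤ 45 * c := by nlinarith
  -- the degrees of the vertices
  set r : V → ℝ := fun a => ∑ b, w b * p a b with hr
  have hr0 : ∀ a, 0 ≤ r a := fun a => sum_nonneg fun b _ => mul_nonneg (hw.1 b) (hp0 a b)
  have hr1 : ∀ a, r a ≤ 1 := fun a => by
    rw [← hw.2]
    exact sum_le_sum fun b _ => mul_le_of_le_one_right (hw.1 b) (hp1 a b)
  have hcr : c = ∑ a, w a * r a := by
    rw [hcdef, hr]
    simp only [mul_sum]
    refine sum_congr rfl fun a _ => sum_congr rfl fun b _ => ?_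
    ring
  set t : ℝ := 1 / (45 * c) with ht
  have ht0 : 0 < t := by positivity
  have ht1 : t ≤ 1 := by rw [ht, div_le_one (by positivity)]; exact hc45
  have htc : t * c = 1 / 45 := by rw [ht]; field_simp
  have hsig : ∑ a, w a * (t * r a) = 1 / 45 := by
    have : ∀ a, w a * (t * r a) = t * (w a * r a) := fun a => by ring
    rw [sum_congr rfl fun a _ => this a, ← mul_sum, ← hcr, htc]
  have hdel := deletion hE hK hw (f := fun a => t * r a) (fun a => mul_nonneg ht0.le (hr0 a))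
    (fun a => (mul_le_mul ht1 (hr1 a) (hr0 a) zero_le_one).trans (by norm_num)) (by rw [hsig]; norm_num)
  rw [hsig] at hdel
  set X := ∑ a, w a * r a * LL E w a with hX
  have hXt : ∑ a, w a * (t * r a) * LL E w a = t * X := by
    rw [hX, mul_sum]
    refine sum_congr rfl fun a _ => ?_
    ring
  rw [hXt, ← hd] at hdel
  have hX1 : 0.51525 * c ≤ X := by
    have h1 : 0.03435 ≤ 3 * (t * X) := by norm_num at hdel ⊢; linarith
    have h2 : (0.03435 : ℝ) * (45 * c) ≤ 3 * (t * X) * (45 * c) := mul_le_mul_of_nonneg_right h1 (by positivity)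
    have h3 : 3 * (t * X) * (45 * c) = 3 * X * (45 * (t * c)) := by ring
    rw [h3, htc] at h2
    norm_num at h2 ⊢
    linarith
  -- the sum of the linear functional
  have hXa : ∑ a, ∑ b, w a * w b * p a b * LL E w a = X := by
    rw [hX, hr]
    refine sum_congr rfl fun a _ => ?_
    simp only [mul_sum, sum_mul]
    refine sum_congr rfl fun b _ => ?_
    ring
  have hXb : ∑ a, ∑ b, w a * w b * p a b * LL E w b = X := by
    rw [← hXa, sum_comm]
    refine sum_congr rfl fun a _ => sum_congr rfl fun b _ => ?_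
    rw [hps a b]
    ring
  set lam := 36500 * (1 - 7 * δ) with hlam
  have hlam0 : 0 ≤ lam := by rw [hlam]; nlinarith
  have hab : ∀ a b, w a * w b * p a b * (2 * lam * ((10047 + 63153 * (LL E w a + LL E w b)
      + 64714 * d - 754593 * δ) / 3) - lam ^ 2)
      ≤ 4626 * (w a * w b * ∑ c, w c * Zb E w a b c) := by
    intro a b
    have h1 := unc_lower hE hK hw a b
    rw [← hd] at h1
    have h2 := unc_sq (E := E) hw a b
    have hww : 0 ≤ w a * w b := mul_nonneg (hw.1 a) (hw.1 b)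
    set G := GU E w a b with hG
    set Z := ∑ c, w c * Zb E w a b c with hZ
    have hZ0 : 0 ≤ Z := by nlinarith [sq_nonneg G]
    have h3 : p a b * (2 * lam * ((10047 + 63153 * (LL E w a + LL E w b)
        + 64714 * d - 754593 * δ) / 3) - lam ^ 2) ≤ p a b * (2 * lam * G - lam ^ 2) := by
      have h4 : p a b * ((10047 + 63153 * (LL E w a + LL E w b) + 64714 * d - 754593 * δ) / 3) ≤ p a b * G := by
        have h5 := hpc a b
        have h6 := mul_le_mul_of_nonneg_left h1 (hp0 a b)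
        linarith
      have h7 := mul_le_mul_of_nonneg_left h4 (show 0 ≤ 2 * lam by linarith)
      linarith
    have h8 : p a b * (2 * lam * G - lam ^ 2) ≤ 4626 * Z := by
      have h9 : 2 * lam * G - lam ^ 2 ≤ 4626 * Z := by nlinarith [sq_nonneg (G - lam)]
      have h10 := mul_le_mul_of_nonneg_left h9 (hp0 a b)
      have h11 : p a b * (4626 * Z) ≤ 1 * (4626 * Z) := mul_le_mul_of_nonneg_right (hp1 a b) (by linarith)
      linarith
    have h12 := mul_le_mul_of_nonneg_left (h3.trans h8) hww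
    linarith
  have hsumA : ∑ a, ∑ b, w a * w b * p a b * (2 * lam * ((10047 + 63153 * (LL E w a + LL E w b)
      + 64714 * d - 754593 * δ) / 3) - lam ^ 2) ≤ 4626 * A := by
    refine (sum_le_sum fun a _ => sum_le_sum fun b _ => hab a b).trans (le_of_eq ?_)
    rw [hA]
    simp only [mul_sum]
    refine sum_congr rfl fun a _ => sum_congr rfl fun b _ => sum_congr rfl fun c _ => ?_
    ring
  have hsumL : ∑ a, ∑ b, w a * w b * p a b * (2 * lam * ((10047 + 63153 * (LL E w a + LL E w b)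
      + 64714 * d - 754593 * δ) / 3) - lam ^ 2)
      = 2 * lam * ((10047 * c + 126306 * X + 64714 * d * c - 754593 * δ * c) / 3) - lam ^ 2 * c := by
    have : ∑ a, ∑ b, w a * w b * p a b * (2 * lam * ((10047 + 63153 * (LL E w a + LL E w b)
      + 64714 * d - 754593 * δ) / 3) - lam ^ 2)
      = (2 * lam * ((10047 + 64714 * d - 754593 * δ) / 3) - lam ^ 2) * (∑ a, ∑ b, w a * w b * p a b)
        + 2 * lam * 63153 / 3 * (∑ a, ∑ b, w a * w b * p a b * LL E w a)
        + 2 * lam * 63153 / 3 * (∑ a, ∑ b, w a * w b * p a b * LL E w b) := by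
      simp only [mul_sum, ← sum_add_distrib]
      refine sum_congr rfl fun a _ => sum_congr rfl fun b _ => ?_
      ring
    rw [this, hXa, hXb, ← hcdef]
    ring
  rw [hsumL, hlam] at hsumA
  exact fin2 hmain (unc_num hc0 hδ0 hδ1 hc hX1 hcon hsumA) hcon

end

end

end Pool.Agent.Q113.Cov
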