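import Pool.Agent.Q113.Cov.G6Ext

/-! Pairs of small codegree, for certificates with squares for the pairs of vertices. -/

set_option autoImplicit false
set_option linter.unusedSectionVars false
set_option maxRecDepth 100000
open Finset
open Pool.Agent.H122R2.N6

namespace Pool.Agent.Q113.Cov.UG

noncomputable section

section
variable {V : Type} [Fintype V] {E : V → V → V → ℕ}

theorem k1 {w : V → ℝ} (hw : ∑ v, w v = 1) (g : V → ℝ) : ∑ x, ∑ y, w x * w y * g x = ∑ x, w x * g x := by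
  refine sum_congr rfl fun x _ => ?_
  have : ∀ y, w x * w y * g x = w y * (w x * g x) := fun y => by ring
  rw [sum_congr rfl fun y _ => this y, ← sum_mul, hw, one_mul]

theorem k2 {w : V → ℝ} (hw : ∑ v, w v = 1) (g : V → ℝ) : ∑ x, ∑ y, w x * w y * g y = ∑ x, w x * g x := by
  rw [← k1 hw g, sum_comm]
  refine sum_congr rfl fun x _ => sum_congr rfl fun y _ => ?_
  ring

theorem s12 (F : V → V → V → ℝ) : ∑ c, ∑ x, ∑ y, F c x y = ∑ c, ∑ x, ∑ y, F x c y := by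
  rw [sum_comm]

theorem s23 (F : V → V → V → ℝ) : ∑ c, ∑ x, ∑ y, F c x y = ∑ c, ∑ x, ∑ y, F c y x :=
  sum_congr rfl fun _ _ => sum_comm

/-- the average of a linear functional of the flags of a pair -/
def GP (E : V → V → V → ℕ) (val : ℕ → ℝ) (w : V → ℝ) (a b : V) : ℝ :=
  ∑ x, ∑ y, w x * w y * val (cd4 (E a b x) (E a b y) (E a x y) (E b x y))

/-- lower bounds for the values of the functional -/
structure Low (val : ℕ → ℝ) (a0 a1 g : ℝ) : Prop where
  h : ∀ x y z u : ℕ, (x = 0 ∨ x = 1) → (y = 0 ∨ y = 1) → (z = 0 ∨ z = 1) → (u = 0 ∨ u = 1) →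
    a0 + a1 * ((z : ℝ) + u) - g / 2 * ((x : ℝ) + y) ≤ val (cd4 x y z u)

theorem GP_lower (hE : SE E) {val : ℕ → ℝ} {a0 a1 g : ℝ} (hv : Low val a0 a1 g) {w : V → ℝ}
    (hw : w ∈ stdSimplex ℝ V) (a b : V) :
    a0 + a1 * (LL E w a + LL E w b) - g * CC E w a b ≤ GP E val w a b := by
  have hs := hw.2
  have l0 : ∑ x, ∑ y, w x * w y * (1 : ℝ) = 1 := by
    rw [k1 hs (fun _ => 1)]
    simp only [mul_one]
    exact hs
  have l1 := k1 hs (fun x => (E a b x : ℝ))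
  have l2 := k2 hs (fun x => (E a b x : ℝ))
  have e : a0 + a1 * (LL E w a + LL E w b) - g * CC E w a b
      = ∑ x, ∑ y, w x * w y * (a0 + a1 * ((E a x y : ℝ) + E b x y) - g / 2 * ((E a b x : ℝ) + E a b y)) := by
    have : ∑ x, ∑ y, w x * w y * (a0 + a1 * ((E a x y : ℝ) + E b x y) - g / 2 * ((E a b x : ℝ) + E a b y))
        = a0 * (∑ x, ∑ y, w x * w y * (1 : ℝ)) + a1 * LL E w a + a1 * LL E w b
          - g / 2 * (∑ x, ∑ y, w x * w y * (E a b x : ℝ)) - g / 2 * (∑ x, ∑ y, w x * w y * (E a b y : ℝ)) := by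
      unfold LL
      simp only [mul_sum, ← sum_add_distrib, ← sum_sub_distrib]
      refine sum_congr rfl fun x _ => sum_congr rfl fun y _ => ?_
      ring
    rw [this, l0, l1, l2]
    unfold CC
    ring
  rw [e]
  unfold GP
  refine sum_le_sum fun x _ => sum_le_sum fun y _ => mul_le_mul_of_nonneg_left ?_ (mul_nonneg (hw.1 x) (hw.1 y))
  exact hv.h _ _ _ _ (hE.b _ _ _) (hE.b _ _ _) (hE.b _ _ _) (hE.b _ _ _)

theorem GP_sq (K : ℕ) (l : ℕ → ℕ → ℕ) (B : ℝ) (qq : ℕ → ℝ) (w : V → ℝ) (a b : V) :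
    GP E (fun c => ∑ k ∈ range K, qq k * ((l c k : ℝ) - B)) w a b ^ 2
      ≤ (∑ k ∈ range K, qq k ^ 2) * Zw E K l B w a b := by
  have h1 : GP E (fun c => ∑ k ∈ range K, qq k * ((l c k : ℝ) - B)) w a b
      = ∑ k ∈ range K, qq k * ∑ x, ∑ y, w x * w y *
        ((l (cd4 (E a b x) (E a b y) (E a x y) (E b x y)) k : ℝ) - B) := by
    unfold GP
    simp only [mul_sum]
    calc ∑ x, ∑ y, ∑ k ∈ range K, w x * w y *
          (qq k * ((l (cd4 (E a b x) (E a b y) (E a x y) (E b x y)) k : ℝ) - B))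
        = ∑ x, ∑ k ∈ range K, ∑ y, w x * w y *
          (qq k * ((l (cd4 (E a b x) (E a b y) (E a x y) (E b x y)) k : ℝ) - B)) :=
          sum_congr rfl fun x _ => sum_comm
      _ = ∑ k ∈ range K, ∑ x, ∑ y, w x * w y *
          (qq k * ((l (cd4 (E a b x) (E a b y) (E a x y) (E b x y)) k : ℝ) - B)) := sum_comm
      _ = _ := sum_congr rfl fun k _ => sum_congr rfl fun x _ => sum_congr rfl fun y _ => by ring
  rw [h1]
  unfold Zw
  exact Finset.sum_mul_sq_le_sq_mul_sq _ _ _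

theorem T3_scale {w : V → ℝ} (hw : ∀ v, 0 ≤ w v) (hs : 0 < ∑ v, w v) {Kb : ℝ}
    (h : ∀ w ∈ stdSimplex ℝ V, T3 E w w w ≤ Kb) : T3 E w w w ≤ Kb * (∑ v, w v) ^ 3 := by
  set s := ∑ v, w v with hsd
  have hw' : (fun v => w v / s) ∈ stdSimplex ℝ V := by
    refine ⟨fun v => div_nonneg (hw v) hs.le, ?_⟩
    show ∑ v, w v / s = 1
    rw [← sum_div, ← hsd, div_self hs.ne']
  have h1 := h _ hw'
  have h2 : T3 E (fun v => w v / s) (fun v => w v / s) (fun v => w v / s) = T3 E w w w / s ^ 3 := by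
    unfold T3
    simp only [sum_div]
    refine sum_congr rfl fun a _ => sum_congr rfl fun b _ => sum_congr rfl fun c _ => ?_
    field_simp
  rw [h2, div_le_iff₀ (by positivity)] at h1
  exact h1

/-- a part of the weights is deleted -/
theorem deletion (hE : SE E) {Kb : ℝ} (hKb : ∀ w ∈ stdSimplex ℝ V, T3 E w w w ≤ Kb)
    {w : V → ℝ} (hw : w ∈ stdSimplex ℝ V) {f : V → ℝ}
    (hf0 : ∀ a, 0 ≤ f a) (hf1 : ∀ a, f a ≤ 1) (hσ : ∑ a, w a * f a < 1) :
    T3 E w w w - 3 * ∑ a, w a * f a * LL E w a ≤ Kb * (1 - ∑ a, w a * f a) ^ 3 := by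
  set w' : V → ℝ := fun a => w a * (1 - f a) with hw'
  have hs' : ∑ a, w' a = 1 - ∑ a, w a * f a := by
    have : ∀ a, w' a = w a - w a * f a := fun a => by rw [hw']; ring
    rw [sum_congr rfl fun a _ => this a, sum_sub_distrib, hw.2]
  have h1 := T3_scale (w := w') (fun a => mul_nonneg (hw.1 a) (by linarith [hf1 a])) (by rw [hs']; linarith) hKb
  rw [hs'] at h1
  refine le_trans ?_ h1
  have hsum : ∑ a, w a * f a * LL E w a = ∑ a, ∑ b, ∑ c, w a * w b * w c * (E a b c : ℝ) * f a := by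
    unfold LL
    simp only [mul_sum]
    refine sum_congr rfl fun a _ => sum_congr rfl fun b _ => sum_congr rfl fun c _ => ?_
    ring
  have hsum2 : ∑ a, w a * f a * LL E w a = ∑ a, ∑ b, ∑ c, w a * w b * w c * (E a b c : ℝ) * f b := by
    rw [hsum, s12]
    refine sum_congr rfl fun a _ => sum_congr rfl fun b _ => sum_congr rfl fun c _ => ?_
    rw [hE.h213 a b c]
    ring
  have hsum3 : ∑ a, w a * f a * LL E w a = ∑ a, ∑ b, ∑ c, w a * w b * w c * (E a b c : ℝ) * f c := by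
    rw [hsum2, s23]
    refine sum_congr rfl fun a _ => sum_congr rfl fun b _ => sum_congr rfl fun c _ => ?_
    rw [hE.h132 a b c]
    ring
  have h3 : 3 * ∑ a, w a * f a * LL E w a
      = ∑ a, ∑ b, ∑ c, w a * w b * w c * (E a b c : ℝ) * (f a + f b + f c) := by
    have : 3 * ∑ a, w a * f a * LL E w a = ∑ a, ∑ b, ∑ c, w a * w b * w c * (E a b c : ℝ) * f a
        + ∑ a, ∑ b, ∑ c, w a * w b * w c * (E a b c : ℝ) * f b
        + ∑ a, ∑ b, ∑ c, w a * w b * w c * (E a b c : ℝ) * f c := by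
      rw [← hsum, ← hsum2, ← hsum3]
      ring
    rw [this]
    simp only [← sum_add_distrib]
    refine sum_congr rfl fun a _ => sum_congr rfl fun b _ => sum_congr rfl fun c _ => ?_
    ring
  rw [h3]
  unfold T3
  simp only [← sum_sub_distrib]
  refine sum_le_sum fun a _ => sum_le_sum fun b _ => sum_le_sum fun c _ => ?_
  have hE0 : (0 : ℝ) ≤ (E a b c : ℝ) := Nat.cast_nonneg _
  have hp : 0 ≤ w a * w b * w c * (E a b c : ℝ) :=
    mul_nonneg (mul_nonneg (mul_nonneg (hw.1 a) (hw.1 b)) (hw.1 c)) hE0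
  have hw3 : 1 - (f a + f b + f c) ≤ (1 - f a) * (1 - f b) * (1 - f c) := by
    have h1 := mul_nonneg (hf0 a) (hf0 b)
    have h2 := mul_nonneg (mul_nonneg (hf0 a) (hf0 b)) (sub_nonneg.mpr (hf1 c))
    have h3 := mul_nonneg (hf0 c) (hf0 a)
    have h4 := mul_nonneg (hf0 c) (hf0 b)
    nlinarith
  have := mul_le_mul_of_nonneg_left hw3 hp
  simp only [hw']
  linarith

theorem num_G {c X Y δ R κ M a0 a1 g N tt Kb : ℝ} (hc0 : 0 < c) (hδ0 : 0 ≤ δ)
    (hδ1 : κ * δ < 1) (hR : 0 < R) (hM : 0 ≤ M) (ha1 : 0 ≤ a1)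
    (hc : 1 ≤ R * (1 - κ * δ) ^ 2 * c)
    (hX1 : (tt - Kb * (1 - 1 / R) ^ 3) * R / 3 * c ≤ X)
    (hV1 : M ≤ a0 + 2 * a1 * ((tt - Kb * (1 - 1 / R) ^ 3) * R / 3))
    (hV2 : g ≤ κ * (a0 + 2 * a1 * ((tt - Kb * (1 - 1 / R) ^ 3) * R / 3)))
    (h : 2 * (M * (1 - κ * δ)) * (a0 * c + 2 * a1 * X - g * δ * c) - (M * (1 - κ * δ)) ^ 2 * c ≤ N * Y) :
    M ^ 2 / R ≤ N * Y := by
  set x := (tt - Kb * (1 - 1 / R) ^ 3) * R / 3 with hx
  set V := a0 + 2 * a1 * x with hV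
  have h1 : V * c - g * δ * c ≤ a0 * c + 2 * a1 * X - g * δ * c := by
    have := mul_le_mul_of_nonneg_left hX1 (show 0 ≤ 2 * a1 by linarith)
    rw [hV]
    linarith
  have h2 : M * (1 - κ * δ) ≤ V - g * δ := by
    have h3 := mul_le_mul_of_nonneg_right hV1 (show 0 ≤ 1 - κ * δ by linarith)
    have h4 := mul_le_mul_of_nonneg_right hV2 hδ0
    linarith
  have hl0 : 0 ≤ M * (1 - κ * δ) := mul_nonneg hM (by linarith)
  have h5 : M * (1 - κ * δ) * c ≤ a0 * c + 2 * a1 * X - g * δ * c := by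
    have := mul_le_mul_of_nonneg_right h2 hc0.le
    linarith
  have h6 := mul_le_mul_of_nonneg_left h5 (show 0 ≤ 2 * (M * (1 - κ * δ)) by linarith)
  have h7 : (M * (1 - κ * δ)) ^ 2 * c ≤ N * Y := by linarith
  refine le_trans ?_ h7
  rw [div_le_iff₀ hR]
  have e : (M * (1 - κ * δ)) ^ 2 * c * R = M ^ 2 * (R * (1 - κ * δ) ^ 2 * c) := by ring
  rw [e]
  exact le_mul_of_one_le_right (sq_nonneg M) hc

theorem pt_ineq {p G m Z lam N ww : ℝ} (hp0 : 0 ≤ p) (hp1 : p ≤ 1) (hlam0 : 0 ≤ lam) (h4 : p * m ≤ p * G)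
    (h2 : G ^ 2 ≤ N * Z) (hww : 0 ≤ ww) : ww * p * (2 * lam * m - lam ^ 2) ≤ N * (ww * Z) := by
  have h3 : p * (2 * lam * m - lam ^ 2) ≤ p * (2 * lam * G - lam ^ 2) := by
    have h7 := mul_le_mul_of_nonneg_left h4 (show 0 ≤ 2 * lam by linarith)
    linarith
  have h8 : p * (2 * lam * G - lam ^ 2) ≤ N * Z := by
    have h9 : 2 * lam * G - lam ^ 2 ≤ N * Z := by nlinarith [sq_nonneg (G - lam)]
    have h10 := mul_le_mul_of_nonneg_left h9 hp0
    have h0 : 0 ≤ N * Z := (sq_nonneg G).trans h2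
    have h11 : p * (N * Z) ≤ 1 * (N * Z) := mul_le_mul_of_nonneg_right hp1 h0
    linarith
  have h12 := mul_le_mul_of_nonneg_left (h3.trans h8) hww
  linarith

/-- many pairs of codegree at most `δ` -/
theorem small_gen (hE : SE E) (K : ℕ) (l : ℕ → ℕ → ℕ) (B : ℝ) (qq : ℕ → ℝ) {pp q r Kb tt R κ M a0 a1 g : ℝ}
    (hpp : 0 ≤ pp) (hq : 0 ≤ q) (htt : 0 ≤ tt)
    (hmain : ∀ w ∈ stdSimplex ℝ V,
      pp * T3 E w w w + q * T3 E w w w ^ 2 + 1890 * ∑ a, ∑ b, w a * w b * Zw E K l B w a b ≤ r)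
    (hKb : ∀ w ∈ stdSimplex ℝ V, T3 E w w w ≤ Kb)
    (hlow : Low (fun c => ∑ k ∈ range K, qq k * ((l c k : ℝ) - B)) a0 a1 g)
    (hR : 1 < R) (hM : 0 ≤ M) (ha1 : 0 ≤ a1) (hκ : 0 ≤ κ)
    (hV1 : M ≤ a0 + 2 * a1 * ((tt - Kb * (1 - 1 / R) ^ 3) * R / 3))
    (hV2 : g ≤ κ * (a0 + 2 * a1 * ((tt - Kb * (1 - 1 / R) ^ 3) * R / 3)))
    (hg : 0 ≤ g)
    (hfin : r * (∑ k ∈ range K, qq k ^ 2) * R
      < (pp * tt + q * tt ^ 2) * (∑ k ∈ range K, qq k ^ 2) * R + 1890 * M ^ 2)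
    (hN : 0 < ∑ k ∈ range K, qq k ^ 2)
    {w : V → ℝ} (hw : w ∈ stdSimplex ℝ V) {δ : ℝ} (hδ0 : 0 ≤ δ)
    (hδ1 : κ * δ < 1) (p : V → V → ℝ) (hp0 : ∀ a b, 0 ≤ p a b) (hp1 : ∀ a b, p a b ≤ 1)
    (hps : ∀ a b, p b a = p a b) (hpc : ∀ a b, p a b * CC E w a b ≤ p a b * δ)
    (hc : 1 ≤ R * (1 - κ * δ) ^ 2 * ∑ a, ∑ b, w a * w b * p a b) : T3 E w w w ≤ tt := by
  set c := ∑ a, ∑ b, w a * w b * p a b with hcdef
  by_contra hcon
  push Not at hcon
  set d := T3 E w w w with hd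
  have hm := hmain w hw
  rw [← hd] at hm
  set N := ∑ k ∈ range K, qq k ^ 2 with hNdef
  set A := ∑ a, ∑ b, w a * w b * Zw E K l B w a b with hA
  have h7 : 0 < 1 - κ * δ := by linarith
  have h71 : (1 - κ * δ) ^ 2 ≤ 1 := by
    have : 0 ≤ κ * δ := mul_nonneg hκ hδ0
    nlinarith
  have hR0 : 0 < R := by linarith
  have hc0 : 0 < c := by
    by_contra h0
    push Not at h0
    have : R * (1 - κ * δ) ^ 2 * c ≤ 0 := mul_nonpos_of_nonneg_of_nonpos (by positivity) h0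
    linarith
  have hcR : 1 ≤ R * c := by
    have : R * (1 - κ * δ) ^ 2 * c = (1 - κ * δ) ^ 2 * (R * c) := by ring
    rw [this] at hc
    have h0 : 0 ≤ R * c := by positivity
    nlinarith
  set r' : V → ℝ := fun a => ∑ b, w b * p a b with hr
  have hr0 : ∀ a, 0 ≤ r' a := fun a => sum_nonneg fun b _ => mul_nonneg (hw.1 b) (hp0 a b)
  have hr1 : ∀ a, r' a ≤ 1 := fun a => by
    rw [← hw.2]
    exact sum_le_sum fun b _ => mul_le_of_le_one_right (hw.1 b) (hp1 a b)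
  have hcr : c = ∑ a, w a * r' a := by
    rw [hcdef, hr]
    simp only [mul_sum]
    refine sum_congr rfl fun a _ => sum_congr rfl fun b _ => ?_
    ring
  set t : ℝ := 1 / (R * c) with ht
  have ht0 : 0 < t := by positivity
  have ht1 : t ≤ 1 := by rw [ht, div_le_one (by positivity)]; exact hcR
  have htc : t * c = 1 / R := by rw [ht]; field_simp
  have hsig : ∑ a, w a * (t * r' a) = 1 / R := by
    have : ∀ a, w a * (t * r' a) = t * (w a * r' a) := fun a => by ring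
    rw [sum_congr rfl fun a _ => this a, ← mul_sum, ← hcr, htc]
  have hR1 : 1 / R < 1 := by rw [div_lt_one hR0]; exact hR
  have hdel := deletion hE hKb hw (f := fun a => t * r' a) (fun a => mul_nonneg ht0.le (hr0 a))
    (fun a => (mul_le_mul ht1 (hr1 a) (hr0 a) zero_le_one).trans (by norm_num)) (by rw [hsig]; exact hR1)
  rw [hsig] at hdel
  set X := ∑ a, w a * r' a * LL E w a with hX
  have hXt : ∑ a, w a * (t * r' a) * LL E w a = t * X := by
    rw [hX, mul_sum]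
    refine sum_congr rfl fun a _ => ?_
    ring
  rw [hXt, ← hd] at hdel
  have hX1 : (tt - Kb * (1 - 1 / R) ^ 3) * R / 3 * c ≤ X := by
    have h1 : tt - Kb * (1 - 1 / R) ^ 3 ≤ 3 * (t * X) := by linarith
    have h2 := mul_le_mul_of_nonneg_right h1 (show 0 ≤ R * c by positivity)
    have h3 : 3 * (t * X) * (R * c) = 3 * X * (R * (t * c)) := by ring
    have h4 : R * (t * c) = 1 := by rw [htc]; field_simp
    rw [h3, h4] at h2
    linarith
  have hXa : ∑ a, ∑ b, w a * w b * p a b * LL E w a = X := by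
    rw [hX, hr]
    refine sum_congr rfl fun a _ => ?_
    simp only [mul_sum, sum_mul]
    refine sum_congr rfl fun b _ => ?_
    ring
  have hXb : ∑ a, ∑ b, w a * w b * p a b * LL E w b = X := by
    rw [← hXa, sum_comm]
    refine sum_congr rfl fun a _ => sum_congr rfl fun b _ => ?_
    rw [hps a b]
    ring
  set lam := M * (1 - κ * δ) with hlam
  have hlam0 : 0 ≤ lam := mul_nonneg hM h7.le
  have hab : ∀ a b, w a * w b * p a b * (2 * lam * (a0 + a1 * (LL E w a + LL E w b) - g * δ) - lam ^ 2)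
      ≤ N * (w a * w b * Zw E K l B w a b) := by
    intro a b
    have h1 := GP_lower hE hlow hw a b
    have h2 := GP_sq (E := E) K l B qq w a b
    rw [← hNdef] at h2
    refine pt_ineq (hp0 a b) (hp1 a b) hlam0 ?_ h2 (mul_nonneg (hw.1 a) (hw.1 b))
    have h5 := mul_le_mul_of_nonneg_left (hpc a b) hg
    have h6 := mul_le_mul_of_nonneg_left h1 (hp0 a b)
    linarith
  have hsumA : ∑ a, ∑ b, w a * w b * p a b *
      (2 * lam * (a0 + a1 * (LL E w a + LL E w b) - g * δ) - lam ^ 2) ≤ N * A := by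
    refine (sum_le_sum fun a _ => sum_le_sum fun b _ => hab a b).trans (le_of_eq ?_)
    rw [hA]
    simp only [mul_sum]
  have hsumL : ∑ a, ∑ b, w a * w b * p a b *
      (2 * lam * (a0 + a1 * (LL E w a + LL E w b) - g * δ) - lam ^ 2)
      = 2 * lam * (a0 * c + 2 * a1 * X - g * δ * c) - lam ^ 2 * c := by
    have : ∑ a, ∑ b, w a * w b * p a b *
      (2 * lam * (a0 + a1 * (LL E w a + LL E w b) - g * δ) - lam ^ 2)
      = (2 * lam * (a0 - g * δ) - lam ^ 2) * (∑ a, ∑ b, w a * w b * p a b)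
        + 2 * lam * a1 * (∑ a, ∑ b, w a * w b * p a b * LL E w a)
        + 2 * lam * a1 * (∑ a, ∑ b, w a * w b * p a b * LL E w b) := by
      simp only [mul_sum, ← sum_add_distrib]
      refine sum_congr rfl fun a _ => sum_congr rfl fun b _ => ?_
      ring
    rw [this, hXa, hXb, ← hcdef]
    ring
  rw [hsumL, hlam] at hsumA
  have h8 := num_G hc0 hδ0 hδ1 hR0 hM ha1 hc hX1 hV1 hV2 hsumA
  rw [div_le_iff₀ hR0] at h8
  have h9 : pp * tt + q * tt ^ 2 ≤ pp * d + q * d ^ 2 := by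
    have h10 : tt ^ 2 ≤ d ^ 2 := pow_le_pow_left₀ htt hcon.le 2
    have h11 := mul_le_mul_of_nonneg_left hcon.le hpp
    have h12 := mul_le_mul_of_nonneg_left h10 hq
    linarith
  have h13 : (pp * tt + q * tt ^ 2 + 1890 * A) * (N * R) ≤ r * (N * R) :=
    mul_le_mul_of_nonneg_right (by linarith) (by positivity)
  have e1 : (pp * tt + q * tt ^ 2 + 1890 * A) * (N * R)
      = (pp * tt + q * tt ^ 2) * N * R + 1890 * (N * A * R) := by ring
  rw [e1] at h13
  have e2 : r * (N * R) = r * N * R := by ring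
  rw [e2] at h13
  linarith

end

end

end Pool.Agent.Q113.Cov.UG
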