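import Pool.Agent.Q113.Cov.Fin56
import Pool.Agent.Q113.Cov.UncG

/-! Pairs of small codegree in `K_5^3`-free and `K_6^3`-free 3-graphs. -/

set_option autoImplicit false
set_option maxRecDepth 100000
open Finset
open scoped Classical
open Pool.Agent.H122R2.N6

namespace Pool.Agent.Q113.Cov.W56

noncomputable section

theorem sum_tri_le {V : Type} [Fintype V] {H : Finset (Finset V)} (h3 : ∀ e ∈ H, e.card = 3) (a b : V) :
    ∑ c, (tri H a b c : ℝ) ≤ ((H.filter fun e => a ∈ e ∧ b ∈ e).card : ℝ) := by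
  have h1 : ∑ c, (tri H a b c : ℝ) = ((univ.filter fun c => ({a, b, c} : Finset V) ∈ H).card : ℝ) := by
    rw [card_filter]
    push_cast
    refine sum_congr rfl fun c _ => ?_
    unfold tri
    split_ifs <;> simp
  rw [h1]
  norm_cast
  refine card_le_card_of_injOn (fun c => ({a, b, c} : Finset V)) ?_ ?_
  · intro c hc
    have hc' := (mem_filter.mp hc).2
    refine mem_filter.mpr ⟨hc', by simp, by simp⟩
  · intro c hc c' hc' h
    have hc1 := (mem_filter.mp hc).2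
    have hd := distinct_of_mem h3 hc1
    have hm : c ∈ ({a, b, c'} : Finset V) := by
      have h' : ({a, b, c} : Finset V) = {a, b, c'} := h
      rw [← h']
      simp
    simp only [mem_insert, mem_singleton] at hm
    rcases hm with rfl | rfl | rfl
    · exact absurd rfl hd.2.1
    · exact absurd rfl hd.2.2
    · rfl

/-- the same for any set containing these edges -/
theorem sum_tri_le_of {V : Type} [Fintype V] {H : Finset (Finset V)} (h3 : ∀ e ∈ H, e.card = 3) {a b : V}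
    {S : Finset (Finset V)} (hS : ∀ e ∈ H, a ∈ e → b ∈ e → e ∈ S) :
    ∑ c, (tri H a b c : ℝ) ≤ (S.card : ℝ) := by
  refine (sum_tri_le h3 a b).trans ?_
  norm_cast
  refine card_le_card fun e he => ?_
  rw [mem_filter] at he
  exact hS e he.1 he.2.1 he.2.2

theorem two_card_le {V : Type} [Fintype V] (P : Finset (Finset V)) (hP : ∀ s ∈ P, s.card = 2) :
    2 * P.card ≤ (univ.filter fun t : V × V => t.1 ≠ t.2 ∧ ∃ s ∈ P, t.1 ∈ s ∧ t.2 ∈ s).card := by
  have hmap : ∀ t ∈ (univ.filter fun t : V × V => t.1 ≠ t.2 ∧ ∃ s ∈ P, t.1 ∈ s ∧ t.2 ∈ s),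
      ({t.1, t.2} : Finset V) ∈ P := by
    intro t ht
    obtain ⟨hne, s, hs, h1, h2⟩ := (mem_filter.mp ht).2
    have hsub : ({t.1, t.2} : Finset V) ⊆ s := by
      intro x hx
      rw [mem_insert, mem_singleton] at hx
      rcases hx with rfl | rfl
      exacts [h1, h2]
    rw [eq_of_subset_of_card_le hsub (by rw [hP s hs, card_pair hne])]
    exact hs
  rw [card_eq_sum_card_fiberwise hmap, mul_comm, ← smul_eq_mul]
  refine card_nsmul_le_sum _ _ _ fun s hs => ?_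
  obtain ⟨x, y, hxy, rfl⟩ := Finset.card_eq_two.mp (hP s hs)
  have hsub : ({(x, y), (y, x)} : Finset (V × V)) ⊆
      ((univ.filter fun t : V × V => t.1 ≠ t.2 ∧ ∃ s ∈ P, t.1 ∈ s ∧ t.2 ∈ s).filter
        fun t : V × V => ({t.1, t.2} : Finset V) = {x, y}) := by
    intro t ht
    rw [mem_insert, mem_singleton] at ht
    rw [mem_filter, mem_filter]
    rcases ht with rfl | rfl
    · exact ⟨⟨mem_univ _, hxy, _, hs, by simp, by simp⟩, rfl⟩
    · exact ⟨⟨mem_univ _, hxy.symm, _, hs, by simp, by simp⟩, pair_comm _ _⟩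
  have h2 := card_le_card hsub
  rwa [card_pair (by intro h; exact hxy (Prod.mk.inj h).1)] at h2

/-- the form with counting measure -/
theorem small_codeg_count {V : Type} [Fintype V] {H : Finset (Finset V)} (h3 : ∀ e ∈ H, e.card = 3)
    (F : ℝ) (n : ℕ) (hn0 : 0 < n)
    (h : T3 (tri H) (fun _ => (1 : ℝ) / n) (fun _ => (1 : ℝ) / n) (fun _ => (1 : ℝ) / n) ≤ F) :
    6 * (H.card : ℝ) ≤ F * (n : ℝ) ^ 3 := by
  have hnr : (0 : ℝ) < n := by exact_mod_cast hn0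
  have h6 := six_weight_le (w := fun _ : V => (1 : ℝ) / n) h3 (fun v => by positivity)
  have hscale : ∑ e ∈ H, ∏ _v ∈ e, (1 : ℝ) / n = H.card / (n : ℝ) ^ 3 := by
    have : ∀ e ∈ H, ∏ _v ∈ e, (1 : ℝ) / n = 1 / (n : ℝ) ^ 3 := by
      intro e he
      rw [prod_const, h3 e he, div_pow, one_pow]
    rw [sum_congr rfl this, sum_const, nsmul_eq_mul]
    ring
  rw [hscale] at h6
  have h7 := h6.trans h
  rw [← mul_div_assoc, div_le_iff₀ (by positivity)] at h7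
  exact h7

/-- the average of a relation on pairs from the number of pairs -/
theorem avg_pairs {V : Type} [Fintype V] (n : ℕ) (hn0 : 0 < n) (P : Finset (Finset V))
    (hP : ∀ s ∈ P, s.card = 2) :
    2 * (P.card : ℝ) / (n : ℝ) ^ 2 ≤ ∑ a : V, ∑ b : V, (1 : ℝ) / n * (1 / n) *
      (if a ≠ b ∧ ∃ s ∈ P, a ∈ s ∧ b ∈ s then 1 else 0) := by
  have hnr : (0 : ℝ) < n := by exact_mod_cast hn0
  have h1 := two_card_le P hP
  have hsum : ∑ a : V, ∑ b : V, (1 : ℝ) / n * (1 / n) * (if a ≠ b ∧ ∃ s ∈ P, a ∈ s ∧ b ∈ s then 1 else 0)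
      = 1 / n * (1 / n) * ((univ.filter fun t : V × V => t.1 ≠ t.2 ∧ ∃ s ∈ P, t.1 ∈ s ∧ t.2 ∈ s).card : ℝ) := by
    rw [card_filter]
    push_cast
    rw [Fintype.sum_prod_type]
    simp only [mul_sum]
  rw [hsum]
  have h2 : 2 * (P.card : ℝ) ≤ ((univ.filter fun t : V × V =>
      t.1 ≠ t.2 ∧ ∃ s ∈ P, t.1 ∈ s ∧ t.2 ∈ s).card : ℝ) := by exact_mod_cast h1
  rw [div_le_iff₀ (by positivity)]
  refine h2.trans (le_of_eq ?_)
  field_simp


open Pool.Agent.Q113.Cov.UG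

section
variable {V : Type} [Fintype V] {E : V → V → V → ℕ}

theorem main5 (hE : Sy E) (hK : Pool.Agent.H37R3.K5.NoK5 E) {w : V → ℝ} (hw : w ∈ stdSimplex ℝ V) :
    4112255280 * T3 E w w w + 827302560 * T3 E w w w ^ 2
      + 1890 * ∑ a, ∑ b, w a * w b * Zw E 3 Pool.Agent.W909.K5T.l2 32768 w a b ≤ 3616223226 := by
  have h := F2r_real E 3 Pool.Agent.W909.K5T.l2 32768 4112255280 827302560 3616223226 (fun n => ?_) hw
  · push_cast at h
    exact h
  · have hE1 : Sy (bl E n) := ⟨fun x y z => hE.b _ _ _, fun x y z => hE.h213 _ _ _, fun x y z => hE.h132 _ _ _⟩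
    exact Pool.Agent.Q113.Cov.C5.main_ext hE1 (fun a b c d e => hK _ _ _ _ _)

theorem main6 (hE : Sy E) (hK : Pool.Agent.W843.K6.NoK6 E) {w : V → ℝ} (hw : w ∈ stdSimplex ℝ V) :
    5376000000 * T3 E w w w + 0 * T3 E w w w ^ 2
      + 1890 * ∑ a, ∑ b, w a * w b * Zw E 4 Pool.Agent.W909.K6T.l2 32768 w a b ≤ 4605435120 := by
  have h := F2r_real E 4 Pool.Agent.W909.K6T.l2 32768 5376000000 0 4605435120 (fun n => ?_) hw
  · push_cast at h
    exact h
  · have hE1 : Sy (bl E n) := ⟨fun x y z => hE.b _ _ _, fun x y z => hE.h213 _ _ _, fun x y z => hE.h132 _ _ _⟩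
    exact Pool.Agent.Q113.Cov.C6.main_ext hE1 (fun a b c d e f => hK _ _ _ _ _ _)

def q5 (k : ℕ) : ℝ := if k = 0 then 55 else if k = 1 then -6 else 0
def q6 (k : ℕ) : ℝ := if k = 1 then 23 else if k = 2 then 33 else if k = 3 then 2 else 0

def v5 (c : ℕ) : ℤ := 55 * ((Pool.Agent.W909.K5T.l2 c 0 : ℤ) - 32768) - 6 * ((Pool.Agent.W909.K5T.l2 c 1 : ℤ) - 32768)
def v6 (c : ℕ) : ℤ := 23 * ((Pool.Agent.W909.K6T.l2 c 1 : ℤ) - 32768) + 33 * ((Pool.Agent.W909.K6T.l2 c 2 : ℤ) - 32768)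
  + 2 * ((Pool.Agent.W909.K6T.l2 c 3 : ℤ) - 32768)

theorem t5 : ∀ x : ℕ, x < 2 → ∀ y : ℕ, y < 2 → ∀ z : ℕ, z < 2 → ∀ u : ℕ, u < 2 →
    28560 + 28040 * ((z : ℤ) + u) - 77452 * ((x : ℤ) + y) ≤ v5 (cd4 x y z u) := by decide +kernel

theorem t6 : ∀ x : ℕ, x < 2 → ∀ y : ℕ, y < 2 → ∀ z : ℕ, z < 2 → ∀ u : ℕ, u < 2 →
    -20832 + 46703 * ((z : ℤ) + u) - 65151 * ((x : ℤ) + y) ≤ v6 (cd4 x y z u) := by decide +kernel

theorem low5 : Low (fun c => ∑ k ∈ range 3, q5 k * ((Pool.Agent.W909.K5T.l2 c k : ℝ) - 32768)) 28560 28040 154904 where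
  h x y z u hx hy hz hu := by
    have h := t5 x (by omega) y (by omega) z (by omega) u (by omega)
    have e : ∑ k ∈ range 3, q5 k * ((Pool.Agent.W909.K5T.l2 (cd4 x y z u) k : ℝ) - 32768) = (v5 (cd4 x y z u) : ℝ) := by
      rw [sum_range_succ, sum_range_succ, sum_range_succ, sum_range_zero]
      unfold q5 v5
      push_cast
      norm_num
      ring
    show _ ≤ ∑ k ∈ range 3, q5 k * ((Pool.Agent.W909.K5T.l2 (cd4 x y z u) k : ℝ) - 32768)
    rw [e]
    have h' : (28560 + 28040 * ((z : ℝ) + u) - 77452 * ((x : ℝ) + y)) ≤ (v5 (cd4 x y z u) : ℝ) := by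
      exact_mod_cast h
    linarith

theorem low6 : Low (fun c => ∑ k ∈ range 4, q6 k * ((Pool.Agent.W909.K6T.l2 c k : ℝ) - 32768)) (-20832) 46703 130302 where
  h x y z u hx hy hz hu := by
    have h := t6 x (by omega) y (by omega) z (by omega) u (by omega)
    have e : ∑ k ∈ range 4, q6 k * ((Pool.Agent.W909.K6T.l2 (cd4 x y z u) k : ℝ) - 32768) = (v6 (cd4 x y z u) : ℝ) := by
      rw [sum_range_succ, sum_range_succ, sum_range_succ, sum_range_succ, sum_range_zero]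
      unfold q6 v6
      push_cast
      norm_num
    show _ ≤ ∑ k ∈ range 4, q6 k * ((Pool.Agent.W909.K6T.l2 (cd4 x y z u) k : ℝ) - 32768)
    rw [e]
    have h' : (-20832 + 46703 * ((z : ℝ) + u) - 65151 * ((x : ℝ) + y)) ≤ (v6 (cd4 x y z u) : ℝ) := by
      exact_mod_cast h
    linarith

theorem n5 : ∑ k ∈ range 3, q5 k ^ 2 = 3061 := by
  rw [sum_range_succ, sum_range_succ, sum_range_succ, sum_range_zero]
  unfold q5
  norm_num

theorem n6 : ∑ k ∈ range 4, q6 k ^ 2 = 1622 := by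
  rw [sum_range_succ, sum_range_succ, sum_range_succ, sum_range_succ, sum_range_zero]
  unfold q6
  norm_num

theorem small5 (hE : Sy E) (hz : ∀ x y, E x x y = 0) (hK : Pool.Agent.H37R3.K5.NoK5 E)
    {w : V → ℝ} (hw : w ∈ stdSimplex ℝ V) {δ : ℝ} (hδ0 : 0 ≤ δ)
    (hδ1 : 5 / 2 * δ < 1) (p : V → V → ℝ) (hp0 : ∀ a b, 0 ≤ p a b) (hp1 : ∀ a b, p a b ≤ 1)
    (hps : ∀ a b, p b a = p a b) (hpc : ∀ a b, p a b * CC E w a b ≤ p a b * δ)
    (hc : 1 ≤ 35 * (1 - 5 / 2 * δ) ^ 2 * ∑ a, ∑ b, w a * w b * p a b) : T3 E w w w ≤ 3 / 4 := by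
  have hSE : SE E := ⟨hE.b, hE.h213, hE.h132, hz⟩
  refine small_gen hSE 3 Pool.Agent.W909.K5T.l2 32768 q5 (pp := 4112255280) (q := 827302560) (r := 3616223226)
    (Kb := 0.76244) (R := 35) (κ := 5 / 2) (M := 61900) (by norm_num) (by norm_num) (by norm_num)
    (fun w hw => main5 hE hK hw) (fun w hw => ?_) low5 (by norm_num) (by norm_num) (by norm_num) (by norm_num)
    (by norm_num) (by norm_num) (by norm_num) (by rw [n5]; norm_num) (by rw [n5]; norm_num)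
    hw hδ0 hδ1 p hp0 hp1 hps hpc hc
  have h := main5 hE hK hw
  have hZ : 0 ≤ ∑ a, ∑ b, w a * w b * Zw E 3 Pool.Agent.W909.K5T.l2 32768 w a b :=
    sum_nonneg fun a _ => sum_nonneg fun b _ => mul_nonneg (mul_nonneg (hw.1 a) (hw.1 b)) (Zw_nonneg _ _ _ _ _ _ _)
  by_contra hcon
  push Not at hcon
  nlinarith

theorem small6 (hE : Sy E) (hz : ∀ x y, E x x y = 0) (hK : Pool.Agent.W843.K6.NoK6 E)
    {w : V → ℝ} (hw : w ∈ stdSimplex ℝ V) {δ : ℝ} (hδ0 : 0 ≤ δ)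
    (hδ1 : 3 * δ < 1) (p : V → V → ℝ) (hp0 : ∀ a b, 0 ≤ p a b) (hp1 : ∀ a b, p a b ≤ 1)
    (hps : ∀ a b, p b a = p a b) (hpc : ∀ a b, p a b * CC E w a b ≤ p a b * δ)
    (hc : 1 ≤ 24 * (1 - 3 * δ) ^ 2 * ∑ a, ∑ b, w a * w b * p a b) : T3 E w w w ≤ 21 / 25 := by
  have hSE : SE E := ⟨hE.b, hE.h213, hE.h132, hz⟩
  refine small_gen hSE 4 Pool.Agent.W909.K6T.l2 32768 q6 (pp := 5376000000) (q := 0) (r := 4605435120)
    (Kb := 0.85667) (R := 24) (κ := 3) (M := 43000) (by norm_num) (by norm_num) (by norm_num)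
    (fun w hw => main6 hE hK hw) (fun w hw => ?_) low6 (by norm_num) (by norm_num) (by norm_num) (by norm_num)
    (by norm_num) (by norm_num) (by norm_num) (by rw [n6]; norm_num) (by rw [n6]; norm_num)
    hw hδ0 hδ1 p hp0 hp1 hps hpc hc
  have h := main6 hE hK hw
  have hZ : 0 ≤ ∑ a, ∑ b, w a * w b * Zw E 4 Pool.Agent.W909.K6T.l2 32768 w a b :=
    sum_nonneg fun a _ => sum_nonneg fun b _ => mul_nonneg (mul_nonneg (hw.1 a) (hw.1 b)) (Zw_nonneg _ _ _ _ _ _ _)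
  norm_num
  linarith

end

end

end Pool.Agent.Q113.Cov.W56
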